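import Pool.Agent.Run7.h233.MC.Trace

/-!
The trace of an isotopy is a concordance without critical points of the height.
-/

set_option autoImplicit false

namespace Pool.Agent.Run7.h233.MC

open scoped ContDiff RealInnerProductSpace Topology
open Set Metric Filter
open Pool.Agent.Y503.RB Pool.Agent.N503.ML Pool.Agent.N15.SF

section

variable {k : ℝ → Circle → E3}

/-- the trace in the slab of height 3 -/
def trF (k : ℝ → Circle → E3) : Set E4 := trE k '' (Icc 0 3 ×ˢ univ)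

theorem mem_trF {x : E4} : x ∈ trF k ↔ (0 ≤ x 3 ∧ x 3 ≤ 3) ∧ ∃ u, trE k (x 3, u) = x := by
  constructor
  · rintro ⟨p, hp, rfl⟩
    rw [trE_three]
    exact ⟨hp.1, p.2, rfl⟩
  · rintro ⟨h, u, hu⟩
    exact ⟨(x 3, u), ⟨h, mem_univ _⟩, hu⟩

theorem patch_at (hk : ContDiff ℝ ∞ (fun q : ℝ × ℝ => k q.1 (Circle.exp q.2)))
    (hi : ∀ t ∈ Icc (0 : ℝ) 1, Function.Injective (k t))
    (hr : ∀ t ∈ Icc (0 : ℝ) 1, ∀ s : ℝ, deriv (fun s : ℝ => k t (Circle.exp s)) s ≠ 0)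
    {p : E4} (hp : p ∈ trF k) :
    ∃ (U : Set ℂ) (V : Set E4) (z : ℂ), EPatch (fun w : ℂ => trE k (qq w)) U ∧ IsOpen V ∧ p ∈ V ∧
      z ∈ U ∧ trE k (qq z) = p ∧ trF k ∩ V = (fun w : ℂ => trE k (qq w)) '' U ∩ slab 3 := by
  obtain ⟨h3, u, hu⟩ := mem_trF.1 hp
  obtain ⟨s₀, hs₀⟩ := circle_surj u
  have hUo : IsOpen {w : ℂ | |w.re - s₀| < 1} :=
    isOpen_lt ((Complex.continuous_re.sub continuous_const).abs) continuous_const
  have hcl := trE_closed hk hi
  have hqU : IsOpen (qq '' {w : ℂ | |w.re - s₀| < 1}) := qq_open _ hUo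
  obtain ⟨V, hV, hV2⟩ := hcl.isInducing.isOpen_iff.1 hqU
  have hz : qq ⟨s₀, p 3⟩ = (p 3, u) := by
    unfold qq
    rw [hs₀]
  refine ⟨{w : ℂ | |w.re - s₀| < 1}, V, ⟨s₀, p 3⟩, ⟨hUo, (patch_smooth hk).contDiffOn,
    fun z _ => patch_imm hk hr z, ?_⟩, hV, ?_, ?_, ?_, ?_⟩
  · exact hcl.isEmbedding.comp (qq_emb s₀).isEmbedding
  · have h1 : (p 3, u) ∈ trE k ⁻¹' V := by
      rw [hV2]
      exact ⟨⟨s₀, p 3⟩, by simp, hz⟩
    have h2 : trE k (p 3, u) ∈ V := h1
    rwa [hu] at h2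
  · simp
  · rw [hz, hu]
  · ext x
    constructor
    · rintro ⟨hx, hxV⟩
      obtain ⟨hx3, u', hu'⟩ := mem_trF.1 hx
      have h1 : (x 3, u') ∈ trE k ⁻¹' V := by
        show trE k (x 3, u') ∈ V
        rw [hu']; exact hxV
      rw [hV2] at h1
      obtain ⟨w, hw, hwq⟩ := h1
      exact ⟨⟨w, hw, by show trE k (qq w) = x; rw [hwq, hu']⟩, hx3⟩
    · rintro ⟨⟨w, hw, rfl⟩, hx3⟩
      refine ⟨mem_trF.2 ⟨hx3, ?_⟩, ?_⟩
      · refine ⟨(qq w).2, ?_⟩
        show trE k ((trE k (qq w)) 3, (qq w).2) = trE k (qq w)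
        rw [trE_three]
      · have h1 : qq w ∈ trE k ⁻¹' V := by rw [hV2]; exact ⟨w, hw, rfl⟩
        exact h1

theorem trE_const {t t' : ℝ} (h : stp t = stp t') (u : Circle) :
    trE k (t, u) - t • vert = trE k (t', u) - t' • vert := by
  unfold trE
  simp only
  rw [h, add_sub_cancel_right, add_sub_cancel_right]

theorem tr_cob (hk : ContDiff ℝ ∞ (fun q : ℝ × ℝ => k q.1 (Circle.exp q.2)))
    (hi : ∀ t ∈ Icc (0 : ℝ) 1, Function.Injective (k t))
    (hr : ∀ t ∈ Icc (0 : ℝ) 1, ∀ s : ℝ, deriv (fun s : ℝ => k t (Circle.exp s)) s ≠ 0) :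
    Cob (trF k) 3 := by
  refine ⟨(isCompact_Icc.prod isCompact_univ).image (trE_cont hk), fun x hx => (mem_trF.1 hx).1,
    fun p hp => ?_, 1, one_pos, by norm_num, fun x h0 h1 => ?_, fun x h0 h1 => ?_⟩
  · obtain ⟨U, V, z, hE, hV, hpV, hz, hzp, hFV⟩ := patch_at hk hi hr hp
    exact ⟨_, U, V, hE, hV, hpV, hFV⟩
  · have e3 : (x - (x 3) • vert) 3 = 0 := by
      rw [sub_eq_add_neg, ← neg_smul, NEAR.add_vert_three]; ring
    have hs : stp (x 3) = stp 0 := by rw [stp_zero h1, stp_zero zero_le_one]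
    constructor
    · intro hx
      obtain ⟨-, u, hu⟩ := mem_trF.1 hx
      refine mem_trF.2 ⟨by rw [e3]; norm_num, u, ?_⟩
      rw [e3]
      have := trE_const (k := k) hs u
      rw [zero_smul, sub_zero, hu] at this
      exact this.symm
    · intro hx
      obtain ⟨-, u, hu⟩ := mem_trF.1 hx
      refine mem_trF.2 ⟨⟨h0, by linarith⟩, u, ?_⟩
      rw [e3] at hu
      have := trE_const (k := k) hs u
      rw [zero_smul, sub_zero, hu] at this
      exact sub_left_injective this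
  · have e3 : (x + (3 - x 3) • vert) 3 = 3 := by
      rw [NEAR.add_vert_three]; ring
    have hs : stp (x 3) = stp 3 := by rw [stp_one (by linarith), stp_one (by norm_num)]
    constructor
    · intro hx
      obtain ⟨-, u, hu⟩ := mem_trF.1 hx
      refine mem_trF.2 ⟨by rw [e3]; norm_num, u, ?_⟩
      rw [e3]
      have := trE_const (k := k) hs u
      rw [hu] at this
      have h2 : trE k (3, u) = (x - (x 3) • vert) + (3 : ℝ) • vert := by rw [this]; abel
      rw [h2]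
      module
    · intro hx
      obtain ⟨-, u, hu⟩ := mem_trF.1 hx
      refine mem_trF.2 ⟨⟨by linarith, h1⟩, u, ?_⟩
      rw [e3] at hu
      have := trE_const (k := k) hs u
      rw [hu] at this
      have h2 : trE k (x 3, u) = (x + (3 - x 3) • vert - (3 : ℝ) • vert) + (x 3) • vert := by
        rw [← this]; abel
      rw [h2]
      module

theorem tr_noCrit (hk : ContDiff ℝ ∞ (fun q : ℝ × ℝ => k q.1 (Circle.exp q.2)))
    (hi : ∀ t ∈ Icc (0 : ℝ) 1, Function.Injective (k t))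
    (hr : ∀ t ∈ Icc (0 : ℝ) 1, ∀ s : ℝ, deriv (fun s : ℝ => k t (Circle.exp s)) s ≠ 0) :
    NoCrit (trF k) 3 := by
  rintro p ⟨hp, hpo⟩
  obtain ⟨U, V, z, hE, hV, hpV, hz, hzp, hFV⟩ := patch_at hk hi hr hp
  have hO : IsOpen (oslab 3) := isOpen_oslab 3
  have hUo : IsOpen (U ∩ (fun w : ℂ => trE k (qq w)) ⁻¹' oslab 3) :=
    hE.smooth.continuousOn.isOpen_inter_preimage hE.isOpen hO
  refine ⟨fun w : ℂ => trE k (qq w), U ∩ (fun w : ℂ => trE k (qq w)) ⁻¹' oslab 3, V ∩ oslab 3, z,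
    hE.restrict hUo inter_subset_left, hV.inter hO, ⟨hpV, hpo⟩, ?_, ⟨hz, ?_⟩, hzp, ?_⟩
  · ext x
    constructor
    · rintro ⟨hx, hxV, hxo⟩
      have h1 : x ∈ trF k ∩ V := ⟨hx, hxV⟩
      rw [hFV] at h1
      obtain ⟨⟨w, hw, rfl⟩, -⟩ := h1
      exact ⟨w, ⟨hw, hxo⟩, rfl⟩
    · rintro ⟨w, ⟨hw, hwo⟩, rfl⟩
      have hwo' : trE k (qq w) ∈ oslab 3 := hwo
      have h1 : trE k (qq w) ∈ trF k ∩ V := by
        rw [hFV]
        exact ⟨⟨w, hw, rfl⟩, hwo'.1.le, hwo'.2.le⟩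
      exact ⟨h1.1, h1.2, hwo'⟩
  · show trE k (qq z) ∈ oslab 3
    rw [hzp]; exact hpo
  · have h1 : (fun w : ℂ => (trE k (qq w)) 3) = fun w : ℂ => w.im := by
      funext w
      rw [trE_three]
      rfl
    rw [h1]
    have h2 : HasFDerivAt (fun w : ℂ => w.im) Complex.imCLM z := Complex.imCLM.hasFDerivAt
    rw [h2.fderiv]
    intro hc
    have := DFunLike.congr_fun hc Complex.I
    simp at this

/-- the trace of an isotopy -/
theorem conc_of_isotopic {K L : Knot} (h : Isotopic K L) :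
    ∃ (F : Set E4) (H : ℝ), IsConc K L F H ∧ NoCrit F H := by
  obtain ⟨k, hk, hir, hk0, σ, hσ, hk1⟩ := h
  have hi : ∀ t ∈ Icc (0 : ℝ) 1, Function.Injective (k t) := fun t ht => (hir t ht).1
  have hr : ∀ t ∈ Icc (0 : ℝ) 1, ∀ s : ℝ, deriv (fun s : ℝ => k t (Circle.exp s)) s ≠ 0 :=
    fun t ht => (hir t ht).2
  refine ⟨trF k, 3, IsConc.of (tr_cob hk hi hr) ?_, tr_noCrit hk hi hr⟩
  have hmem : ∀ p : Circle × unitInterval, trE k (3 * (p.2 : ℝ), p.1) ∈ trF k := fun p =>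
    ⟨(3 * (p.2 : ℝ), p.1), ⟨⟨by have := p.2.2.1; positivity, by linarith [p.2.2.2]⟩, mem_univ _⟩, rfl⟩
  have hbij : Function.Bijective fun p : Circle × unitInterval =>
      (⟨trE k (3 * (p.2 : ℝ), p.1), hmem p⟩ : trF k) := by
    constructor
    · intro p p' h
      have h1 := trE_inj hi (congrArg Subtype.val h)
      have h2 : 3 * (p.2 : ℝ) = 3 * (p'.2 : ℝ) := congrArg Prod.fst h1
      have h3 : p.1 = p'.1 := congrArg Prod.snd h1
      exact Prod.ext h3 (Subtype.ext (by linarith))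
    · rintro ⟨x, hx⟩
      obtain ⟨h3, u, hu⟩ := mem_trF.1 hx
      refine ⟨(u, ⟨x 3 / 3, by constructor <;> linarith [h3.1, h3.2]⟩), Subtype.ext ?_⟩
      show trE k (3 * (x 3 / 3), u) = x
      rw [mul_div_cancel₀ _ (by norm_num : (3 : ℝ) ≠ 0), hu]
  have hcont : Continuous (Equiv.ofBijective _ hbij) := by
    refine Continuous.subtype_mk ((trE_cont hk).comp ?_) _
    fun_prop
  let e : Circle × unitInterval ≃ₜ trF k := hcont.homeoOfEquivCompactToT2
  have he : ∀ p, (e p : E4) = trE k (3 * (p.2 : ℝ), p.1) := fun p => rfl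
  refine ⟨e, fun u => ?_, ⟨σ, hσ, fun u => ?_⟩, fun p hp => ?_, fun p hp => ?_⟩
  · rw [he]
    show inc (k (stp (3 * ((0 : unitInterval) : ℝ))) u) + (3 * ((0 : unitInterval) : ℝ)) • vert = _
    rw [Set.Icc.coe_zero, mul_zero, zero_smul, add_zero, stp_zero zero_le_one, hk0]
  · rw [he]
    show inc (k (stp (3 * ((1 : unitInterval) : ℝ))) u) + (3 * ((1 : unitInterval) : ℝ)) • vert = _
    rw [Set.Icc.coe_one, mul_one, stp_one (by norm_num), hk1]
  · rw [he, trE_three] at hp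
    have hp' : 3 * (p.2 : ℝ) = 0 := hp
    exact Subtype.ext (by
      show (p.2 : ℝ) = 0
      linarith)
  · rw [he, trE_three] at hp
    have hp' : 3 * (p.2 : ℝ) = 3 := hp
    exact Subtype.ext (by
      show (p.2 : ℝ) = 1
      linarith)

/-- an ambient isotopy gives an isotopy -/
theorem isotopic_of_ambient {K L : Knot} (h : AmbientIsotopic K L) : Isotopic K L := by
  obtain ⟨A, hA, hA0, hAB, hAL⟩ := h
  refine ⟨fun t u => A t (K.c u), ?_, fun t _ => ⟨?_, fun s => ?_⟩, funext fun u => hA0 _, hAL⟩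
  · exact hA.comp (contDiff_fst.prodMk (K.smooth.comp contDiff_snd))
  · obtain ⟨B, -, hB, -⟩ := hAB t
    intro u v huv
    apply K.inj
    rw [← hB (K.c u), ← hB (K.c v)]
    exact congrArg B huv
  · obtain ⟨B, hBs, hB, -⟩ := hAB t
    intro hc
    apply K.reg s
    have hAt : ContDiff ℝ ∞ (A t) := hA.comp (contDiff_const.prodMk contDiff_id)
    have hd : DifferentiableAt ℝ (fun s : ℝ => A t (K.c (Circle.exp s))) s :=
      (hAt.comp K.smooth).differentiable (by simp) s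
    have h1 : HasDerivAt (fun s : ℝ => B (A t (K.c (Circle.exp s))))
        (fderiv ℝ B (A t (K.c (Circle.exp s))) (deriv (fun s : ℝ => A t (K.c (Circle.exp s))) s)) s :=
      ((hBs.differentiable (by simp) _).hasFDerivAt).comp_hasDerivAt s hd.hasDerivAt
    rw [hc, map_zero] at h1
    simp only [hB] at h1
    exact h1.deriv

end

end Pool.Agent.Run7.h233.MC
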