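import Pool.Agent.Run7.h233.MC.Iso
import Pool.Agent.Run7.h233.MC.Trace2
import Pool.Agent.N503.WS

/-!
A Fáry–Milnor theorem for concordances.
-/

set_option autoImplicit false

namespace Pool.Agent.Run7.h233.MC

open scoped ContDiff RealInnerProductSpace Topology ENNReal NNReal
open Set Metric Filter
open Pool.Agent.Y503.RB Pool.Agent.N503.ML Pool.Agent.N15.SF Pool.Agent.N503.WI

/-- a concordance with a Morse height and without extrema has no critical points -/
theorem noCrit_of_extr {K L : Knot} {F : Set E4} {H : ℝ} (hC : IsConc K L F H) (hM : MorseF F H)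
    (hmax : nmaxF F H = 0) (hmin : nminF F H = 0) : NoCrit F H := by
  obtain ⟨e, h0, h1⟩ := hC.ends
  exact ann hC.cob.sub hM hmax hmin e h0 h1

theorem noCrit_of_curv {K L : Knot} {F : Set E4} {H : ℝ} (hC : IsConc K L F H)
    (hc : lowF F H + uppF F H < ENNReal.ofReal (Real.pi ^ 2)) :
    ∃ F' H', IsConc K L F' H' ∧ NoCrit F' H' := by
  obtain ⟨η, hη, hη2⟩ := exists_eta hc
  obtain ⟨F', H', a1, a2, a3, a4⟩ := all_A F H hC.cob 1 1 η hη
  have hC' : IsConc K L F' H' := (conc_cls K L).closed _ _ _ _ hC a1 a2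
  simp only [ENNReal.coe_one, one_mul] at a4
  have h1 : ENNReal.ofReal (Real.pi ^ 2) * ((nminF F' H' + nmaxF F' H' : ℕ∞) : ℝ≥0∞) <
      ENNReal.ofReal (Real.pi ^ 2 * ((0 : ℕ) + 1)) := by
    push_cast
    rw [zero_add, mul_one]
    exact a4.trans_lt hη2
  have h2 := nat_of_lt h1
  have h3 : nminF F' H' + nmaxF F' H' = 0 := by simpa using h2
  obtain ⟨h4, h5⟩ := add_eq_zero.1 h3
  exact ⟨F', H', hC', noCrit_of_extr hC' a3 h5 h4⟩

theorem curv_of_noCrit {K L : Knot} {F : Set E4} {H : ℝ} (hC : IsConc K L F H)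
    (hN : NoCrit F H) (η : ℝ) (hη : 0 < η) :
    ∃ F' H', IsConc K L F' H' ∧ lowF F' H' + uppF F' H' ≤ ENNReal.ofReal η := by
  obtain ⟨hM, hmax, hmin⟩ := extr_of_noCrit hN
  obtain ⟨F', H', a1, a2, a3, a4⟩ := all_B F H hC.cob hM (η / 2) (by positivity)
  refine ⟨F', H', (conc_cls K L).closed _ _ _ _ hC a1 a2, ?_⟩
  rw [hmin] at a3
  rw [hmax] at a4
  simp only [ENat.toENNReal_zero, mul_zero, zero_add] at a3 a4
  refine (add_le_add a3 a4).trans ?_
  rw [← ENNReal.ofReal_add (by positivity) (by positivity), add_halves]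

theorem isotopic_tfae (K L : Knot) : List.TFAE [
    Isotopic K L,
    AmbientIsotopic K L,
    ∃ F H, IsConc K L F H ∧ NoCrit F H,
    ∃ F H, IsConc K L F H ∧ lowF F H + uppF F H < ENNReal.ofReal (Real.pi ^ 2),
    ∀ η : ℝ, 0 < η → ∃ F H, IsConc K L F H ∧ lowF F H + uppF F H ≤ ENNReal.ofReal η] := by
  tfae_have 1 → 3 := conc_of_isotopic
  tfae_have 3 → 2 := by
    rintro ⟨F, H, h1, h2⟩
    exact amb_of_conc h1 h2
  tfae_have 2 → 1 := isotopic_of_ambient
  tfae_have 3 → 5 := by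
    rintro ⟨F, H, h1, h2⟩ η hη
    exact curv_of_noCrit h1 h2 η hη
  tfae_have 5 → 4 := by
    intro h
    obtain ⟨F, H, h1, h2⟩ := h 1 one_pos
    refine ⟨F, H, h1, h2.trans_lt ?_⟩
    rw [ENNReal.ofReal_lt_ofReal_iff (by positivity)]
    have := Real.pi_gt_three
    nlinarith
  tfae_have 4 → 3 := by
    rintro ⟨F, H, h1, h2⟩
    exact noCrit_of_curv h1 h2
  tfae_finish

/-- Willmore energy less than `2 π` -/
theorem isotopic_of_willmore {K L : Knot} {F : Set E4} {H : ℝ} (hC : IsConc K L F H)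
    (hW : wilF F H < ENNReal.ofReal (2 * Real.pi)) : AmbientIsotopic K L := by
  have hpi := Real.pi_pos
  have h0 : ENNReal.ofReal (Real.pi / 2) ≠ 0 := by
    rw [Ne, ENNReal.ofReal_eq_zero, not_le]; positivity
  have h1 : lowF F H + uppF F H < ENNReal.ofReal (Real.pi ^ 2) := by
    refine (sumF_le F H).trans_lt ?_
    have h2 : ENNReal.ofReal (Real.pi ^ 2) =
        ENNReal.ofReal (Real.pi / 2) * ENNReal.ofReal (2 * Real.pi) := by
      rw [← ENNReal.ofReal_mul (by positivity)]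
      congr 1
      ring
    rw [h2]
    exact (ENNReal.mul_lt_mul_iff_right h0 ENNReal.ofReal_ne_top).2 hW
  have h3 : (∃ F H, IsConc K L F H ∧ lowF F H + uppF F H < ENNReal.ofReal (Real.pi ^ 2)) ↔
      AmbientIsotopic K L := (isotopic_tfae K L).out 3 1
  exact h3.1 ⟨F, H, hC, h1⟩

end Pool.Agent.Run7.h233.MC
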