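import Pool.Agent.N15.SF.NEAR

/-!
Nondegenerate critical points of the height which are not extrema: there are two directions in which
the height decreases and increases.
-/

set_option autoImplicit false

namespace Pool.Agent.Run7.h233.MC

open scoped ContDiff RealInnerProductSpace Topology
open Set Metric Filter
open Pool.Agent.Y503.RB Pool.Agent.N503.ML Pool.Agent.N15.RC Pool.Agent.N15.SF

theorem line_pos {φ : ℂ → E4} {U : Set ℂ} (hU : IsOpen U) (hs : ContDiffOn ℝ ∞ φ U) {z : ℂ}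
    (hz : z ∈ U) {n : E4} {v : ℂ} (h0 : ⟪n, d1 φ v z⟫ = 0) (h2 : sff φ n v v z < 0) :
    ∃ ε > 0, ∀ t : ℝ, 0 < t → t ≤ ε → ⟪n, φ (z + t • v)⟫ < ⟪n, φ z⟫ := by
  have hU' : ∀ᶠ q : E4 × ℂ in 𝓝 (n, z), q.2 ∈ U :=
    (continuous_snd.tendsto (n, z)).eventually (hU.mem_nhds hz)
  obtain ⟨ρ, hρ, hb⟩ := NEAR.near_pair (((NEAR.k2 hU hs hz n v v).eventually (gt_mem_nhds h2)).and
    hU')
  have hn : ‖n - n‖ < ρ := by simpa using hρ
  obtain ⟨ε, hε, hε2⟩ : ∃ ε > 0, ∀ t : ℝ, 0 ≤ t → t ≤ ε → z + t • v ∈ ball z ρ := by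
    refine ⟨ρ / 2 / (‖v‖ + 1), by positivity, fun t ht ht2 => ?_⟩
    rw [mem_ball, dist_eq_norm, add_sub_cancel_left, norm_smul, Real.norm_eq_abs, abs_of_nonneg ht]
    have h1 : 0 < ‖v‖ + 1 := by positivity
    rw [le_div_iff₀ h1] at ht2
    nlinarith [norm_nonneg v]
  refine ⟨ε, hε, fun T hT hT2 => ?_⟩
  have hmem : ∀ s ∈ Icc (0 : ℝ) T, z + s • v ∈ ball z ρ := fun s hs =>
    hε2 s hs.1 (hs.2.trans hT2)
  have hVs : ∀ s ∈ Icc (0 : ℝ) T, ContDiffAt ℝ ∞ φ (z + s • v) := fun s hs' =>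
    hs.contDiffAt (hU.mem_nhds (hb n hn _ (hmem s hs')).2)
  have hl : ∀ s : ℝ, HasDerivAt (fun s : ℝ => z + s • v) v s := fun s => by
    have := ((hasDerivAt_id s).smul_const v).const_add z
    simpa using this
  have hk : ∀ s ∈ Icc (0 : ℝ) T, HasDerivAt (fun s : ℝ => ⟪n, φ (z + s • v)⟫)
      ⟪n, d1 φ v (z + s • v)⟫ s := fun s hs => by
    have hd : DifferentiableAt ℝ φ (z + s • v) := (hVs _ hs).differentiableAt (by simp)
    have h1 := hd.hasFDerivAt.comp_hasDerivAt s (hl s)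
    exact (innerSL ℝ n).hasFDerivAt.comp_hasDerivAt s h1
  have hh : ∀ s ∈ Icc (0 : ℝ) T, HasDerivAt (fun s : ℝ => ⟪n, d1 φ v (z + s • v)⟫)
      (sff φ n v v (z + s • v)) s := fun s hs => by
    have hd : DifferentiableAt ℝ (fun a => d1 φ v a) (z + s • v) :=
      (Pool.Agent.Y640.RB.diffFderiv (hVs _ hs)).clm_apply (differentiableAt_const v)
    have h1 := hd.hasFDerivAt.comp_hasDerivAt s (hl s)
    exact (innerSL ℝ n).hasFDerivAt.comp_hasDerivAt s h1
  have hanti : StrictAntiOn (fun s : ℝ => ⟪n, d1 φ v (z + s • v)⟫) (Icc 0 T) := by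
    refine strictAntiOn_of_deriv_neg (convex_Icc 0 T)
      (fun s hs => (hh s hs).continuousAt.continuousWithinAt) fun s hs => ?_
    have hs' := interior_subset hs
    rw [(hh s hs').deriv]
    exact (hb n hn _ (hmem s hs')).1
  have h00 : ⟪n, d1 φ v (z + (0 : ℝ) • v)⟫ = 0 := by
    rw [zero_smul, add_zero]; exact h0
  have hant : StrictAntiOn (fun s : ℝ => ⟪n, φ (z + s • v)⟫) (Icc 0 T) := by
    refine strictAntiOn_of_deriv_neg (convex_Icc 0 T)
      (fun s hs => (hk s hs).continuousAt.continuousWithinAt) fun s hs => ?_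
    have hs' := interior_subset hs
    rw [interior_Icc] at hs
    rw [(hk s hs').deriv, ← h00]
    exact hanti (left_mem_Icc.2 hT.le) hs' hs.1
  have := hant (left_mem_Icc.2 hT.le) (right_mem_Icc.2 hT.le) hT
  simpa using this

theorem line_two {φ : ℂ → E4} {U : Set ℂ} (hU : IsOpen U) (hs : ContDiffOn ℝ ∞ φ U) {z : ℂ}
    (hz : z ∈ U) {n : E4} {v : ℂ} (h0 : ∀ v, ⟪n, d1 φ v z⟫ = 0) (h2 : sff φ n v v z < 0) :
    ∃ ε > 0, ∀ t : ℝ, 0 < |t| → |t| ≤ ε → ⟪n, φ (z + t • v)⟫ < ⟪n, φ z⟫ := by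
  obtain ⟨ε₁, h1, h1'⟩ := line_pos hU hs hz (h0 v) h2
  have h3 : sff φ n (-v) (-v) z < 0 := by
    have hsm : ContDiffAt ℝ ∞ φ z := hs.contDiffAt (hU.mem_nhds hz)
    rw [sff_quad hsm] at h2 ⊢
    simp only [Complex.neg_re, Complex.neg_im]
    linarith
  obtain ⟨ε₂, h4, h4'⟩ := line_pos hU hs hz (h0 (-v)) h3
  refine ⟨min ε₁ ε₂, lt_min h1 h4, fun t ht ht2 => ?_⟩
  rcases lt_or_gt_of_ne (abs_pos.1 ht) with h | h
  · rw [abs_of_neg h] at ht2
    have := h4' (-t) (by linarith) (ht2.trans (min_le_right _ _))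
    rwa [neg_smul_neg] at this
  · rw [abs_of_pos h] at ht2
    exact h1' t h (ht2.trans (min_le_left _ _))

/-- a nondegenerate critical point of the height which is not an extremum -/
theorem saddle_dirs {F V : Set E4} {φ : ℂ → E4} {U : Set ℂ} (hE : EPatch φ U) (hV : IsOpen V)
    (hF : F ∩ V = φ '' U) {z : ℂ} (hz : z ∈ U)
    (hM : fderiv ℝ (fun w => φ w 3) z = 0 → ∀ u : ℂ,
      (∀ v : ℂ, fderiv ℝ (fderiv ℝ (fun w => φ w 3)) z u v = 0) → u = 0)
    (hcr : fderiv ℝ (fun w => φ w 3) z = 0)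
    (hmax : ¬ IsLocalMaxOn (fun x : E4 => x 3) F (φ z))
    (hmin : ¬ IsLocalMinOn (fun x : E4 => x 3) F (φ z)) :
    ∃ u w : ℂ, ∃ ε > 0, u.re * w.im - u.im * w.re ≠ 0 ∧
      (∀ t : ℝ, 0 < |t| → |t| ≤ ε → φ (z + t • u) 3 < φ z 3) ∧
      (∀ t : ℝ, 0 < |t| → |t| ≤ ε → φ z 3 < φ (z + t • w) 3) := by
  have hU := hE.isOpen
  have hs := hE.smooth
  have hsm : ContDiffAt ℝ ∞ φ z := hs.contDiffAt (hU.mem_nhds hz)
  have hcr' : ∀ v : ℂ, ⟪vert, d1 φ v z⟫ = 0 := by
    intro v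
    rw [← (hess hsm vert 0).1 v, ← height_eq, hcr]
    rfl
  have hk : kdet φ vert z ≠ 0 := NEAR.kdet_ne' hsm hM hcr'
  have hcr2 : ∀ v : ℂ, ⟪-vert, d1 φ v z⟫ = 0 := fun v => by
    rw [inner_neg_left, hcr' v, neg_zero]
  have hk2 : kdet φ (-vert) z ≠ 0 := by
    have : kdet φ (-vert) z = kdet φ vert z := by
      unfold kdet sff
      simp only [inner_neg_left]
      ring
    rw [this]; exact hk
  obtain ⟨w, hw⟩ : ∃ w, 0 < sff φ vert w w z := by
    by_contra hc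
    push Not at hc
    obtain ⟨a, b⟩ := neg_of_semidef hsm hc hk
    have := NEAR.max_of_neg hU hs hV hF hE.emb hz hcr' a b
    simp only [inner_vert] at this
    exact hmax this
  obtain ⟨u, hu⟩ : ∃ u, sff φ vert u u z < 0 := by
    by_contra hc
    push Not at hc
    have hc' : ∀ w, sff φ (-vert) w w z ≤ 0 := fun w => by
      have := hc w
      unfold sff at this ⊢
      rw [inner_neg_left]
      linarith
    obtain ⟨a, b⟩ := neg_of_semidef hsm hc' hk2
    have := NEAR.max_of_neg hU hs hV hF hE.emb hz hcr2 a b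
    simp only [inner_neg_left, inner_vert] at this
    refine hmin ?_
    filter_upwards [this] with x hx
    linarith
  have hw' : sff φ (-vert) w w z < 0 := by
    unfold sff at hw ⊢
    rw [inner_neg_left]
    linarith
  obtain ⟨ε₁, e1, e1'⟩ := line_two hU hs hz hcr' hu
  obtain ⟨ε₂, e2, e2'⟩ := line_two hU hs hz hcr2 hw'
  refine ⟨u, w, min ε₁ ε₂, lt_min e1 e2, ?_, fun t ht ht2 => ?_, fun t ht ht2 => ?_⟩
  · intro hdet
    rw [sff_quad hsm] at hu hw
    obtain ⟨e, he⟩ : ∃ e, e = sff φ vert 1 1 z := ⟨_, rfl⟩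
    obtain ⟨f, hf⟩ : ∃ f, f = sff φ vert 1 Complex.I z := ⟨_, rfl⟩
    obtain ⟨g, hg⟩ : ∃ g, g = sff φ vert Complex.I Complex.I z := ⟨_, rfl⟩
    rw [← he, ← hf, ← hg] at hu hw
    -- `w` is a multiple of `u`
    by_cases hu0 : u.re = 0
    · have hui : u.im ≠ 0 := by
        intro h; rw [hu0, h] at hu; simp at hu
      have hwr : w.re = 0 := by
        rw [hu0] at hdet
        have : u.im * w.re = 0 := by linarith
        exact (mul_eq_zero.1 this).resolve_left hui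
      rw [hu0] at hu
      rw [hwr] at hw
      have h1 : 0 < u.im ^ 2 := by positivity
      have h2 : g < 0 := by nlinarith
      nlinarith [sq_nonneg w.im]
    · have hwi : w.im = u.im * w.re / u.re := by field_simp; linarith
      have h1 : 0 < u.re ^ 2 := by positivity
      have h3 : (w.re ^ 2 * e + 2 * (w.re * w.im) * f + w.im ^ 2 * g) * u.re ^ 2 =
          w.re ^ 2 * (u.re ^ 2 * e + 2 * (u.re * u.im) * f + u.im ^ 2 * g) := by
        rw [hwi]; field_simp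
      nlinarith [sq_nonneg w.re]
  · have := e1' t ht (ht2.trans (min_le_left _ _))
    simpa only [inner_vert] using this
  · have := e2' t ht (ht2.trans (min_le_right _ _))
    simp only [inner_neg_left, inner_vert] at this
    linarith

end Pool.Agent.Run7.h233.MC
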