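import Pool.Agent.Run7.h233.MC.Plane2
import Pool.Agent.Run7.h233.MC.Line

/-!
On an annulus in a slab, a Morse height without extrema in the interior has no critical points.
-/

set_option autoImplicit false

namespace Pool.Agent.Run7.h233.MC

open scoped ContDiff RealInnerProductSpace Topology
open Set Metric Filter

/-- the point `x / |x|` of the circle -/
noncomputable def un (x : ℂ) : Circle := Circle.exp (Complex.arg x)

theorem un_coe {x : ℂ} (h : x ≠ 0) : ((un x : Circle) : ℂ) = x / ‖x‖ := by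
  unfold un
  rw [Circle.coe_exp]
  have h1 := Complex.norm_mul_exp_arg_mul_I x
  have h2 : ((‖x‖ : ℝ) : ℂ) ≠ 0 := by exact_mod_cast norm_ne_zero_iff.2 h
  rw [eq_div_iff h2, mul_comm]
  exact h1

theorem circle_ind : Topology.IsInducing (fun u : Circle => (u : ℂ)) :=
  (Isometry.isUniformInducing (f := fun u : Circle => (u : ℂ)) (fun _ _ => rfl)).isInducing

theorem un_cont : ContinuousOn un {0}ᶜ := by
  rw [circle_ind.continuousOn_iff]
  have h : ContinuousOn (fun x : ℂ => x / ‖x‖) {0}ᶜ := by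
    refine ContinuousOn.div continuousOn_id (by fun_prop) ?_
    intro x hx
    exact_mod_cast norm_ne_zero_iff.2 hx
  exact h.congr fun x hx => un_coe hx

theorem un_smul {x : ℂ} (h : x ≠ 0) {r : ℝ} (hr : 0 < r) : un (r * x) = un x := by
  apply Circle.ext
  have h1 : (r : ℂ) ≠ 0 := by exact_mod_cast hr.ne'
  have h2 : ((‖x‖ : ℝ) : ℂ) ≠ 0 := by exact_mod_cast norm_ne_zero_iff.2 h
  rw [un_coe h, un_coe (mul_ne_zero h1 h), norm_mul, Complex.norm_real, Real.norm_eq_abs,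
    abs_of_pos hr]
  push_cast
  field_simp

/-- the extension of a function on the annulus to the plane -/
noncomputable def fh (g : Circle × unitInterval → ℝ) (x : ℂ) : ℝ :=
  g (un x, projIcc 0 1 zero_le_one (‖x‖ - 1)) + min (‖x‖ - 1) 0 + max (‖x‖ - 2) 0

section

variable {g : Circle × unitInterval → ℝ} {H : ℝ}

theorem fh_in (h0 : ∀ u, g (u, 0) = 0) {x : ℂ} (hx : ‖x‖ ≤ 1) : fh g x = ‖x‖ - 1 := by
  unfold fh
  rw [projIcc_of_le_left _ (by linarith : ‖x‖ - 1 ≤ 0), min_eq_left (by linarith),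
    max_eq_right (by linarith)]
  have : g (un x, ⟨0, left_mem_Icc.2 zero_le_one⟩) = 0 := h0 (un x)
  rw [this]
  ring

theorem fh_out (h1 : ∀ u, g (u, 1) = H) {x : ℂ} (hx : 2 ≤ ‖x‖) : fh g x = H + (‖x‖ - 2) := by
  unfold fh
  rw [projIcc_of_right_le _ (by linarith : 1 ≤ ‖x‖ - 1), min_eq_right (by linarith),
    max_eq_left (by linarith)]
  have : g (un x, ⟨1, right_mem_Icc.2 zero_le_one⟩) = H := h1 (un x)
  rw [this]
  ring

theorem fh_mid {x : ℂ} (hx1 : 1 ≤ ‖x‖) (hx2 : ‖x‖ ≤ 2) :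
    fh g x = g (un x, ⟨‖x‖ - 1, by linarith, by linarith⟩) := by
  unfold fh
  rw [projIcc_of_mem _ (⟨by linarith, by linarith⟩ : ‖x‖ - 1 ∈ Icc (0 : ℝ) 1),
    min_eq_right (by linarith), max_eq_right (by linarith)]
  ring

theorem fh_cont (hg : Continuous g) (h0 : ∀ u, g (u, 0) = 0) : Continuous (fh g) := by
  rw [continuous_iff_continuousAt]
  intro x
  by_cases hx : ‖x‖ < 1
  · have h1 : (fun y : ℂ => ‖y‖ - 1) =ᶠ[𝓝 x] fh g := by
      have h2 : IsOpen {y : ℂ | ‖y‖ < 1} := isOpen_lt continuous_norm continuous_const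
      filter_upwards [h2.mem_nhds hx] with y hy
      exact (fh_in h0 (le_of_lt hy)).symm
    exact ContinuousAt.congr (by fun_prop) h1
  · have hx0 : x ≠ 0 := by
      rintro rfl
      simp at hx
    have h1 : ContinuousOn (fh g) {0}ᶜ := by
      unfold fh
      refine ContinuousOn.add (ContinuousOn.add ?_ (by fun_prop)) (by fun_prop)
      refine hg.comp_continuousOn (un_cont.prodMk ?_)
      exact (continuous_projIcc.comp (by fun_prop : Continuous fun x : ℂ => ‖x‖ - 1)).continuousOn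
    exact h1.continuousAt (isOpen_compl_singleton.mem_nhds hx0)

theorem fh_tendsto (h1 : ∀ u, g (u, 1) = H) : Tendsto (fh g) (cocompact ℂ) atTop := by
  have h2 : Tendsto (fun x : ℂ => H + (‖x‖ - 2)) (cocompact ℂ) atTop := by
    refine tendsto_atTop_add_const_left _ _ ?_
    exact tendsto_atTop_add_const_right _ _ (tendsto_norm_cocompact_atTop (E := ℂ))
  refine h2.congr' ?_
  have h3 : ∀ᶠ x in cocompact ℂ, 2 ≤ ‖x‖ :=
    (tendsto_norm_cocompact_atTop (E := ℂ)).eventually_ge_atTop 2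
  filter_upwards [h3] with x hx
  exact (fh_out h1 hx).symm

/-- radial comparison: points `t x` with `t` close to `1` -/
theorem not_min_of {f : ℂ → ℝ} {x : ℂ}
    (h : ∀ᶠ t : ℝ in 𝓝[<] (1 : ℝ), f ((t : ℂ) * x) < f x) : ¬ IsLocalMin f x := by
  intro hm
  have h1 : Tendsto (fun t : ℝ => (t : ℂ) * x) (𝓝[<] (1 : ℝ)) (𝓝 x) := by
    have h2 : Tendsto (fun t : ℝ => (t : ℂ) * x) (𝓝 (1 : ℝ)) (𝓝 (((1 : ℝ) : ℂ) * x)) :=
      (by fun_prop : Continuous fun t : ℝ => (t : ℂ) * x).tendsto 1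
    rw [Complex.ofReal_one, one_mul] at h2
    exact h2.mono_left nhdsWithin_le_nhds
  obtain ⟨t, ht1, ht2⟩ := (Filter.Eventually.and (h1.eventually hm) h).exists
  exact absurd ht1 (not_le.2 ht2)

theorem not_max_of {f : ℂ → ℝ} {x : ℂ}
    (h : ∀ᶠ t : ℝ in 𝓝[>] (1 : ℝ), f x < f ((t : ℂ) * x)) : ¬ IsLocalMax f x := by
  intro hm
  have h1 : Tendsto (fun t : ℝ => (t : ℂ) * x) (𝓝[>] (1 : ℝ)) (𝓝 x) := by
    have h2 : Tendsto (fun t : ℝ => (t : ℂ) * x) (𝓝 (1 : ℝ)) (𝓝 (((1 : ℝ) : ℂ) * x)) :=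
      (by fun_prop : Continuous fun t : ℝ => (t : ℂ) * x).tendsto 1
    rw [Complex.ofReal_one, one_mul] at h2
    exact h2.mono_left nhdsWithin_le_nhds
  obtain ⟨t, ht1, ht2⟩ := (Filter.Eventually.and (h1.eventually hm) h).exists
  exact absurd ht1 (not_le.2 ht2)

theorem nrm (t : ℝ) (ht : 0 < t) (x : ℂ) : ‖(t : ℂ) * x‖ = t * ‖x‖ := by
  rw [norm_mul, Complex.norm_real, Real.norm_eq_abs, abs_of_pos ht]

theorem fh_min (h0 : ∀ u, g (u, 0) = 0) (h1 : ∀ u, g (u, 1) = H) (hlt : ∀ u s, s < 1 → g (u, s) < H)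
    {x : ℂ} (hx : x ≠ 0) (hx' : ‖x‖ ≤ 1 ∨ 2 ≤ ‖x‖) : ¬ IsLocalMin (fh g) x := by
  have hn : 0 < ‖x‖ := norm_pos_iff.2 hx
  apply not_min_of
  have hpos : ∀ᶠ t : ℝ in 𝓝[<] (1 : ℝ), (3 / 4 : ℝ) < t :=
    nhdsWithin_le_nhds (lt_mem_nhds (by norm_num))
  rcases hx' with h | h
  · filter_upwards [self_mem_nhdsWithin, hpos] with t ht ht2
    have ht' : t < 1 := ht
    have e : ‖(t : ℂ) * x‖ = t * ‖x‖ := nrm t (by linarith) x
    rw [fh_in h0 h, fh_in h0 (by rw [e]; nlinarith), e]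
    nlinarith
  · rcases eq_or_lt_of_le h with h2 | h2
    · filter_upwards [self_mem_nhdsWithin, hpos] with t ht ht2
      have ht' : t < 1 := ht
      have e : ‖(t : ℂ) * x‖ = t * ‖x‖ := nrm t (by linarith) x
      have a1 : 1 ≤ ‖(t : ℂ) * x‖ := by rw [e, ← h2]; linarith
      have a2 : ‖(t : ℂ) * x‖ < 2 := by rw [e, ← h2]; linarith
      have e2 := fh_mid (g := g) a1 a2.le
      have e3 := fh_out h1 h
      have := hlt (un ((t : ℂ) * x)) ⟨‖(t : ℂ) * x‖ - 1, by constructor <;> linarith⟩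
        (Subtype.mk_lt_mk.2 (by linarith))
      linarith
    · have h3 : ∀ᶠ t : ℝ in 𝓝[<] (1 : ℝ), 2 < t * ‖x‖ := by
        have h4 : Tendsto (fun t : ℝ => t * ‖x‖) (𝓝 (1 : ℝ)) (𝓝 (1 * ‖x‖)) :=
          (by fun_prop : Continuous fun t : ℝ => t * ‖x‖).tendsto 1
        rw [one_mul] at h4
        exact nhdsWithin_le_nhds (h4.eventually (lt_mem_nhds h2))
      filter_upwards [self_mem_nhdsWithin, hpos, h3] with t ht ht2 ht3
      have ht' : t < 1 := ht
      have e : ‖(t : ℂ) * x‖ = t * ‖x‖ := nrm t (by linarith) x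
      rw [fh_out h1 h, fh_out h1 (by rw [e]; exact ht3.le), e]
      nlinarith

theorem fh_max (h0 : ∀ u, g (u, 0) = 0) (h1 : ∀ u, g (u, 1) = H) (hgt : ∀ u s, 0 < s → 0 < g (u, s))
    {x : ℂ} (hx' : ‖x‖ ≤ 1 ∨ 2 ≤ ‖x‖) : ¬ IsLocalMax (fh g) x := by
  have hpos : ∀ᶠ t : ℝ in 𝓝[>] (1 : ℝ), t < 5 / 4 :=
    nhdsWithin_le_nhds (gt_mem_nhds (by norm_num))
  by_cases hx : x = 0
  · subst hx
    intro hm
    have h2 : Tendsto (fun t : ℝ => (t : ℂ)) (𝓝[>] (0 : ℝ)) (𝓝 (0 : ℂ)) := by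
      have h3 : Tendsto (fun t : ℝ => (t : ℂ)) (𝓝 (0 : ℝ)) (𝓝 (((0 : ℝ)) : ℂ)) :=
        Complex.continuous_ofReal.tendsto 0
      rw [Complex.ofReal_zero] at h3
      exact h3.mono_left nhdsWithin_le_nhds
    have h3 : ∀ᶠ t : ℝ in 𝓝[>] (0 : ℝ), t < 1 := nhdsWithin_le_nhds (gt_mem_nhds one_pos)
    obtain ⟨t, ⟨ht1, ht2⟩, ht3⟩ :=
      (((h2.eventually hm).and h3).and (self_mem_nhdsWithin (s := Ioi (0 : ℝ)))).exists
    have ht3' : 0 < t := ht3
    have e : ‖(t : ℂ)‖ = t := by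
      rw [Complex.norm_real, Real.norm_eq_abs, abs_of_pos ht3']
    have h4 : fh g (t : ℂ) ≤ fh g 0 := ht1
    rw [fh_in h0 (by rw [e]; exact ht2.le), fh_in h0 (by simp), e, norm_zero] at h4
    linarith
  have hn : 0 < ‖x‖ := norm_pos_iff.2 hx
  apply not_max_of
  rcases hx' with h | h
  · rcases eq_or_lt_of_le h with h2 | h2
    · filter_upwards [self_mem_nhdsWithin, hpos] with t ht ht2
      have ht' : 1 < t := ht
      have e : ‖(t : ℂ) * x‖ = t * ‖x‖ := nrm t (by linarith) x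
      have a1 : 1 < ‖(t : ℂ) * x‖ := by rw [e, h2]; linarith
      have a2 : ‖(t : ℂ) * x‖ ≤ 2 := by rw [e, h2]; linarith
      have e2 := fh_mid (g := g) a1.le a2
      have e3 := fh_in h0 h
      have := hgt (un ((t : ℂ) * x)) ⟨‖(t : ℂ) * x‖ - 1, by constructor <;> linarith⟩
        (Subtype.mk_lt_mk.2 (by linarith))
      linarith
    · have h3 : ∀ᶠ t : ℝ in 𝓝[>] (1 : ℝ), t * ‖x‖ < 1 := by
        have h4 : Tendsto (fun t : ℝ => t * ‖x‖) (𝓝 (1 : ℝ)) (𝓝 (1 * ‖x‖)) :=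
          (by fun_prop : Continuous fun t : ℝ => t * ‖x‖).tendsto 1
        rw [one_mul] at h4
        exact nhdsWithin_le_nhds (h4.eventually (gt_mem_nhds h2))
      filter_upwards [self_mem_nhdsWithin, h3] with t ht ht3
      have ht' : 1 < t := ht
      have e : ‖(t : ℂ) * x‖ = t * ‖x‖ := nrm t (by linarith) x
      rw [fh_in h0 h, fh_in h0 (by rw [e]; exact ht3.le), e]
      nlinarith
  · filter_upwards [self_mem_nhdsWithin, hpos] with t ht ht2
    have ht' : 1 < t := ht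
    have e : ‖(t : ℂ) * x‖ = t * ‖x‖ := nrm t (by linarith) x
    rw [fh_out h1 h, fh_out h1 (by rw [e]; nlinarith), e]
    nlinarith

end

end Pool.Agent.Run7.h233.MC
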