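import Pool.Agent.Run7.h233.MC.Ann

/-!
On an annulus in a slab, a Morse height without extrema in the interior has no critical points.
-/

set_option autoImplicit false

namespace Pool.Agent.Run7.h233.MC

open scoped ContDiff RealInnerProductSpace Topology
open Set Metric Filter
open Pool.Agent.Y503.RB Pool.Agent.N503.ML Pool.Agent.N15.RC Pool.Agent.N15.SF

/-- The height has no critical points on the interior of `F`. -/
def NoCrit (F : Set E4) (H : ℝ) : Prop :=
  ∀ p ∈ F ∩ oslab H, ∃ (φ : ℂ → E4) (U : Set ℂ) (V : Set E4) (z : ℂ), EPatch φ U ∧ IsOpen V ∧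
    p ∈ V ∧ F ∩ V = φ '' U ∧ z ∈ U ∧ φ z = p ∧ fderiv ℝ (fun w => φ w 3) z ≠ 0

/-- the annulus in the plane -/
noncomputable def jj (p : Circle × unitInterval) : ℂ := ((1 + (p.2 : ℝ) : ℝ) : ℂ) * (p.1 : ℂ)

theorem jj_norm (p : Circle × unitInterval) : ‖jj p‖ = 1 + (p.2 : ℝ) := by
  have h := p.2.2.1
  unfold jj
  rw [norm_mul, Circle.norm_coe, mul_one, Complex.norm_real, Real.norm_eq_abs, abs_of_pos (by linarith)]

theorem jj_ne (p : Circle × unitInterval) : jj p ≠ 0 := by
  have h := p.2.2.1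
  rw [← norm_pos_iff, jj_norm]
  linarith

theorem un_jj (p : Circle × unitInterval) : un (jj p) = p.1 := by
  apply Circle.ext
  have h := p.2.2.1
  have h1 : ((1 + (p.2 : ℝ) : ℝ) : ℂ) ≠ 0 := by
    have : (1 + (p.2 : ℝ) : ℝ) ≠ 0 := by linarith
    exact_mod_cast this
  rw [un_coe (jj_ne p), jj_norm]
  unfold jj
  field_simp

theorem jj_cont : Continuous jj := by
  unfold jj
  have h1 : Continuous fun p : Circle × unitInterval => ((p.1 : Circle) : ℂ) :=
    circle_ind.continuous.comp continuous_fst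
  fun_prop

theorem jj_inj : Function.Injective jj := by
  intro p q h
  have h1 : p.1 = q.1 := by rw [← un_jj p, h, un_jj]
  have h2 : (p.2 : ℝ) = q.2 := by
    have := congrArg norm h
    rw [jj_norm, jj_norm] at this
    linarith
  exact Prod.ext h1 (Subtype.ext h2)

theorem fh_jj (g : Circle × unitInterval → ℝ) (p : Circle × unitInterval) : fh g (jj p) = g p := by
  have h := p.2.2.1
  have h' := p.2.2.2
  rw [fh_mid (by rw [jj_norm]; linarith) (by rw [jj_norm]; linarith)]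
  congr 1
  refine Prod.ext (un_jj p) (Subtype.ext ?_)
  show ‖jj p‖ - 1 = p.2
  rw [jj_norm]
  ring

theorem ann {F : Set E4} {H : ℝ} (hsub : F ⊆ slab H) (hM : MorseF F H)
    (hmax : nmaxF F H = 0) (hmin : nminF F H = 0) (e : Circle × unitInterval ≃ₜ F)
    (h0 : ∀ p, (e p : E4) 3 = 0 ↔ p.2 = 0) (h1 : ∀ p, (e p : E4) 3 = H ↔ p.2 = 1) :
    NoCrit F H := by
  classical
  have hmaxE : ∀ p ∈ F ∩ oslab H, ¬ IsLocalMaxOn (fun x : E4 => x 3) F p := by
    intro p hp hm
    have h2 : p ∈ {p | p ∈ F ∩ oslab H ∧ IsLocalMaxOn (fun x : E4 => x 3) F p} := ⟨hp, hm⟩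
    rw [encard_eq_zero.1 hmax] at h2
    exact h2
  have hminE : ∀ p ∈ F ∩ oslab H, ¬ IsLocalMinOn (fun x : E4 => x 3) F p := by
    intro p hp hm
    have h2 : p ∈ {p | p ∈ F ∩ oslab H ∧ IsLocalMinOn (fun x : E4 => x 3) F p} := ⟨hp, hm⟩
    rw [encard_eq_zero.1 hmin] at h2
    exact h2
  intro p hp
  obtain ⟨φ, U, V, z, hE, hV, hpV, hFV, hz, hzp, hnd⟩ := hM p hp
  refine ⟨φ, U, V, z, hE, hV, hpV, hFV, hz, hzp, fun hcr => ?_⟩
  obtain ⟨g, hg⟩ : ∃ g : Circle × unitInterval → ℝ, g = fun q => (e q : E4) 3 := ⟨_, rfl⟩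
  have hgc : Continuous g := by
    rw [hg]
    exact ((EuclideanSpace.proj (3 : Fin 4) : E4 →L[ℝ] ℝ).continuous.comp continuous_subtype_val).comp e.continuous
  have g0 : ∀ u, g (u, 0) = 0 := fun u => by rw [hg]; exact (h0 (u, 0)).2 rfl
  have g1 : ∀ u, g (u, 1) = H := fun u => by rw [hg]; exact (h1 (u, 1)).2 rfl
  have glt : ∀ u s, s < 1 → g (u, s) < H := fun u s hs => by
    rw [hg]
    refine lt_of_le_of_ne (hsub (e (u, s)).2).2 fun h => ?_
    have := (h1 (u, s)).1 h
    exact hs.ne this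
  have ggt : ∀ u s, 0 < s → 0 < g (u, s) := fun u s hs => by
    rw [hg]
    refine lt_of_le_of_ne (hsub (e (u, s)).2).1 fun h => ?_
    have := (h0 (u, s)).1 h.symm
    exact hs.ne' this
  -- the map `J` from `F` to the plane
  obtain ⟨J, hJ⟩ : ∃ J : E4 → ℂ, J = fun y => if h : y ∈ F then jj (e.symm ⟨y, h⟩) else 0 := ⟨_, rfl⟩
  have hJF : ∀ (y : E4) (h : y ∈ F), J y = jj (e.symm ⟨y, h⟩) := fun y h => by rw [hJ]; simp [h]
  have hJc : ContinuousOn J F := by
    rw [continuousOn_iff_continuous_domRestrict]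
    have h2 : Continuous fun y : F => jj (e.symm y) := jj_cont.comp e.symm.continuous
    convert h2 using 1
    funext y
    exact hJF y y.2
  have hJi : InjOn J F := by
    intro x hx y hy h
    rw [hJF x hx, hJF y hy] at h
    have := e.symm.injective (jj_inj h)
    exact congrArg Subtype.val this
  have hJf : ∀ y ∈ F, fh g (J y) = y 3 := by
    intro y hy
    rw [hJF y hy, fh_jj, hg]
    show (e (e.symm ⟨y, hy⟩) : E4) 3 = y 3
    rw [e.apply_symm_apply]
  -- middle points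
  have mid : ∀ x : ℂ, 1 < ‖x‖ → ‖x‖ < 2 → ∃ q ∈ F ∩ oslab H, J q = x := by
    intro x hx1 hx2
    obtain ⟨s, hs⟩ : ∃ s : unitInterval, s = ⟨‖x‖ - 1, by constructor <;> linarith⟩ := ⟨_, rfl⟩
    have hs0 : 0 < s := by rw [hs]; exact Subtype.mk_lt_mk.2 (by linarith)
    have hs1 : s < 1 := by rw [hs]; exact Subtype.mk_lt_mk.2 (by linarith)
    refine ⟨e (un x, s), ⟨(e (un x, s)).2, ?_, ?_⟩, ?_⟩
    · have := ggt (un x) s hs0
      rw [hg] at this
      exact this
    · have := glt (un x) s hs1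
      rw [hg] at this
      exact this
    · rw [hJF _ (e (un x, s)).2]
      have e1 : e.symm ⟨(e (un x, s) : E4), (e (un x, s)).2⟩ = (un x, s) := by
        rw [Subtype.coe_eta, e.symm_apply_apply]
      rw [e1]
      unfold jj
      have hx0 : x ≠ 0 := by
        rintro rfl; simp at hx1; linarith
      have h2 : ((‖x‖ : ℝ) : ℂ) ≠ 0 := by exact_mod_cast norm_ne_zero_iff.2 hx0
      rw [un_coe hx0, hs]
      push_cast
      field_simp
      ring
  have hmin' : ∀ x, IsLocalMin (fh g) x → x = 0 := by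
    intro x hx
    by_contra hx0
    by_cases hc : ‖x‖ ≤ 1 ∨ 2 ≤ ‖x‖
    · exact fh_min g0 g1 glt hx0 hc hx
    · push Not at hc
      obtain ⟨q, hq, hqx⟩ := mid x hc.1 hc.2
      refine hminE q hq ?_
      have h2 : Tendsto J (𝓝[F] q) (𝓝 x) := by
        rw [← hqx]
        exact hJc q hq.1
      show ∀ᶠ y in 𝓝[F] q, q 3 ≤ y 3
      filter_upwards [h2.eventually hx, self_mem_nhdsWithin] with y hy hyF
      rw [← hqx, hJf q hq.1, hJf y hyF] at hy
      exact hy
  have hmax' : ∀ x, ¬ IsLocalMax (fh g) x := by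
    intro x hx
    by_cases hc : ‖x‖ ≤ 1 ∨ 2 ≤ ‖x‖
    · exact fh_max g0 g1 ggt hc hx
    · push Not at hc
      obtain ⟨q, hq, hqx⟩ := mid x hc.1 hc.2
      refine hmaxE q hq ?_
      have h2 : Tendsto J (𝓝[F] q) (𝓝 x) := by
        rw [← hqx]
        exact hJc q hq.1
      show ∀ᶠ y in 𝓝[F] q, y 3 ≤ q 3
      filter_upwards [h2.eventually hx, self_mem_nhdsWithin] with y hy hyF
      rw [← hqx, hJf q hq.1, hJf y hyF] at hy
      exact hy
  -- the saddle
  have hUF : ∀ w ∈ U, φ w ∈ F := fun w hw => by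
    have : φ w ∈ F ∩ V := by rw [hFV]; exact ⟨w, hw, rfl⟩
    exact this.1
  have hinjU : InjOn φ U := fun a ha b hb hab => by
    have := hE.emb.injective (a₁ := ⟨a, ha⟩) (a₂ := ⟨b, hb⟩) hab
    exact congrArg Subtype.val this
  obtain ⟨u, w, ε, hε, hdet, hlow, hupp⟩ := saddle_dirs hE hV hFV hz hnd hcr
    (by rw [hzp]; exact hmaxE p hp) (by rw [hzp]; exact hminE p hp)
  obtain ⟨r, hr, hrU⟩ := Metric.isOpen_iff.1 hE.isOpen z hz
  obtain ⟨δ, hδ0, hδε, hδr⟩ : ∃ δ : ℝ, 0 < δ ∧ δ ≤ ε ∧ δ * (‖u‖ + ‖w‖) < r := by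
    refine ⟨min ε (r / 2 / (‖u‖ + ‖w‖ + 1)), lt_min hε (by positivity), min_le_left _ _, ?_⟩
    have h2 : min ε (r / 2 / (‖u‖ + ‖w‖ + 1)) ≤ r / 2 / (‖u‖ + ‖w‖ + 1) := min_le_right _ _
    have h3 : 0 < ‖u‖ + ‖w‖ + 1 := by positivity
    rw [le_div_iff₀ h3] at h2
    have h4 : 0 < min ε (r / 2 / (‖u‖ + ‖w‖ + 1)) := lt_min hε (by positivity)
    nlinarith [norm_nonneg u, norm_nonneg w]
  obtain ⟨L, hL⟩ : ∃ L : ℂ → ℂ, L = fun x => z + (δ * x.re) • u + (δ * x.im) • w := ⟨_, rfl⟩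
  have hLc : Continuous L := by rw [hL]; fun_prop
  have hLU : ∀ x ∈ closedBall (0 : ℂ) 1, L x ∈ U := by
    intro x hx
    rw [mem_closedBall_zero_iff] at hx
    refine hrU ?_
    rw [mem_ball, dist_eq_norm, hL]
    have e1 : z + (δ * x.re) • u + (δ * x.im) • w - z = (δ * x.re) • u + (δ * x.im) • w := by abel
    simp only [e1]
    refine lt_of_le_of_lt (norm_add_le _ _) ?_
    rw [norm_smul, norm_smul, Real.norm_eq_abs, Real.norm_eq_abs, abs_mul, abs_mul,
      abs_of_pos hδ0]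
    have a1 := (Complex.abs_re_le_norm x).trans hx
    have a2 := (Complex.abs_im_le_norm x).trans hx
    have b1 := norm_nonneg u
    have b2 := norm_nonneg w
    have c1 : δ * |x.re| * ‖u‖ ≤ δ * ‖u‖ := by
      have : δ * |x.re| ≤ δ := by nlinarith
      exact mul_le_mul_of_nonneg_right this b1
    have c2 : δ * |x.im| * ‖w‖ ≤ δ * ‖w‖ := by
      have : δ * |x.im| ≤ δ := by nlinarith
      exact mul_le_mul_of_nonneg_right this b2
    linarith
  have hLi : Function.Injective L := by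
    intro x y h
    rw [hL] at h
    have h2 : (δ * (x.re - y.re)) • u + (δ * (x.im - y.im)) • w = 0 := by
      have h3 : z + (δ * x.re) • u + (δ * x.im) • w = z + (δ * y.re) • u + (δ * y.im) • w := h
      have : (δ * (x.re - y.re)) • u + (δ * (x.im - y.im)) • w =
          (z + (δ * x.re) • u + (δ * x.im) • w) - (z + (δ * y.re) • u + (δ * y.im) • w) := by
        module
      rw [this, h3, sub_self]
    have hre := congrArg Complex.re h2
    have him := congrArg Complex.im h2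
    simp only [Complex.add_re, Complex.add_im, Complex.real_smul, Complex.mul_re, Complex.mul_im,
      Complex.ofReal_re, Complex.ofReal_im, Complex.zero_re, Complex.zero_im, zero_mul, sub_zero,
      add_zero] at hre him
    obtain ⟨a, ha⟩ : ∃ a, a = x.re - y.re := ⟨_, rfl⟩
    obtain ⟨b, hb⟩ : ∃ b, b = x.im - y.im := ⟨_, rfl⟩
    rw [← ha, ← hb] at hre him
    have k1 : a * u.re + b * w.re = 0 := by
      have : δ * (a * u.re + b * w.re) = 0 := by linarith
      exact (mul_eq_zero.1 this).resolve_left hδ0.ne'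
    have k2 : a * u.im + b * w.im = 0 := by
      have : δ * (a * u.im + b * w.im) = 0 := by linarith
      exact (mul_eq_zero.1 this).resolve_left hδ0.ne'
    have ka : a * (u.re * w.im - u.im * w.re) = 0 := by linear_combination w.im * k1 - w.re * k2
    have kb : b * (u.re * w.im - u.im * w.re) = 0 := by linear_combination u.re * k2 - u.im * k1
    have ha0 : a = 0 := (mul_eq_zero.1 ka).resolve_right hdet
    have hb0 : b = 0 := (mul_eq_zero.1 kb).resolve_right hdet
    apply Complex.ext <;> linarith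
  have hL0 : L 0 = z := by rw [hL]; simp
  have hz0 : ∀ x ∈ closedBall (0 : ℂ) 1, fh g (J (φ (L x))) = φ (L x) 3 := fun x hx =>
    hJf _ (hUF _ (hLU x hx))
  have h0b : (0 : ℂ) ∈ closedBall (0 : ℂ) 1 := by simp
  refine no_saddle (fh_cont hgc g0) (fh_tendsto g1) hmin' hmax' (ψ := fun x => J (φ (L x)))
    ?_ ?_ ?_ ?_
  · refine hJc.comp (hE.smooth.continuousOn.comp hLc.continuousOn hLU) (fun x hx => hUF _ (hLU x hx))
  · intro x hx y hy h
    exact hLi (hinjU (hLU x hx) (hLU y hy) (hJi (hUF _ (hLU x hx)) (hUF _ (hLU y hy)) h))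
  · intro t ht ht2
    have hmem : (t : ℂ) ∈ closedBall (0 : ℂ) 1 := by
      rw [mem_closedBall_zero_iff, Complex.norm_real, Real.norm_eq_abs]; exact ht2
    show fh g (J (φ (L t))) < fh g (J (φ (L 0)))
    rw [hz0 _ hmem, hz0 _ h0b, hL0]
    have e1 : L t = z + (δ * t) • u := by rw [hL]; simp
    rw [e1]
    have habs : |δ * t| = δ * |t| := by rw [abs_mul, abs_of_pos hδ0]
    refine hlow _ (by rw [habs]; positivity) ?_
    rw [habs]
    nlinarith
  · intro t ht ht2
    have hmem : (t : ℂ) * Complex.I ∈ closedBall (0 : ℂ) 1 := by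
      rw [mem_closedBall_zero_iff, norm_mul, Complex.norm_I, mul_one, Complex.norm_real,
        Real.norm_eq_abs]
      exact ht2
    show fh g (J (φ (L 0))) < fh g (J (φ (L (t * Complex.I))))
    rw [hz0 _ hmem, hz0 _ h0b, hL0]
    have e1 : L (t * Complex.I) = z + (δ * t) • w := by rw [hL]; simp
    rw [e1]
    have habs : |δ * t| = δ * |t| := by rw [abs_mul, abs_of_pos hδ0]
    refine hupp _ (by rw [habs]; positivity) ?_
    rw [habs]
    nlinarith

end Pool.Agent.Run7.h233.MC
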