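import Pool.Agent.Run7.h233.MC.Ann2

/-!
On a disc in a slab, a Morse height with one local maximum and without local minima in the interior
has no other critical points.
-/

set_option autoImplicit false

namespace Pool.Agent.Run7.h233.MC

open scoped ContDiff RealInnerProductSpace Topology
open Set Metric Filter
open Pool.Agent.Y503.RB Pool.Agent.N503.ML Pool.Agent.N15.RC Pool.Agent.N15.SF

/-- the closed unit disc -/
abbrev Dsc : Type := closedBall (0 : ℂ) 1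

/-- the retraction of the plane onto the disc -/
noncomputable def rt (x : ℂ) : Dsc := ⟨((max ‖x‖ 1)⁻¹ : ℝ) • x, by
  have h1 : (0 : ℝ) < max ‖x‖ 1 := lt_max_of_lt_right one_pos
  rw [mem_closedBall_zero_iff, norm_smul, norm_inv, Real.norm_eq_abs, abs_of_pos h1,
    inv_mul_le_iff₀ h1, mul_one]
  exact le_max_left _ _⟩

theorem rt_cont : Continuous rt := by
  have h0 : Continuous fun x : ℂ => max ‖x‖ (1 : ℝ) := by fun_prop
  have h : Continuous fun x : ℂ => ((max ‖x‖ 1)⁻¹ : ℝ) • x :=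
    Continuous.smul (h0.inv₀ fun x => (lt_max_of_lt_right one_pos : (0 : ℝ) < max ‖x‖ 1).ne')
      continuous_id
  exact h.subtype_mk _

theorem rt_in {x : ℂ} (h : ‖x‖ ≤ 1) : rt x = ⟨x, by rwa [mem_closedBall_zero_iff]⟩ := by
  apply Subtype.ext
  show ((max ‖x‖ 1)⁻¹ : ℝ) • x = x
  rw [max_eq_right h, inv_one, one_smul]

theorem rt_out {x : ℂ} (h : 1 ≤ ‖x‖) : ‖((rt x : Dsc) : ℂ)‖ = 1 := by
  show ‖((max ‖x‖ 1)⁻¹ : ℝ) • x‖ = 1
  rw [max_eq_left h, norm_smul, norm_inv, norm_norm]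
  exact inv_mul_cancel₀ (by linarith)

/-- the extension of a function on the disc to the plane, with the opposite sign -/
noncomputable def dh (g : Dsc → ℝ) (x : ℂ) : ℝ := max (‖x‖ - 1) 0 - g (rt x)

section

variable {g : Dsc → ℝ}

theorem dh_in {x : ℂ} (h : ‖x‖ ≤ 1) : dh g x = - g ⟨x, by rwa [mem_closedBall_zero_iff]⟩ := by
  unfold dh
  rw [rt_in h, max_eq_right (by linarith), zero_sub]

theorem dh_out (h0 : ∀ p : Dsc, ‖(p : ℂ)‖ = 1 → g p = 0) {x : ℂ} (h : 1 ≤ ‖x‖) :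
    dh g x = ‖x‖ - 1 := by
  unfold dh
  rw [h0 _ (rt_out h), max_eq_left (by linarith), sub_zero]

theorem dh_cont (hg : Continuous g) : Continuous (dh g) := by
  unfold dh
  exact Continuous.sub (by fun_prop) (hg.comp rt_cont)

theorem dh_tendsto (h0 : ∀ p : Dsc, ‖(p : ℂ)‖ = 1 → g p = 0) :
    Tendsto (dh g) (cocompact ℂ) atTop := by
  have h2 : Tendsto (fun x : ℂ => ‖x‖ - 1) (cocompact ℂ) atTop :=
    tendsto_atTop_add_const_right _ _ (tendsto_norm_cocompact_atTop (E := ℂ))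
  refine h2.congr' ?_
  have h3 : ∀ᶠ x in cocompact ℂ, 1 ≤ ‖x‖ :=
    (tendsto_norm_cocompact_atTop (E := ℂ)).eventually_ge_atTop 1
  filter_upwards [h3] with x hx
  exact (dh_out h0 hx).symm

theorem dh_min (h0 : ∀ p : Dsc, ‖(p : ℂ)‖ = 1 → g p = 0) (hpos : ∀ p : Dsc, ‖(p : ℂ)‖ ≠ 1 → 0 < g p)
    {x : ℂ} (hx : 1 ≤ ‖x‖) : ¬ IsLocalMin (dh g) x := by
  apply not_min_of
  have hp : ∀ᶠ t : ℝ in 𝓝[<] (1 : ℝ), (3 / 4 : ℝ) < t :=
    nhdsWithin_le_nhds (lt_mem_nhds (by norm_num))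
  rcases eq_or_lt_of_le hx with h2 | h2
  · filter_upwards [self_mem_nhdsWithin, hp] with t ht ht2
    have ht' : t < 1 := ht
    have e : ‖(t : ℂ) * x‖ = t * ‖x‖ := nrm t (by linarith) x
    have a1 : ‖(t : ℂ) * x‖ < 1 := by rw [e, ← h2]; linarith
    rw [dh_out h0 hx, dh_in a1.le, ← h2, sub_self]
    have := hpos ⟨(t : ℂ) * x, by rw [mem_closedBall_zero_iff]; exact a1.le⟩ a1.ne
    linarith
  · have h3 : ∀ᶠ t : ℝ in 𝓝[<] (1 : ℝ), 1 < t * ‖x‖ := by
      have h4 : Tendsto (fun t : ℝ => t * ‖x‖) (𝓝 (1 : ℝ)) (𝓝 (1 * ‖x‖)) :=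
        (by fun_prop : Continuous fun t : ℝ => t * ‖x‖).tendsto 1
      rw [one_mul] at h4
      exact nhdsWithin_le_nhds (h4.eventually (lt_mem_nhds h2))
    filter_upwards [self_mem_nhdsWithin, hp, h3] with t ht ht2 ht3
    have ht' : t < 1 := ht
    have e : ‖(t : ℂ) * x‖ = t * ‖x‖ := nrm t (by linarith) x
    rw [dh_out h0 hx, dh_out h0 (by rw [e]; exact ht3.le), e]
    nlinarith

theorem dh_max (h0 : ∀ p : Dsc, ‖(p : ℂ)‖ = 1 → g p = 0) {x : ℂ} (hx : 1 ≤ ‖x‖) :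
    ¬ IsLocalMax (dh g) x := by
  apply not_max_of
  filter_upwards [self_mem_nhdsWithin] with t ht
  have ht' : 1 < t := ht
  have e : ‖(t : ℂ) * x‖ = t * ‖x‖ := nrm t (by linarith) x
  rw [dh_out h0 hx, dh_out h0 (by rw [e]; nlinarith), e]
  nlinarith

end

/-- the point of greatest height is the only critical point -/
structure OneMax (F : Set E4) (H : ℝ) (p₀ : E4) : Prop where
  mem : p₀ ∈ F ∩ oslab H
  max : ∀ x ∈ F, x 3 ≤ p₀ 3
  reg : ∀ p ∈ F ∩ oslab H, p ≠ p₀ → ∃ (φ : ℂ → E4) (U : Set ℂ) (V : Set E4) (z : ℂ), EPatch φ U ∧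
    IsOpen V ∧ p ∈ V ∧ F ∩ V = φ '' U ∧ z ∈ U ∧ φ z = p ∧ fderiv ℝ (fun w => φ w 3) z ≠ 0

theorem disc_one {F : Set E4} {H : ℝ} (hcpt : IsCompact F) (hsub : F ⊆ slab H)
    (hlt : ∀ x ∈ F, x 3 < H) (hM : MorseF F H)
    (hmax : nmaxF F H ≤ 1) (hmin : nminF F H = 0) (e : Dsc ≃ₜ F)
    (h0 : ∀ p, (e p : E4) 3 = 0 ↔ ‖(p : ℂ)‖ = 1) :
    ∃ p₀, OneMax F H p₀ := by
  classical
  have hminE : ∀ p ∈ F ∩ oslab H, ¬ IsLocalMinOn (fun x : E4 => x 3) F p := by
    intro p hp hm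
    have h2 : p ∈ {p | p ∈ F ∩ oslab H ∧ IsLocalMinOn (fun x : E4 => x 3) F p} := ⟨hp, hm⟩
    rw [encard_eq_zero.1 hmin] at h2
    exact h2
  have hc3 : Continuous fun x : E4 => x 3 :=
    (EuclideanSpace.proj (3 : Fin 4) : E4 →L[ℝ] ℝ).continuous
  obtain ⟨g, hg⟩ : ∃ g : Dsc → ℝ, g = fun q => (e q : E4) 3 := ⟨_, rfl⟩
  have hgc : Continuous g := by
    rw [hg]
    exact (hc3.comp continuous_subtype_val).comp e.continuous
  have g0 : ∀ p : Dsc, ‖(p : ℂ)‖ = 1 → g p = 0 := fun p hp => by rw [hg]; exact (h0 p).2 hp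
  have gpos : ∀ p : Dsc, ‖(p : ℂ)‖ ≠ 1 → 0 < g p := fun p hp => by
    rw [hg]
    refine lt_of_le_of_ne (hsub (e p).2).1 fun h => hp ((h0 p).1 h.symm)
  -- the highest point
  have ho : (0 : ℂ) ∈ closedBall (0 : ℂ) 1 := by simp
  have hpo : 0 < (e ⟨0, ho⟩ : E4) 3 := by
    have := gpos ⟨0, ho⟩ (by simp)
    rw [hg] at this
    exact this
  obtain ⟨p₀, hp₀F, hp₀m⟩ := hcpt.exists_isMaxOn ⟨_, (e ⟨0, ho⟩).2⟩ hc3.continuousOn
  have hp₀max : ∀ x ∈ F, x 3 ≤ p₀ 3 := fun x hx => hp₀m hx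
  have hp₀ : p₀ ∈ F ∩ oslab H :=
    ⟨hp₀F, hpo.trans_le (hp₀max _ (e ⟨0, ho⟩).2), hlt p₀ hp₀F⟩
  have hp₀loc : IsLocalMaxOn (fun x : E4 => x 3) F p₀ := by
    show ∀ᶠ y in 𝓝[F] p₀, y 3 ≤ p₀ 3
    filter_upwards [self_mem_nhdsWithin] with y hy
    exact hp₀max y hy
  have huni : ∀ p ∈ F ∩ oslab H, IsLocalMaxOn (fun x : E4 => x 3) F p → p = p₀ := by
    intro p hp hm
    exact encard_le_one_iff.1 hmax p p₀ ⟨hp, hm⟩ ⟨hp₀, hp₀loc⟩
  refine ⟨p₀, hp₀, hp₀max, ?_⟩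
  intro p hp hpne
  have hmaxE : ¬ IsLocalMaxOn (fun x : E4 => x 3) F p := fun hm => hpne (huni p hp hm)
  obtain ⟨φ, U, V, z, hE, hV, hpV, hFV, hz, hzp, hnd⟩ := hM p hp
  refine ⟨φ, U, V, z, hE, hV, hpV, hFV, hz, hzp, fun hcr => ?_⟩
  -- the map `J` from `F` to the plane
  obtain ⟨J, hJ⟩ : ∃ J : E4 → ℂ, J = fun y => if h : y ∈ F then ((e.symm ⟨y, h⟩ : Dsc) : ℂ) else 0 :=
    ⟨_, rfl⟩
  have hJF : ∀ (y : E4) (h : y ∈ F), J y = ((e.symm ⟨y, h⟩ : Dsc) : ℂ) := fun y h => by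
    rw [hJ]; simp [h]
  have hJc : ContinuousOn J F := by
    rw [continuousOn_iff_continuous_domRestrict]
    have h2 : Continuous fun y : F => ((e.symm y : Dsc) : ℂ) :=
      continuous_subtype_val.comp e.symm.continuous
    convert h2 using 1
    funext y
    exact hJF y y.2
  have hJi : InjOn J F := by
    intro x hx y hy h
    rw [hJF x hx, hJF y hy] at h
    have := e.symm.injective (Subtype.ext h)
    exact congrArg Subtype.val this
  have hJf : ∀ y ∈ F, dh g (J y) = - y 3 := by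
    intro y hy
    have h1 : ‖J y‖ ≤ 1 := by
      rw [hJF y hy, ← mem_closedBall_zero_iff]
      exact (e.symm ⟨y, hy⟩).2
    rw [dh_in h1, neg_inj, hg]
    have h2 : (⟨J y, by rwa [mem_closedBall_zero_iff]⟩ : Dsc) = e.symm ⟨y, hy⟩ :=
      Subtype.ext (hJF y hy)
    show (e ⟨J y, _⟩ : E4) 3 = y 3
    rw [h2, e.apply_symm_apply]
  -- inner points
  have mid : ∀ x : ℂ, ‖x‖ < 1 → ∃ q ∈ F ∩ oslab H, J q = x := by
    intro x hx
    have hxm : x ∈ closedBall (0 : ℂ) 1 := by rw [mem_closedBall_zero_iff]; exact hx.le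
    have h1 := gpos ⟨x, hxm⟩ hx.ne
    rw [hg] at h1
    refine ⟨e ⟨x, hxm⟩, ⟨(e ⟨x, hxm⟩).2, h1, hlt _ (e ⟨x, hxm⟩).2⟩, ?_⟩
    rw [hJF _ (e ⟨x, hxm⟩).2, Subtype.coe_eta, e.symm_apply_apply]
  have hmin' : ∀ x, IsLocalMin (dh g) x → x = J p₀ := by
    intro x hx
    rcases le_or_gt 1 ‖x‖ with hc | hc
    · exact absurd hx (dh_min g0 gpos hc)
    · obtain ⟨q, hq, hqx⟩ := mid x hc
      have h3 : q = p₀ := by
        refine huni q hq ?_
        have h2 : Tendsto J (𝓝[F] q) (𝓝 x) := by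
          rw [← hqx]
          exact hJc q hq.1
        show ∀ᶠ y in 𝓝[F] q, y 3 ≤ q 3
        filter_upwards [h2.eventually hx, self_mem_nhdsWithin] with y hy hyF
        rw [← hqx, hJf q hq.1, hJf y hyF] at hy
        linarith
      rw [← hqx, h3]
  have hmax' : ∀ x, ¬ IsLocalMax (dh g) x := by
    intro x hx
    rcases le_or_gt 1 ‖x‖ with hc | hc
    · exact dh_max g0 hc hx
    · obtain ⟨q, hq, hqx⟩ := mid x hc
      refine hminE q hq ?_
      have h2 : Tendsto J (𝓝[F] q) (𝓝 x) := by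
        rw [← hqx]
        exact hJc q hq.1
      show ∀ᶠ y in 𝓝[F] q, q 3 ≤ y 3
      filter_upwards [h2.eventually hx, self_mem_nhdsWithin] with y hy hyF
      rw [← hqx, hJf q hq.1, hJf y hyF] at hy
      linarith
  -- the saddle
  have hUF : ∀ w ∈ U, φ w ∈ F := fun w hw => by
    have : φ w ∈ F ∩ V := by rw [hFV]; exact ⟨w, hw, rfl⟩
    exact this.1
  have hinjU : InjOn φ U := fun a ha b hb hab => by
    have := hE.emb.injective (a₁ := ⟨a, ha⟩) (a₂ := ⟨b, hb⟩) hab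
    exact congrArg Subtype.val this
  obtain ⟨w, u, ε, hε, hdet', hupp, hlow⟩ := saddle_dirs hE hV hFV hz hnd hcr
    (by rw [hzp]; exact hmaxE) (by rw [hzp]; exact hminE p hp)
  have hdet : u.re * w.im - u.im * w.re ≠ 0 := fun h => hdet' (by linarith)
  obtain ⟨r, hr, hrU⟩ := Metric.isOpen_iff.1 hE.isOpen z hz
  obtain ⟨δ, hδ0, hδε, hδr⟩ : ∃ δ : ℝ, 0 < δ ∧ δ ≤ ε ∧ δ * (‖u‖ + ‖w‖) < r := by
    refine ⟨min ε (r / 2 / (‖u‖ + ‖w‖ + 1)), lt_min hε (by positivity), min_le_left _ _, ?_⟩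
    have h2 : min ε (r / 2 / (‖u‖ + ‖w‖ + 1)) ≤ r / 2 / (‖u‖ + ‖w‖ + 1) := min_le_right _ _
    have h3 : 0 < ‖u‖ + ‖w‖ + 1 := by positivity
    rw [le_div_iff₀ h3] at h2
    have h4 : 0 < min ε (r / 2 / (‖u‖ + ‖w‖ + 1)) := lt_min hε (by positivity)
    nlinarith [norm_nonneg u, norm_nonneg w]
  obtain ⟨L, hL⟩ : ∃ L : ℂ → ℂ, L = fun x => z + (δ * x.re) • u + (δ * x.im) • w := ⟨_, rfl⟩
  have hLc : Continuous L := by rw [hL]; fun_prop
  have hLU : ∀ x ∈ closedBall (0 : ℂ) 1, L x ∈ U := by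
    intro x hx
    rw [mem_closedBall_zero_iff] at hx
    refine hrU ?_
    rw [mem_ball, dist_eq_norm, hL]
    have e1 : z + (δ * x.re) • u + (δ * x.im) • w - z = (δ * x.re) • u + (δ * x.im) • w := by abel
    simp only [e1]
    refine lt_of_le_of_lt (norm_add_le _ _) ?_
    rw [norm_smul, norm_smul, Real.norm_eq_abs, Real.norm_eq_abs, abs_mul, abs_mul,
      abs_of_pos hδ0]
    have a1 := (Complex.abs_re_le_norm x).trans hx
    have a2 := (Complex.abs_im_le_norm x).trans hx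
    have b1 := norm_nonneg u
    have b2 := norm_nonneg w
    have c1 : δ * |x.re| * ‖u‖ ≤ δ * ‖u‖ := by
      have : δ * |x.re| ≤ δ := by nlinarith
      exact mul_le_mul_of_nonneg_right this b1
    have c2 : δ * |x.im| * ‖w‖ ≤ δ * ‖w‖ := by
      have : δ * |x.im| ≤ δ := by nlinarith
      exact mul_le_mul_of_nonneg_right this b2
    linarith
  have hLi : Function.Injective L := by
    intro x y h
    rw [hL] at h
    have h2 : (δ * (x.re - y.re)) • u + (δ * (x.im - y.im)) • w = 0 := by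
      have h3 : z + (δ * x.re) • u + (δ * x.im) • w = z + (δ * y.re) • u + (δ * y.im) • w := h
      have : (δ * (x.re - y.re)) • u + (δ * (x.im - y.im)) • w =
          (z + (δ * x.re) • u + (δ * x.im) • w) - (z + (δ * y.re) • u + (δ * y.im) • w) := by
        module
      rw [this, h3, sub_self]
    have hre := congrArg Complex.re h2
    have him := congrArg Complex.im h2
    simp only [Complex.add_re, Complex.add_im, Complex.real_smul, Complex.mul_re, Complex.mul_im,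
      Complex.ofReal_re, Complex.ofReal_im, Complex.zero_re, Complex.zero_im, zero_mul, sub_zero,
      add_zero] at hre him
    obtain ⟨a, ha⟩ : ∃ a, a = x.re - y.re := ⟨_, rfl⟩
    obtain ⟨b, hb⟩ : ∃ b, b = x.im - y.im := ⟨_, rfl⟩
    rw [← ha, ← hb] at hre him
    have k1 : a * u.re + b * w.re = 0 := by
      have : δ * (a * u.re + b * w.re) = 0 := by linarith
      exact (mul_eq_zero.1 this).resolve_left hδ0.ne'
    have k2 : a * u.im + b * w.im = 0 := by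
      have : δ * (a * u.im + b * w.im) = 0 := by linarith
      exact (mul_eq_zero.1 this).resolve_left hδ0.ne'
    have ka : a * (u.re * w.im - u.im * w.re) = 0 := by linear_combination w.im * k1 - w.re * k2
    have kb : b * (u.re * w.im - u.im * w.re) = 0 := by linear_combination u.re * k2 - u.im * k1
    have ha0 : a = 0 := (mul_eq_zero.1 ka).resolve_right hdet
    have hb0 : b = 0 := (mul_eq_zero.1 kb).resolve_right hdet
    apply Complex.ext <;> linarith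
  have hL0 : L 0 = z := by rw [hL]; simp
  have hz0 : ∀ x ∈ closedBall (0 : ℂ) 1, dh g (J (φ (L x))) = - φ (L x) 3 := fun x hx =>
    hJf _ (hUF _ (hLU x hx))
  have h0b : (0 : ℂ) ∈ closedBall (0 : ℂ) 1 := by simp
  refine no_saddle (dh_cont hgc) (dh_tendsto g0) hmin' hmax' (ψ := fun x => J (φ (L x)))
    ?_ ?_ ?_ ?_
  · refine hJc.comp (hE.smooth.continuousOn.comp hLc.continuousOn hLU) (fun x hx => hUF _ (hLU x hx))
  · intro x hx y hy h
    exact hLi (hinjU (hLU x hx) (hLU y hy) (hJi (hUF _ (hLU x hx)) (hUF _ (hLU y hy)) h))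
  · intro t ht ht2
    have hmem : (t : ℂ) ∈ closedBall (0 : ℂ) 1 := by
      rw [mem_closedBall_zero_iff, Complex.norm_real, Real.norm_eq_abs]; exact ht2
    show dh g (J (φ (L t))) < dh g (J (φ (L 0)))
    rw [hz0 _ hmem, hz0 _ h0b, hL0, neg_lt_neg_iff]
    have e1 : L t = z + (δ * t) • u := by rw [hL]; simp
    rw [e1]
    have habs : |δ * t| = δ * |t| := by rw [abs_mul, abs_of_pos hδ0]
    refine hlow _ (by rw [habs]; positivity) ?_
    rw [habs]
    nlinarith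
  · intro t ht ht2
    have hmem : (t : ℂ) * Complex.I ∈ closedBall (0 : ℂ) 1 := by
      rw [mem_closedBall_zero_iff, norm_mul, Complex.norm_I, mul_one, Complex.norm_real,
        Real.norm_eq_abs]
      exact ht2
    show dh g (J (φ (L 0))) < dh g (J (φ (L (t * Complex.I))))
    rw [hz0 _ hmem, hz0 _ h0b, hL0, neg_lt_neg_iff]
    have e1 : L (t * Complex.I) = z + (δ * t) • w := by rw [hL]; simp
    rw [e1]
    have habs : |δ * t| = δ * |t| := by rw [abs_mul, abs_of_pos hδ0]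
    refine hupp _ (by rw [habs]; positivity) ?_
    rw [habs]
    nlinarith

end Pool.Agent.Run7.h233.MC
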