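import Pool.Agent.Run7.h233.MC.Ann2
import Pool.Agent.N15.SF.All

/-!
Knots in three-space, isotopies and concordances.
-/

set_option autoImplicit false

namespace Pool.Agent.Run7.h233.MC

open scoped ContDiff RealInnerProductSpace Topology
open Set Metric Filter
open Pool.Agent.Y503.RB Pool.Agent.N503.ML Pool.Agent.N15.SF

/-- Euclidean three-space -/
abbrev E3 : Type := EuclideanSpace ℝ (Fin 3)

/-- The inclusion of three-space as the hyperplane `x₃ = 0` of four-space, as a map. -/
def inc0 (x : E3) : E4 := WithLp.toLp 2 ![x 0, x 1, x 2, 0]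

theorem inc0_add (x y : E3) : inc0 (x + y) = inc0 x + inc0 y := by
  unfold inc0; ext i; fin_cases i <;> simp

theorem inc0_smul (a : ℝ) (x : E3) : inc0 (a • x) = a • inc0 x := by
  unfold inc0; ext i; fin_cases i <;> simp

/-- The inclusion of three-space as the hyperplane `x₃ = 0` of four-space, as a linear map. -/
noncomputable def inc : E3 →L[ℝ] E4 :=
  LinearMap.toContinuousLinearMap (IsLinearMap.mk' inc0 ⟨inc0_add, inc0_smul⟩)

/-- The projection of four-space to the first three coordinates. -/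
noncomputable def prj : E4 →L[ℝ] E3 := LinearMap.toContinuousLinearMap
  { toFun := fun x => WithLp.toLp 2 ![x 0, x 1, x 2]
    map_add' := fun x y => by ext i; fin_cases i <;> simp
    map_smul' := fun a x => by ext i; fin_cases i <;> simp }

theorem inc_apply (x : E3) : inc x = WithLp.toLp 2 ![x 0, x 1, x 2, 0] := rfl

theorem prj_apply (x : E4) : prj x = WithLp.toLp 2 ![x 0, x 1, x 2] := rfl

theorem inc_three (x : E3) : (inc x) 3 = 0 := by
  rw [inc_apply]; rfl

theorem prj_inc (x : E3) : prj (inc x) = x := by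
  rw [inc_apply, prj_apply]
  ext i; fin_cases i <;> rfl

theorem inc_prj (x : E4) : inc (prj x) + (x 3) • vert = x := by
  rw [inc_apply, prj_apply]
  ext i
  fin_cases i <;> simp [vert]

theorem prj_vert : prj vert = 0 := by
  rw [prj_apply]
  ext i
  fin_cases i <;> simp [vert]

theorem inc_inj : Function.Injective inc := fun x y h => by
  rw [← prj_inc x, h, prj_inc]

/-- A smooth oriented knot: a smooth regular closed curve in three-space without double points,
parametrised by the circle. -/
structure Knot where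
  /-- the curve -/
  c : Circle → E3
  smooth : ContDiff ℝ ∞ fun t : ℝ => c (Circle.exp t)
  reg : ∀ t : ℝ, deriv (fun t : ℝ => c (Circle.exp t)) t ≠ 0
  inj : Function.Injective c

/-- Two maps from the circle to three-space agree up to a reparametrisation of degree one. -/
def SameCurve (f g : Circle → E3) : Prop :=
  ∃ σ : C(Circle, Circle), σ.Homotopic (ContinuousMap.id Circle) ∧ ∀ u, f u = g (σ u)

/-- Isotopy of knots: a smooth family of smooth knots. -/
def Isotopic (K L : Knot) : Prop :=
  ∃ k : ℝ → Circle → E3, ContDiff ℝ ∞ (fun q : ℝ × ℝ => k q.1 (Circle.exp q.2)) ∧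
    (∀ t ∈ Icc (0 : ℝ) 1, Function.Injective (k t) ∧
      ∀ s : ℝ, deriv (fun s : ℝ => k t (Circle.exp s)) s ≠ 0) ∧
    k 0 = K.c ∧ SameCurve (k 1) L.c

/-- Ambient isotopy: a smooth family of diffeomorphisms of three-space, which begins with the
identity, whose last member takes one knot to the other one. -/
def AmbientIsotopic (K L : Knot) : Prop :=
  ∃ A : ℝ → E3 → E3, ContDiff ℝ ∞ (fun q : ℝ × E3 => A q.1 q.2) ∧ (∀ x, A 0 x = x) ∧
    (∀ t, ∃ B : E3 → E3, ContDiff ℝ ∞ B ∧ (∀ x, B (A t x) = x) ∧ ∀ x, A t (B x) = x) ∧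
    SameCurve (fun u => A 1 (K.c u)) L.c

/-- `F` is an annulus (homeomorphic to `S¹ × [0, 1]`) which joins the oriented curve `a`, its only
points of height `0`, to the oriented curve `b`, its only points of height `H`. -/
abbrev AnnPar (a b : Circle → E4) (F : Set E4) (H : ℝ) : Prop :=
  ∃ e : Circle × unitInterval ≃ₜ F,
    (∀ u, (e (u, 0) : E4) = a u) ∧
    (∃ σ : C(Circle, Circle), σ.Homotopic (ContinuousMap.id Circle) ∧
      ∀ u, (e (u, 1) : E4) = b (σ u)) ∧
    (∀ p, (e p : E4) 3 = 0 → p.2 = 0) ∧ (∀ p, (e p : E4) 3 = H → p.2 = 1)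

/-- `F` is a concordance from the knot `K` to the knot `L` in the slab `0 ≤ x₃ ≤ H`: a compact smooth
surface in the slab with boundary in the two hyperplanes `x₃ = 0` and `x₃ = H`, vertical near the
boundary (`Cob`), which is an annulus joining the oriented knot `K` in `x₃ = 0` to the oriented knot
`L` in `x₃ = H`. -/
structure IsConc (K L : Knot) (F : Set E4) (H : ℝ) : Prop where
  cob : Cob F H
  par : AnnPar (fun u => inc0 (K.c u)) (fun u => inc0 (L.c u) + H • vert) F H

theorem inc0_eq (x : E3) : inc0 x = inc x := rfl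

theorem IsConc.param {K L : Knot} {F : Set E4} {H : ℝ} (h : IsConc K L F H) :
    ∃ e : Circle × unitInterval ≃ₜ F,
    (∀ u, (e (u, 0) : E4) = inc (K.c u)) ∧
    (∃ σ : C(Circle, Circle), σ.Homotopic (ContinuousMap.id Circle) ∧
      ∀ u, (e (u, 1) : E4) = inc (L.c (σ u)) + H • vert) ∧
    (∀ p, (e p : E4) 3 = 0 → p.2 = 0) ∧ (∀ p, (e p : E4) 3 = H → p.2 = 1) := h.par

theorem IsConc.of {K L : Knot} {F : Set E4} {H : ℝ} (hc : Cob F H) (h :
    ∃ e : Circle × unitInterval ≃ₜ F,
    (∀ u, (e (u, 0) : E4) = inc (K.c u)) ∧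
    (∃ σ : C(Circle, Circle), σ.Homotopic (ContinuousMap.id Circle) ∧
      ∀ u, (e (u, 1) : E4) = inc (L.c (σ u)) + H • vert) ∧
    (∀ p, (e p : E4) 3 = 0 → p.2 = 0) ∧ (∀ p, (e p : E4) 3 = H → p.2 = 1)) : IsConc K L F H :=
  ⟨hc, h⟩

theorem circle_surj : Function.Surjective Circle.exp := fun u =>
  ⟨Complex.arg (u : ℂ), Circle.exp_arg u⟩

theorem circle_open : IsOpenMap Circle.exp := isLocalHomeomorph_circleExp.isOpenMap

/-- continuity of a function on a product with the circle -/
theorem cont_of_exp {X Y : Type*} [TopologicalSpace X] [TopologicalSpace Y] {f : X × Circle → Y}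
    (h : Continuous fun q : X × ℝ => f (q.1, Circle.exp q.2)) : Continuous f := by
  have hq : IsOpenMap (Prod.map id Circle.exp : X × ℝ → X × Circle) :=
    IsOpenMap.id.prodMap circle_open
  have hs : Function.Surjective (Prod.map id Circle.exp : X × ℝ → X × Circle) :=
    Function.surjective_id.prodMap circle_surj
  have hc : Continuous (Prod.map id Circle.exp : X × ℝ → X × Circle) :=
    continuous_id.prodMap Circle.exp.continuous
  exact (hq.isQuotientMap hc hs).continuous_iff.2 h

theorem cont_of_exp' {Y : Type*} [TopologicalSpace Y] {f : Circle → Y}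
    (h : Continuous fun q : ℝ => f (Circle.exp q)) : Continuous f :=
  (circle_open.isQuotientMap Circle.exp.continuous circle_surj).continuous_iff.2 h

theorem Knot.cont (K : Knot) : Continuous K.c := cont_of_exp' K.smooth.continuous

/-- concordances are closed under changes of the surface within its type -/
theorem conc_cls (K L : Knot) : CCls (IsConc K L) := by
  refine ⟨fun F H h => h.cob, fun F H F' H' h hc hs => IsConc.of hc ?_⟩
  obtain ⟨e, e0, ⟨σ, hσ, e1⟩, e2, e3⟩ := h.param
  obtain ⟨Φ, D, hD, hFD, hsm, hinj, -, rfl, h0, h1, h2⟩ := hs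
  have hcts : ContinuousOn Φ F := hsm.continuousOn.mono hFD
  have hcs : CompactSpace F := isCompact_iff_compactSpace.1 h.cob.compact
  let f : F ≃ (Φ '' F) := Equiv.Set.imageOfInjOn Φ F (hinj.mono hFD)
  have hf : Continuous f := by
    refine Continuous.subtype_mk ?_ _
    exact continuousOn_iff_continuous_domRestrict.1 hcts
  let f' : F ≃ₜ (Φ '' F) := hf.homeoOfEquivCompactToT2
  have hf' : ∀ x : F, (f' x : E4) = Φ x := fun x => rfl
  refine ⟨e.trans f', fun u => ?_, ⟨σ, hσ, fun u => ?_⟩, fun p hp => ?_, fun p hp => ?_⟩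
  · show (f' (e (u, 0)) : E4) = _
    rw [hf', h0 _ (e (u, 0)).2 (by rw [e0, inc_three]), e0]
  · show (f' (e (u, 1)) : E4) = _
    have e4 : (e (u, 1) : E4) 3 = H := by
      rw [e1, NEAR.add_vert_three, inc_three, zero_add]
    rw [hf', h1 _ (e (u, 1)).2 e4, e1, add_assoc, ← add_smul, add_sub_cancel]
  · have hp' : (f' (e p) : E4) 3 = 0 := hp
    rw [hf'] at hp'
    exact e2 p (((h2 _ (e p).2).1).1 hp')
  · have hp' : (f' (e p) : E4) 3 = H' := hp
    rw [hf'] at hp'
    exact e3 p (((h2 _ (e p).2).2).1 hp')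

/-- the ends of the annulus -/
theorem IsConc.ends {K L : Knot} {F : Set E4} {H : ℝ} (h : IsConc K L F H) :
    ∃ e : Circle × unitInterval ≃ₜ F,
    (∀ p, (e p : E4) 3 = 0 ↔ p.2 = 0) ∧ (∀ p, (e p : E4) 3 = H ↔ p.2 = 1) := by
  obtain ⟨e, e0, ⟨σ, hσ, e1⟩, e2, e3⟩ := h.param
  refine ⟨e, fun p => ⟨e2 p, fun hp => ?_⟩, fun p => ⟨e3 p, fun hp => ?_⟩⟩
  · have : p = (p.1, 0) := Prod.ext rfl hp
    rw [this, e0, inc_three]
  · have : p = (p.1, 1) := Prod.ext rfl hp
    rw [this, e1, NEAR.add_vert_three, inc_three, zero_add]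

end Pool.Agent.Run7.h233.MC
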