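import Pool.Agent.Run7.h233.MC.Inv
import Pool.Agent.Run7.h233.MC.Knot

/-!
A concordance without critical points of the height gives an ambient isotopy.
-/

set_option autoImplicit false

namespace Pool.Agent.Run7.h233.MC

open scoped ContDiff RealInnerProductSpace Topology
open Set Metric Filter
open Pool.Agent.Y503.RB Pool.Agent.N503.ML Pool.Agent.N15.SF

theorem height_flow {X : E4 → E4} {g : ℝ → E4 → E4} (hX3 : ∀ x, X x 3 = 1) (h0 : ∀ x, g 0 x = x)
    (hd : ∀ x t, HasDerivAt (fun t => g t x) (X (g t x)) t) (x : E4) (t : ℝ) :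
    (g t x) 3 = x 3 + t := by
  have h1 : ∀ s, HasDerivAt (fun s => (g s x) 3 - s) 0 s := fun s => by
    have h2 := (EuclideanSpace.proj (3 : Fin 4) : E4 →L[ℝ] ℝ).hasFDerivAt.comp_hasDerivAt s (hd x s)
    have h3 : HasDerivAt (fun s => (g s x) 3) 1 s := by
      have e : (EuclideanSpace.proj (3 : Fin 4) : E4 →L[ℝ] ℝ) (X (g s x)) = 1 := hX3 _
      rw [e] at h2
      exact h2
    have h4 := h3.sub (hasDerivAt_id s)
    rwa [sub_self] at h4
  have h5 := is_const_of_deriv_eq_zero (fun s => (h1 s).differentiableAt) (fun s => (h1 s).deriv) t 0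
  simp only [h0, sub_zero] at h5
  linarith

theorem amb_of_conc {K L : Knot} {F : Set E4} {H : ℝ} (hC : IsConc K L F H) (hN : NoCrit F H) :
    AmbientIsotopic K L := by
  obtain ⟨e, e0, ⟨σ, hσ, e1⟩, e2, e3⟩ := hC.param
  obtain ⟨ε, hε, hεH, -, -⟩ := hC.cob.collar
  have hH : 0 < H := hε.trans hεH
  have hG : IsClosed (Fx F H) := fx_closed hC.cob.compact.isClosed
  obtain ⟨X, K', g, O, hX, hK', hX3, hO, hFO, hT, hgs, h0, hadd, hd⟩ :=
    exists_flow hG hC.cob.compact (fun p hp => fx_patch hC.cob hN hp)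
  have hht := height_flow hX3 h0 hd
  have hgc : Continuous fun q : ℝ × E4 => g q.1 q.2 := hgs.continuous
  -- points of `K` stay in `F`
  have hstay : ∀ (u : Circle) (t : ℝ), t ∈ Icc 0 H → g t (inc (K.c u)) ∈ F := by
    intro u t ht
    have hsl : ∀ s ∈ Icc 0 H, (g s (inc (K.c u)) ∈ Fx F H ↔ g s (inc (K.c u)) ∈ F) := fun s hs => by
      have h3 : (g s (inc (K.c u))) 3 = s := by rw [hht, inc_three, zero_add]
      exact fx_slab (by rw [h3]; exact hs.1) (by rw [h3]; exact hs.2)
    have hx : inc (K.c u) ∈ Fx F H := by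
      rw [← e0 u]
      have h3 : (e (u, 0) : E4) 3 = 0 := by rw [e0, inc_three]
      exact (fx_slab (by rw [h3]) (by rw [h3]; exact hH.le)).2 (e (u, 0)).2
    exact (hsl t ht).1 (inv_flow hG (fun p hp => fx_patch hC.cob hN hp) hX hK' hO hFO hT hadd h0 hd
      hx (fun s hs h => (hsl s hs).1 h) t ht)
  refine ⟨fun t y => prj (g (t * H) (inc y)), ?_, fun x => ?_, fun t => ?_, ?_⟩
  · have h1 : ContDiff ℝ ∞ fun q : ℝ × E3 => ((q.1 * H, inc q.2) : ℝ × E4) :=
      (contDiff_fst.mul contDiff_const).prodMk (inc.contDiff.comp contDiff_snd)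
    exact prj.contDiff.comp (hgs.comp h1)
  · show prj (g (0 * H) (inc x)) = x
    rw [zero_mul, h0, prj_inc]
  · refine ⟨fun y => prj (g (-(t * H)) (inc y + (t * H) • vert)), ?_, fun x => ?_, fun x => ?_⟩
    · have h1 : ContDiff ℝ ∞ fun y : E3 => ((-(t * H), inc y + (t * H) • vert) : ℝ × E4) :=
        contDiff_const.prodMk (inc.contDiff.add contDiff_const)
      exact prj.contDiff.comp (hgs.comp h1)
    · show prj (g (-(t * H)) (inc (prj (g (t * H) (inc x))) + (t * H) • vert)) = x
      have h3 : (g (t * H) (inc x)) 3 = t * H := by rw [hht, inc_three, zero_add]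
      have h4 := inc_prj (g (t * H) (inc x))
      rw [h3] at h4
      rw [h4, ← hadd, neg_add_cancel, h0, prj_inc]
    · show prj (g (t * H) (inc (prj (g (-(t * H)) (inc x + (t * H) • vert))))) = x
      obtain ⟨w, hw⟩ : ∃ w, w = g (-(t * H)) (inc x + (t * H) • vert) := ⟨_, rfl⟩
      have h3 : w 3 = 0 := by
        rw [hw, hht, NEAR.add_vert_three, inc_three]; ring
      have h4 := inc_prj w
      rw [h3, zero_smul, add_zero] at h4
      rw [← hw, h4, hw, ← hadd, add_neg_cancel, h0, map_add, prj_inc, map_smul, prj_vert, smul_zero,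
        add_zero]
  · -- the end
    have hmem : ∀ q : Circle × unitInterval, g ((q.2 : ℝ) * H) (inc (K.c q.1)) ∈ F := fun q =>
      hstay q.1 _ ⟨mul_nonneg q.2.2.1 hH.le, by nlinarith [q.2.2.2]⟩
    obtain ⟨E, hE⟩ : ∃ E : Circle × unitInterval → Circle × unitInterval,
      E = fun q => e.symm ⟨g ((q.2 : ℝ) * H) (inc (K.c q.1)), hmem q⟩ := ⟨_, rfl⟩
    have hEe : ∀ q, (e (E q) : E4) = g ((q.2 : ℝ) * H) (inc (K.c q.1)) := fun q => by
      rw [hE]
      simp only [Homeomorph.apply_symm_apply]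
    have hKc : Continuous K.c := K.cont
    have hEc : Continuous E := by
      rw [hE]
      refine e.symm.continuous.comp (Continuous.subtype_mk ?_ _)
      refine hgc.comp ((by fun_prop : Continuous fun q : Circle × unitInterval => (q.2 : ℝ) * H).prodMk
        (inc.continuous.comp (hKc.comp continuous_fst)))
    have hE0 : ∀ u, E (u, 0) = (u, 0) := fun u => by
      apply e.injective
      apply Subtype.ext
      rw [hEe, e0]
      show g (((0 : unitInterval) : ℝ) * H) (inc (K.c u)) = inc (K.c u)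
      rw [Set.Icc.coe_zero, zero_mul, h0]
    have hE1 : ∀ u, (E (u, 1)).2 = 1 := fun u => by
      apply e3
      rw [hEe, hht, inc_three]
      show 0 + ((1 : unitInterval) : ℝ) * H = H
      rw [Set.Icc.coe_one]; ring
    let τ : C(Circle, Circle) := ⟨fun u => (E (u, 1)).1, by fun_prop⟩
    have hτ : τ.Homotopic (ContinuousMap.id Circle) := by
      refine ContinuousMap.Homotopic.symm ⟨⟨⟨fun q => (E (q.2, q.1)).1, by fun_prop⟩, fun u => ?_,
        fun u => rfl⟩⟩
      show (E (u, 0)).1 = u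
      rw [hE0]
    refine ⟨σ.comp τ, ?_, fun u => ?_⟩
    · have := hσ.comp hτ
      rwa [ContinuousMap.id_comp] at this
    · show prj (g (1 * H) (inc (K.c u))) = L.c (σ (τ u))
      have h1 : g (1 * H) (inc (K.c u)) = inc (L.c (σ (τ u))) + H • vert := by
        rw [← e1]
        have h2 : ((E (u, 1)).1, (1 : unitInterval)) = E (u, 1) := Prod.ext rfl (hE1 u).symm
        show g (1 * H) (inc (K.c u)) = (e ((E (u, 1)).1, 1) : E4)
        rw [h2, hEe]
        show g (1 * H) (inc (K.c u)) = g (((1 : unitInterval) : ℝ) * H) (inc (K.c u))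
        rw [Set.Icc.coe_one]
      rw [h1, map_add, prj_inc, map_smul, prj_vert, smul_zero, add_zero]

end Pool.Agent.Run7.h233.MC
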