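import Pool.Agent.Run7.h233.MC.Disc1
import Pool.Agent.Run7.h233.MC.Iso
import Pool.Agent.Run7.h233.MC.Trace2

/-!
A disc in a slab whose height has one critical point: the boundary is isotopic to the level curves.
-/

set_option autoImplicit false

namespace Pool.Agent.Run7.h233.MC

open scoped ContDiff RealInnerProductSpace Topology Manifold
open Set Metric Filter
open Pool.Agent.Y503.RB Pool.Agent.N503.ML Pool.Agent.N15.SF

/-- a local parametrisation at `p` on which `p` is not a critical point of the height -/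
def RegAt (G : Set E4) (p : E4) : Prop :=
  ∃ (φ : ℂ → E4) (U : Set ℂ) (V : Set E4) (z : ℂ), EPatch φ U ∧ IsOpen V ∧
    p ∈ V ∧ G ∩ V = φ '' U ∧ z ∈ U ∧ φ z = p ∧ ∃ v, (fderiv ℝ φ z v) 3 ≠ 0

/-- a smooth field with height component one, tangent to the surface up to the height `c` -/
theorem exists_field_below {G : Set E4} (hG : IsClosed G) {c : ℝ}
    (hP : ∀ p ∈ G, p 3 ≤ c → RegAt G p) :
    ∃ X : E4 → E4, ContDiff ℝ ∞ X ∧ ∀ x, X x 3 = 1 ∧ (x ∈ G → x 3 ≤ c → TanAt G x (X x)) := by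
  have ht : ∀ x : E4, Convex ℝ {v : E4 | v 3 = 1 ∧ (x ∈ G → x 3 ≤ c → TanAt G x v)} := by
    intro x v hv w hw a b ha hb hab
    refine ⟨?_, fun hx hxc φ U V z h1 h2 h3 h4 h5 => ?_⟩
    · show a * v 3 + b * w 3 = 1
      rw [hv.1, hw.1, mul_one, mul_one, hab]
    · obtain ⟨u, hu⟩ := hv.2 hx hxc φ U V z h1 h2 h3 h4 h5
      obtain ⟨u', hu'⟩ := hw.2 hx hxc φ U V z h1 h2 h3 h4 h5
      exact ⟨a • u + b • u', by rw [map_add, map_smul, map_smul, hu, hu']⟩
  obtain ⟨g, hg⟩ := exists_contMDiffMap_forall_mem_convex_of_local (n := ⊤) 𝓘(ℝ, E4) ht (by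
    intro x
    by_cases hx : x ∈ G
    · rcases le_or_gt (x 3) c with hxc | hxc
      · obtain ⟨φ, U, V, z, hE, hV, hpV, hFV, hz, hzp, v₀, hv₀⟩ := hP x hx hxc
        obtain ⟨ρ, W, U₁, hW, hzW, hρ, hρU, hU₁, hzU₁, hU₁U, hρφ⟩ := exists_ret hE hz
        have hdc : ContDiffOn ℝ ∞ (fun w => fderiv ℝ φ w v₀) U := by
          have h1 : ContDiffOn ℝ ∞ (fderiv ℝ φ) U := hE.smooth.fderiv_of_isOpen hE.isOpen (by simp)
          exact h1.clm_apply contDiffOn_const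
        have hc1 : ContDiffOn ℝ ∞ (fun y => fderiv ℝ φ (ρ y) v₀) W := hdc.comp hρ hρU
        have hc2 : ContDiffOn ℝ ∞ (fun y => (fderiv ℝ φ (ρ y) v₀) 3) W :=
          (EuclideanSpace.proj (3 : Fin 4) : E4 →L[ℝ] ℝ).contDiff.comp_contDiffOn hc1
        have hO : IsOpen (W ∩ (fun y => (fderiv ℝ φ (ρ y) v₀) 3) ⁻¹' {0}ᶜ) :=
          hc2.continuousOn.isOpen_inter_preimage hW isOpen_compl_singleton
        have hρx : ρ x = z := by rw [← hzp]; exact (hρφ z hzU₁).2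
        have hxO : x ∈ W ∩ (fun y => (fderiv ℝ φ (ρ y) v₀) 3) ⁻¹' {0}ᶜ := by
          refine ⟨by rw [← hzp]; exact hzW, ?_⟩
          show (fderiv ℝ φ (ρ x) v₀) 3 ≠ 0
          rw [hρx]; exact hv₀
        have hnear : ∀ᶠ y in 𝓝 x, y ∈ G → ∃ w ∈ U₁ ∩ U, φ w = y := by
          have h1 := NEAR.emb_nhds hV hFV hE.emb hz (hU₁.mem_nhds hzU₁)
          rw [hzp] at h1
          exact eventually_nhdsWithin_iff.1 h1
        obtain ⟨N, hN, hNo, hxN⟩ := _root_.mem_nhds_iff.1 hnear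
        refine ⟨(W ∩ (fun y => (fderiv ℝ φ (ρ y) v₀) 3) ⁻¹' {0}ᶜ) ∩ N,
          (hO.inter hNo).mem_nhds ⟨hxO, hxN⟩,
          fun y => ((fderiv ℝ φ (ρ y) v₀) 3)⁻¹ • fderiv ℝ φ (ρ y) v₀, ?_, ?_⟩
        · rw [contMDiffOn_iff_contDiffOn]
          refine ContDiffOn.smul (ContDiffOn.inv (hc2.mono ?_) ?_) (hc1.mono ?_)
          · exact fun y hy => hy.1.1
          · exact fun y hy => hy.1.2
          · exact fun y hy => hy.1.1
        · intro y hy
          have hne : (fderiv ℝ φ (ρ y) v₀) 3 ≠ 0 := hy.1.2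
          refine ⟨?_, fun hyG _ φ₂ U₂ V₂ z₂ e1 e2 e3 e4 e5 => ?_⟩
          · show ((fderiv ℝ φ (ρ y) v₀) 3)⁻¹ * (fderiv ℝ φ (ρ y) v₀) 3 = 1
            exact inv_mul_cancel₀ hne
          · obtain ⟨w, hw, hwy⟩ := hN hy.2 hyG
            have hρy : ρ y = w := by rw [← hwy]; exact (hρφ w hw.1).2
            obtain ⟨v', hv'⟩ := range_le hE e1 hV e2 hFV e3 hw.2 e4 (hwy.trans e5.symm)
              (((fderiv ℝ φ (ρ y) v₀) 3)⁻¹ • v₀)
            refine ⟨v', ?_⟩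
            show fderiv ℝ φ₂ z₂ v' = ((fderiv ℝ φ (ρ y) v₀) 3)⁻¹ • fderiv ℝ φ (ρ y) v₀
            rw [hv', map_smul, hρy]
      · have ho : IsOpen {y : E4 | c < y 3} := isOpen_lt continuous_const c3
        refine ⟨{y : E4 | c < y 3}, ho.mem_nhds hxc, fun _ => vert, contMDiffOn_const, ?_⟩
        intro y hy
        exact ⟨vert3, fun _ h => absurd h (not_le.2 hy)⟩
    · refine ⟨Gᶜ, hG.isOpen_compl.mem_nhds hx, fun _ => vert, contMDiffOn_const, ?_⟩
      intro y hy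
      exact ⟨vert3, fun h => absurd h hy⟩)
  exact ⟨g, g.contMDiff.contDiff, hg⟩

/-- the flow of a field of height speed one which is tangent to `G` below the height `c`, near a
compact set -/
theorem exists_flow_below {G F : Set E4} (hG : IsClosed G) (hF : IsCompact F) {c : ℝ}
    (hFc : ∀ x ∈ F, x 3 < c) (hP : ∀ p ∈ G, p 3 ≤ c → RegAt G p) :
    ∃ (X : E4 → E4) (K : NNReal) (g : ℝ → E4 → E4) (O : Set E4), ContDiff ℝ ∞ X ∧
      LipschitzWith K X ∧ (∀ x, X x 3 = 1) ∧ IsOpen O ∧ F ⊆ O ∧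
      (∀ x ∈ O, x ∈ G → TanAt G x (X x)) ∧ ContDiff ℝ ∞ (fun q : ℝ × E4 => g q.1 q.2) ∧
      (∀ x, g 0 x = x) ∧ (∀ s t x, g (s + t) x = g s (g t x)) ∧
      (∀ x t, HasDerivAt (fun t => g t x) (X (g t x)) t) := by
  obtain ⟨X, hX, hX2⟩ := exists_field_below hG hP
  obtain ⟨R, hR0, hR⟩ : ∃ R : ℝ, 0 < R ∧ F ⊆ ball 0 R := by
    obtain ⟨R, hR⟩ := hF.isBounded.subset_ball (0 : E4)
    exact ⟨max R 1, lt_max_of_lt_right one_pos, hR.trans (ball_subset_ball (le_max_left _ _))⟩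
  let χ : ContDiffBump (0 : E4) := ⟨R, R + 1, hR0, by linarith⟩
  have hχs : ContDiff ℝ ∞ (χ : E4 → ℝ) := χ.contDiff
  have hχc : HasCompactSupport (χ : E4 → ℝ) := χ.hasCompactSupport
  have hχ1 : ∀ x ∈ ball (0 : E4) R, χ x = 1 := fun x hx =>
    χ.one_of_mem_closedBall (ball_subset_closedBall hx)
  obtain ⟨Y, hY⟩ : ∃ Y : E4 → E4, Y = fun x => χ x • (X x - vert) := ⟨_, rfl⟩
  have hYs : ContDiff ℝ ∞ Y := by rw [hY]; exact hχs.smul (hX.sub contDiff_const)
  have hYc : HasCompactSupport Y := by rw [hY]; exact hχc.smul_right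
  obtain ⟨K, hK⟩ := hYs.lipschitzWith_of_hasCompactSupport hYc (by simp)
  obtain ⟨M, hM⟩ := hYc.exists_bound_of_continuous hYs.continuous
  obtain ⟨Z, hZ⟩ : ∃ Z : E4 → E4, Z = fun x => vert + Y x := ⟨_, rfl⟩
  have hZs : ContDiff ℝ ∞ Z := by rw [hZ]; exact contDiff_const.add hYs
  have hZK : LipschitzWith K Z := by
    rw [hZ]
    refine LipschitzWith.of_dist_le_mul fun x y => ?_
    rw [dist_add_left]
    exact hK.dist_le_mul x y
  have hZM : ∀ x, ‖Z x‖ ≤ (Real.toNNReal (‖vert‖ + M) : NNReal) := fun x => by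
    rw [hZ]
    refine (norm_add_le _ _).trans ?_
    refine le_trans ?_ (Real.le_coe_toNNReal _)
    linarith [hM x]
  choose γ h0 h1 using fun p => Pool.Agent.GR.Flow.exists_solution hZK hZM p
  have hfl : Pool.Agent.GR.Flow.IsFlowOf Z (fun t p => γ p t) := ⟨h0, h1⟩
  refine ⟨Z, K, fun t p => γ p t, ball 0 R ∩ {x | x 3 < c}, hZs, hZK, ?_,
    isOpen_ball.inter (isOpen_lt c3 continuous_const), fun x hx => ⟨hR hx, hFc x hx⟩, ?_, ?_, h0,
    fun s t p => hfl.add hZK s t p, h1⟩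
  · intro x
    rw [hZ, hY]
    show vert 3 + χ x * (X x 3 - vert 3) = 1
    rw [(hX2 x).1, vert3]
    ring
  · intro x hx hxG
    have e : Z x = X x := by
      rw [hZ, hY]
      simp only
      rw [hχ1 x hx.1, one_smul, add_sub_cancel]
    rw [e]
    exact (hX2 x).2 hxG (le_of_lt hx.2)
  · rw [contDiff_infty]
    intro m
    have key : ∀ m : ℕ, m ≠ 0 → ContDiff ℝ m (fun q : ℝ × E4 => γ q.2 q.1) := by
      intro m hm
      exact Pool.Agent.GR.Flow.contDiff_flow (X := ⟨Z, hZs.continuous⟩) hm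
        (hZs.of_le (by exact_mod_cast le_top)) hZK hfl
    exact (key (m + 1) (by omega)).of_le (by exact_mod_cast Nat.le_succ m)

theorem inv_flow' {G F : Set E4} (hG : IsClosed G)
    (hP : ∀ p ∈ G, p ∈ F → ∃ (φ : ℂ → E4) (U : Set ℂ)
    (V : Set E4) (z : ℂ), EPatch φ U ∧ IsOpen V ∧ G ∩ V = φ '' U ∧ z ∈ U ∧ φ z = p)
    {X : E4 → E4} {K : NNReal} (hX : ContDiff ℝ ∞ X)
    (hK : LipschitzWith K X) {O : Set E4} (hO : IsOpen O) (hFO : F ⊆ O)
    (hT : ∀ x ∈ O, x ∈ G → TanAt G x (X x)) {g : ℝ → E4 → E4}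
    (hadd : ∀ s t x, g (s + t) x = g s (g t x))
    (h0 : ∀ x, g 0 x = x) (hd : ∀ x t, HasDerivAt (fun t => g t x) (X (g t x)) t) {x : E4}
    (hx : x ∈ G) {T : ℝ} (hGF : ∀ t ∈ Icc 0 T, g t x ∈ G → g t x ∈ F) :
    ∀ t ∈ Icc 0 T, g t x ∈ G := by
  have hc : Continuous fun t => g t x :=
    continuous_iff_continuousAt.2 fun t => (hd x t).continuousAt
  have key : Icc 0 T ⊆ {t | g t x ∈ G} := by
    refine IsClosed.Icc_subset_of_forall_exists_gt ?_ ?_ ?_
    · exact (hG.preimage hc).inter isClosed_Icc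
    · show g 0 x ∈ G
      rw [h0]; exact hx
    · rintro t ⟨ht, ht2⟩ y hy
      have ht' : g t x ∈ G := ht
      have hy' : t < y := hy
      have hF : g t x ∈ F := hGF t ⟨ht2.1, ht2.2.le⟩ ht'
      obtain ⟨φ, U, V, z, hE, hV, hFV, hz, hzp⟩ := hP _ ht' hF
      have h1 := inv_near hX hK hO hT hE hV hFV hz (by rw [hzp]; exact hFO hF)
        (γ := fun s => g s (g t x)) (by rw [h0, hzp]) (fun s => hd (g t x) s)
      have h2 : ∀ᶠ s in 𝓝[>] (0 : ℝ), g s (g t x) ∈ G ∧ s < y - t :=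
        nhdsWithin_le_nhds (h1.and (gt_mem_nhds (by linarith)))
      obtain ⟨s, ⟨hs1, hs2⟩, hs3⟩ := (h2.and self_mem_nhdsWithin).exists
      have hs3' : 0 < s := hs3
      refine ⟨s + t, ?_, by linarith, by linarith⟩
      show g (s + t) x ∈ G
      rw [hadd]; exact hs1
  exact key

section

variable {F : Set E4} {H : ℝ}

/-- moving a patch vertically -/
theorem fx_move' {p : E4} {a : ℝ} {O : Set E4} (hO : IsOpen O) (hpO : p + a • vert ∈ O)
    (hloc : ∃ (φ : ℂ → E4) (U : Set ℂ) (V : Set E4) (z : ℂ), EPatch φ U ∧ IsOpen V ∧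
      p + a • vert ∈ V ∧ F ∩ V = φ '' U ∧ z ∈ U ∧ φ z = p + a • vert ∧
      fderiv ℝ (fun w => φ w 3) z ≠ 0)
    (hiff : ∀ x : E4, x + a • vert ∈ O → (x ∈ Fx F H ↔ x + a • vert ∈ F)) :
    RegAt (Fx F H) p := by
  obtain ⟨φ, U, V, z, hE, hV, hpV, hFV, hz, hzp, hnd⟩ := hloc
  have hcont : Continuous fun x : E4 => x + a • vert := by fun_prop
  have hU1 : IsOpen (U ∩ φ ⁻¹' O) := hE.smooth.continuousOn.isOpen_inter_preimage hE.isOpen hO
  have hE1 : EPatch φ (U ∩ φ ⁻¹' O) := hE.restrict hU1 inter_subset_left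
  refine ⟨fun w => φ w - a • vert, U ∩ φ ⁻¹' O, (fun x : E4 => x + a • vert) ⁻¹' (V ∩ O), z,
    epatch_sub hE1 _, (hV.inter hO).preimage hcont, ⟨hpV, hpO⟩, ?_, ⟨hz, ?_⟩, ?_, ?_⟩
  · ext x
    constructor
    · rintro ⟨hx1, hx2, hx3⟩
      have h1 : x + a • vert ∈ F ∩ V := ⟨(hiff x hx3).1 hx1, hx2⟩
      rw [hFV] at h1
      obtain ⟨w, hw, hwx⟩ := h1
      refine ⟨w, ⟨hw, ?_⟩, ?_⟩
      · show φ w ∈ O
        rw [hwx]; exact hx3
      · show φ w - a • vert = x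
        rw [hwx, add_sub_cancel_right]
    · rintro ⟨w, ⟨hw, hwO⟩, rfl⟩
      have h1 : φ w ∈ F ∩ V := by rw [hFV]; exact ⟨w, hw, rfl⟩
      have e1 : φ w - a • vert + a • vert = φ w := sub_add_cancel _ _
      refine ⟨?_, ?_⟩
      · show φ w - a • vert ∈ Fx F H
        rw [hiff _ (by rw [e1]; exact hwO), e1]
        exact h1.1
      · show φ w - a • vert + a • vert ∈ V ∩ O
        rw [e1]
        exact ⟨h1.2, hwO⟩
  · show φ z ∈ O
    rw [hzp]; exact hpO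
  · show φ z - a • vert = p
    rw [hzp, add_sub_cancel_right]
  · have hd : fderiv ℝ (fun w => φ w - a • vert) z = fderiv ℝ φ z := fderiv_sub_const _
    rw [hd]
    by_contra hc
    push Not at hc
    apply hnd
    have hsm : DifferentiableAt ℝ φ z :=
      (hE.smooth.contDiffAt (hE.isOpen.mem_nhds hz)).differentiableAt (by simp)
    have h1 : HasFDerivAt (fun w => φ w 3)
        ((EuclideanSpace.proj (3 : Fin 4) : E4 →L[ℝ] ℝ).comp (fderiv ℝ φ z)) z :=
      (EuclideanSpace.proj (3 : Fin 4) : E4 →L[ℝ] ℝ).hasFDerivAt.comp z hsm.hasFDerivAt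
    rw [h1.fderiv]
    exact ContinuousLinearMap.ext fun v => hc v

theorem fx_patch_one (hC : Cob F H) {p₀ : E4} (h1 : OneMax F H p₀) {p : E4} (hp : p ∈ Fx F H)
    (hpc : p 3 < p₀ 3) : RegAt (Fx F H) p := by
  obtain ⟨ε₀, hε₀, hεH₀, hlow₀, -⟩ := hC.collar
  have hp₀ : 0 < p₀ 3 := h1.mem.2.1
  have hp₀H : p₀ 3 < H := h1.mem.2.2
  obtain ⟨ε, hε, hε1, hε2⟩ : ∃ ε : ℝ, 0 < ε ∧ ε ≤ ε₀ ∧ ε ≤ p₀ 3 :=
    ⟨min ε₀ (p₀ 3), lt_min hε₀ hp₀, min_le_left _ _, min_le_right _ _⟩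
  have hεH : ε < H := hε1.trans_lt hεH₀
  have hlow : ∀ x : E4, 0 ≤ x 3 → x 3 ≤ ε → (x ∈ F ↔ x - (x 3) • vert ∈ F) := fun x a b =>
    hlow₀ x a (b.trans hε1)
  have hH : 0 < H := hε.trans hεH
  rcases le_or_gt (p 3) 0 with h0 | h0
  · have hp1 := (fx_low hεH hH hlow (h0.trans hε.le)).1 hp
    have hq : p + (ε / 2 - p 3) • vert ∈ F := by
      rw [hlow (p + (ε / 2 - p 3) • vert) (by rw [add_v3]; linarith) (by rw [add_v3]; linarith),
        add_v3]
      have e : p + (ε / 2 - p 3) • vert - (p 3 + (ε / 2 - p 3)) • vert = p - (p 3) • vert := by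
        module
      rw [e]; exact hp1
    have hqo : p + (ε / 2 - p 3) • vert ∈ oslab H := by
      show 0 < (p + (ε / 2 - p 3) • vert) 3 ∧ (p + (ε / 2 - p 3) • vert) 3 < H
      rw [add_v3]
      constructor <;> linarith
    have hqne : p + (ε / 2 - p 3) • vert ≠ p₀ := by
      intro h
      have := congrArg (fun x : E4 => x 3) h
      simp only [add_v3] at this
      linarith
    refine fx_move' (a := ε / 2 - p 3) (O := {x | 0 < x 3 ∧ x 3 < ε}) ?_ ?_
      (h1.reg _ ⟨hq, hqo⟩ hqne) ?_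
    · exact (isOpen_lt continuous_const c3).inter (isOpen_lt c3 continuous_const)
    · show 0 < (p + (ε / 2 - p 3) • vert) 3 ∧ (p + (ε / 2 - p 3) • vert) 3 < ε
      rw [add_v3]
      constructor <;> linarith
    · rintro x ⟨h1, h2⟩
      rw [add_v3] at h1 h2
      rw [fx_low hεH hH hlow (by linarith), hlow (x + (ε / 2 - p 3) • vert)
        (by rw [add_v3]; linarith) (by rw [add_v3]; linarith), add_v3]
      have e : x + (ε / 2 - p 3) • vert - (x 3 + (ε / 2 - p 3)) • vert = x - (x 3) • vert := by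
        module
      rw [e]
  · have hpF : p ∈ F := (fx_slab h0.le (by linarith)).1 hp
    have hpne : p + (0 : ℝ) • vert ≠ p₀ := by
      intro h
      rw [zero_smul, add_zero] at h
      rw [h] at hpc
      exact lt_irrefl _ hpc
    have hmem : p + (0 : ℝ) • vert ∈ F ∩ oslab H := by
      rw [zero_smul, add_zero]; exact ⟨hpF, h0, by linarith⟩
    refine fx_move' (a := 0) (O := oslab H) ?_ ?_ (h1.reg _ hmem hpne) ?_
    · exact (isOpen_lt continuous_const c3).inter (isOpen_lt c3 continuous_const)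
    · exact hmem.2
    · intro x hx
      rw [zero_smul, add_zero] at hx ⊢
      exact fx_slab hx.1.le hx.2.le

end

/-- the image of a knot under an ambient isotopy -/
theorem exists_push (K : Knot) {A : ℝ → E3 → E3} (hA : ContDiff ℝ ∞ (fun q : ℝ × E3 => A q.1 q.2))
    (hA0 : ∀ x, A 0 x = x)
    (hAB : ∀ t, ∃ B : E3 → E3, ContDiff ℝ ∞ B ∧ (∀ x, B (A t x) = x) ∧ ∀ x, A t (B x) = x) :
    ∃ N : Knot, (∀ u, N.c u = A 1 (K.c u)) ∧ AmbientIsotopic K N := by
  obtain ⟨B, hBs, hB, hB'⟩ := hAB 1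
  have hAt : ContDiff ℝ ∞ (A 1) := hA.comp (contDiff_const.prodMk contDiff_id)
  refine ⟨⟨fun u => A 1 (K.c u), hAt.comp K.smooth, fun s => ?_, ?_⟩, fun u => rfl,
    A, hA, hA0, hAB, ContinuousMap.id _, ContinuousMap.Homotopic.refl _, fun u => rfl⟩
  · intro hc
    apply K.reg s
    have hd : DifferentiableAt ℝ (fun s : ℝ => A 1 (K.c (Circle.exp s))) s :=
      (hAt.comp K.smooth).differentiable (by simp) s
    have h1 : HasDerivAt (fun s : ℝ => B (A 1 (K.c (Circle.exp s))))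
        (fderiv ℝ B (A 1 (K.c (Circle.exp s))) (deriv (fun s : ℝ => A 1 (K.c (Circle.exp s))) s)) s :=
      ((hBs.differentiable (by simp) _).hasFDerivAt).comp_hasDerivAt s hd.hasDerivAt
    rw [hc, map_zero] at h1
    simp only [hB] at h1
    exact h1.deriv
  · intro u v huv
    apply K.inj
    rw [← hB (K.c u), ← hB (K.c v)]
    exact congrArg B huv

theorem tanAt_neg {G : Set E4} {x v : E4} (h : TanAt G x v) : TanAt G x (-v) := by
  intro φ U V z h1 h2 h3 h4 h5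
  obtain ⟨u, hu⟩ := h φ U V z h1 h2 h3 h4 h5
  exact ⟨-u, by rw [map_neg, hu]⟩

/-- the boundary is isotopic to the level curves below the maximum -/
theorem level_iso {K : Knot} {F : Set E4} {H : ℝ} (hC : Cob F H)
    (hK : F ∩ {x | x 3 = 0} = inc '' range K.c) {p₀ : E4} (h1 : OneMax F H p₀) {c : ℝ}
    (hc0 : 0 < c) (hc : c < p₀ 3) :
    ∃ N : Knot, AmbientIsotopic K N ∧ ∀ x : E3, x ∈ range N.c ↔ inc x + c • vert ∈ F := by
  have hp₀H : p₀ 3 < H := h1.mem.2.2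
  obtain ⟨c', hc1, hc2⟩ := exists_between hc
  have hG : IsClosed (Fx F H) := fx_closed hC.compact.isClosed
  have hreg : ∀ p ∈ Fx F H, p 3 ≤ c' → RegAt (Fx F H) p := fun p hp hpc =>
    fx_patch_one hC h1 hp (hpc.trans_lt hc2)
  obtain ⟨F₁, hF₁⟩ : ∃ F₁ : Set E4, F₁ = F ∩ {x | x 3 ≤ c} := ⟨_, rfl⟩
  have hF₁c : IsCompact F₁ := by
    rw [hF₁]; exact hC.compact.inter_right (isClosed_le c3 continuous_const)
  obtain ⟨X, K', g, O, hX, hK', hX3, hO, hFO, hT, hgs, h0, hadd, hd⟩ :=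
    exists_flow_below hG hF₁c (fun x hx => by rw [hF₁] at hx; exact lt_of_le_of_lt hx.2 hc1) hreg
  have hht := height_flow hX3 h0 hd
  have hpatch : ∀ p ∈ Fx F H, p ∈ F₁ → ∃ (φ : ℂ → E4) (U : Set ℂ) (V : Set E4) (z : ℂ),
      EPatch φ U ∧ IsOpen V ∧ Fx F H ∩ V = φ '' U ∧ z ∈ U ∧ φ z = p := by
    intro p hp hp1
    rw [hF₁] at hp1
    obtain ⟨φ, U, V, z, a1, a2, -, a3, a4, a5, -⟩ := hreg p hp (le_trans hp1.2 hc1.le)
    exact ⟨φ, U, V, z, a1, a2, a3, a4, a5⟩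
  have hsl : ∀ x : E4, 0 ≤ x 3 → x 3 ≤ c → (x ∈ Fx F H ↔ x ∈ F) := fun x a b =>
    fx_slab a (by linarith)
  -- forward
  have hfor : ∀ x ∈ F, x 3 = 0 → g c x ∈ F := by
    intro x hx hx0
    have h2 := inv_flow' hG hpatch hX hK' hO hFO hT hadd h0 hd
      ((hsl x hx0.ge (by rw [hx0]; exact hc0.le)).2 hx) (T := c) (fun t ht hgt => by
        have h3 : (g t x) 3 = t := by rw [hht, hx0, zero_add]
        rw [hF₁]
        exact ⟨(hsl _ (by rw [h3]; exact ht.1) (by rw [h3]; exact ht.2)).1 hgt,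
          by show (g t x) 3 ≤ c; rw [h3]; exact ht.2⟩) c ⟨hc0.le, le_rfl⟩
    have h3 : (g c x) 3 = c := by rw [hht, hx0, zero_add]
    exact (hsl _ (by rw [h3]; exact hc0.le) (by rw [h3])).1 h2
  -- backward
  have hback : ∀ y ∈ F, y 3 = c → g (-c) y ∈ F := by
    intro y hy hyc
    have h2 := inv_flow' (g := fun t x => g (-t) x) (X := fun x => - X x) hG hpatch hX.neg
      (K := K') (LipschitzWith.of_dist_le_mul fun a b => by
        rw [dist_neg_neg]; exact hK'.dist_le_mul a b) hO hFO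
      (fun x hx hxG => tanAt_neg (hT x hx hxG))
      (fun s t x => by rw [neg_add, hadd]) (fun x => by rw [neg_zero, h0])
      (fun x t => by
        have h3 := (hd x (-t)).scomp t (hasDerivAt_neg t)
        rw [neg_one_smul] at h3
        exact h3)
      ((hsl y (by rw [hyc]; exact hc0.le) hyc.le).2 hy) (T := c) (fun t ht hgt => by
        have h3 : (g (-t) y) 3 = c - t := by rw [hht, hyc]; ring
        rw [hF₁]
        exact ⟨(hsl _ (by rw [h3]; linarith [ht.2]) (by rw [h3]; linarith [ht.1])).1 hgt,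
          by show (g (-t) y) 3 ≤ c; rw [h3]; linarith [ht.1]⟩) c ⟨hc0.le, le_rfl⟩
    have h3 : (g (-c) y) 3 = 0 := by rw [hht, hyc]; ring
    exact (hsl _ (by rw [h3]) (by rw [h3]; exact hc0.le)).1 h2
  obtain ⟨A, hA⟩ : ∃ A : ℝ → E3 → E3, A = fun t y => prj (g (t * c) (inc y)) := ⟨_, rfl⟩
  have hAs : ContDiff ℝ ∞ (fun q : ℝ × E3 => A q.1 q.2) := by
    rw [hA]
    have h1 : ContDiff ℝ ∞ fun q : ℝ × E3 => ((q.1 * c, inc q.2) : ℝ × E4) :=
      (contDiff_fst.mul contDiff_const).prodMk (inc.contDiff.comp contDiff_snd)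
    exact prj.contDiff.comp (hgs.comp h1)
  have hA0 : ∀ x, A 0 x = x := fun x => by
    rw [hA]
    show prj (g (0 * c) (inc x)) = x
    rw [zero_mul, h0, prj_inc]
  have hAB : ∀ t, ∃ B : E3 → E3, ContDiff ℝ ∞ B ∧ (∀ x, B (A t x) = x) ∧ ∀ x, A t (B x) = x := by
    intro t
    rw [hA]
    refine ⟨fun y => prj (g (-(t * c)) (inc y + (t * c) • vert)), ?_, fun x => ?_, fun x => ?_⟩
    · have h1 : ContDiff ℝ ∞ fun y : E3 => ((-(t * c), inc y + (t * c) • vert) : ℝ × E4) :=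
        contDiff_const.prodMk (inc.contDiff.add contDiff_const)
      exact prj.contDiff.comp (hgs.comp h1)
    · show prj (g (-(t * c)) (inc (prj (g (t * c) (inc x))) + (t * c) • vert)) = x
      have h3 : (g (t * c) (inc x)) 3 = t * c := by rw [hht, inc_three, zero_add]
      have h4 := inc_prj (g (t * c) (inc x))
      rw [h3] at h4
      rw [h4, ← hadd, neg_add_cancel, h0, prj_inc]
    · show prj (g (t * c) (inc (prj (g (-(t * c)) (inc x + (t * c) • vert))))) = x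
      obtain ⟨w, hw⟩ : ∃ w, w = g (-(t * c)) (inc x + (t * c) • vert) := ⟨_, rfl⟩
      have h3 : w 3 = 0 := by
        rw [hw, hht, NEAR.add_vert_three, inc_three]; ring
      have h4 := inc_prj w
      rw [h3, zero_smul, add_zero] at h4
      rw [← hw, h4, hw, ← hadd, add_neg_cancel, h0, map_add, prj_inc, map_smul, prj_vert, smul_zero,
        add_zero]
  obtain ⟨N, hN1, hN2⟩ := exists_push K hAs hA0 hAB
  have hA1 : ∀ x : E3, inc (A 1 x) + c • vert = g c (inc x) := by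
    intro x
    rw [hA]
    show inc (prj (g (1 * c) (inc x))) + c • vert = g c (inc x)
    rw [one_mul]
    have h3 : (g c (inc x)) 3 = c := by rw [hht, inc_three, zero_add]
    have h4 := inc_prj (g c (inc x))
    rwa [h3] at h4
  have hKF : ∀ u, inc (K.c u) ∈ F := fun u => by
    have : inc (K.c u) ∈ F ∩ {x | x 3 = 0} := by rw [hK]; exact ⟨_, ⟨u, rfl⟩, rfl⟩
    exact this.1
  refine ⟨N, hN2, fun x => ⟨?_, fun hx => ?_⟩⟩
  · rintro ⟨u, rfl⟩
    rw [hN1, hA1]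
    exact hfor _ (hKF u) (inc_three _)
  · have h3 : (inc x + c • vert) 3 = c := by rw [add_v3, inc_three, zero_add]
    have h4 := hback _ hx h3
    have h5 : (g (-c) (inc x + c • vert)) 3 = 0 := by rw [hht, h3]; ring
    have h6 : g (-c) (inc x + c • vert) ∈ inc '' range K.c := by
      rw [← hK]; exact ⟨h4, h5⟩
    obtain ⟨_, ⟨u, rfl⟩, hu⟩ := h6
    refine ⟨u, ?_⟩
    rw [hN1]
    have h7 := hA1 (K.c u)
    rw [hu, ← hadd, add_neg_cancel, h0] at h7
    exact inc_inj (add_right_cancel h7)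

end Pool.Agent.Run7.h233.MC
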