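import Pool.Agent.Run7.h233.MC.Main

/-!
Straight line isotopies; plane ellipses are isotopic to the round circle.
-/

set_option autoImplicit false

namespace Pool.Agent.Run7.h233.MC

open scoped ContDiff RealInnerProductSpace Topology
open Set Metric Filter

theorem AmbientIsotopic.refl (K : Knot) : AmbientIsotopic K K :=
  ⟨fun _ x => x, contDiff_snd, fun _ => rfl, fun _ => ⟨fun x => x, contDiff_id, fun _ => rfl,
    fun _ => rfl⟩, ContinuousMap.id _, ContinuousMap.Homotopic.refl _, fun _ => rfl⟩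

theorem AmbientIsotopic.trans {K L M : Knot} (h : AmbientIsotopic K L) (h' : AmbientIsotopic L M) :
    AmbientIsotopic K M := by
  obtain ⟨A, hA, hA0, hAB, σ, hσ, hA1⟩ := h
  obtain ⟨A', hA', hA0', hAB', σ', hσ', hA1'⟩ := h'
  refine ⟨fun t x => A' t (A t x), ?_, fun x => ?_, fun t => ?_, σ'.comp σ, ?_,
    fun u => ?_⟩
  · exact hA'.comp (contDiff_fst.prodMk hA)
  · show A' 0 (A 0 x) = x
    rw [hA0, hA0']
  · obtain ⟨B, hB, hB1, hB2⟩ := hAB t
    obtain ⟨B', hB', hB1', hB2'⟩ := hAB' t
    refine ⟨fun x => B (B' x), hB.comp hB', fun x => ?_, fun x => ?_⟩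
    · show B (B' (A' t (A t x))) = x
      rw [hB1', hB1]
    · show A' t (A t (B (B' x))) = x
      rw [hB2, hB2']
  · have := hσ'.comp hσ
    rwa [ContinuousMap.id_comp] at this
  · show A' 1 (A 1 (K.c u)) = M.c (σ' (σ u))
    have e1 : A 1 (K.c u) = L.c (σ u) := hA1 u
    have e2 : A' 1 (L.c (σ u)) = M.c (σ' (σ u)) := hA1' (σ u)
    rw [e1, e2]

theorem Knot.hasDeriv (K : Knot) (t : ℝ) : HasDerivAt (fun t : ℝ => K.c (Circle.exp t))
    (deriv (fun t : ℝ => K.c (Circle.exp t)) t) t :=
  (K.smooth.differentiable (by simp) t).hasDerivAt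

/-- straight line isotopies -/
theorem iso_line (K L : Knot)
    (h1 : ∀ s ∈ Icc (0 : ℝ) 1, ∀ u v, u ≠ v →
      (1 - s) • (K.c u - K.c v) + s • (L.c u - L.c v) ≠ 0)
    (h2 : ∀ s ∈ Icc (0 : ℝ) 1, ∀ t, (1 - s) • deriv (fun t : ℝ => K.c (Circle.exp t)) t +
      s • deriv (fun t : ℝ => L.c (Circle.exp t)) t ≠ 0) : AmbientIsotopic K L := by
  have h : Isotopic K L := by
    refine ⟨fun s u => (1 - s) • K.c u + s • L.c u, ?_, fun s hs => ⟨fun u v huv => ?_, fun t => ?_⟩,
      ?_, ContinuousMap.id _, ContinuousMap.Homotopic.refl _, fun u => ?_⟩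
    · have a1 : ContDiff ℝ ∞ fun q : ℝ × ℝ => K.c (Circle.exp q.2) := K.smooth.comp contDiff_snd
      have a2 : ContDiff ℝ ∞ fun q : ℝ × ℝ => L.c (Circle.exp q.2) := L.smooth.comp contDiff_snd
      exact ((contDiff_const.sub contDiff_fst).smul a1).add (contDiff_fst.smul a2)
    · by_contra hne
      refine h1 s hs u v hne ?_
      have e : (1 - s) • K.c u + s • L.c u = (1 - s) • K.c v + s • L.c v := huv
      have e2 : (1 - s) • (K.c u - K.c v) + s • (L.c u - L.c v) =
          ((1 - s) • K.c u + s • L.c u) - ((1 - s) • K.c v + s • L.c v) := by module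
      rw [e2, e, sub_self]
    · have a := ((K.hasDeriv t).const_smul (1 - s)).add ((L.hasDeriv t).const_smul s)
      have e : deriv (fun t : ℝ => (1 - s) • K.c (Circle.exp t) + s • L.c (Circle.exp t)) t =
          (1 - s) • deriv (fun t : ℝ => K.c (Circle.exp t)) t +
            s • deriv (fun t : ℝ => L.c (Circle.exp t)) t := a.deriv
      rw [e]
      exact h2 s hs t
    · funext u
      show (1 - (0 : ℝ)) • K.c u + (0 : ℝ) • L.c u = K.c u
      rw [sub_zero, one_smul, zero_smul, add_zero]
    · show (1 - (1 : ℝ)) • K.c u + (1 : ℝ) • L.c u = L.c u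
      rw [sub_self, one_smul, zero_smul, zero_add]
  exact ((isotopic_tfae K L).out 0 1).1 h

/-- linearly independent pairs -/
def LI2 (a b : E3) : Prop := ∀ x y : ℝ, x • a + y • b = 0 → x = 0 ∧ y = 0

/-- A smooth regular injective map of the circle to the plane. -/
structure PlaneCurve where
  v : Circle → ℂ
  smooth : ContDiff ℝ ∞ fun t : ℝ => v (Circle.exp t)
  reg : ∀ t : ℝ, deriv (fun t : ℝ => v (Circle.exp t)) t ≠ 0
  inj : Function.Injective v

theorem PlaneCurve.hasDeriv (V : PlaneCurve) (t : ℝ) : HasDerivAt (fun t : ℝ => V.v (Circle.exp t))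
    (deriv (fun t : ℝ => V.v (Circle.exp t)) t) t :=
  (V.smooth.differentiable (by simp) t).hasDerivAt

/-- the linear map of the plane to three-space -/
noncomputable def lin (a b : E3) : ℂ →L[ℝ] E3 :=
  Complex.reCLM.smulRight a + Complex.imCLM.smulRight b

theorem lin_apply (a b : E3) (z : ℂ) : lin a b z = z.re • a + z.im • b := rfl

theorem lin_eq_zero {a b : E3} (h : LI2 a b) {z : ℂ} (hz : lin a b z = 0) : z = 0 := by
  obtain ⟨h1, h2⟩ := h _ _ hz
  exact Complex.ext h1 h2

/-- the image of a plane curve under a linear map -/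
noncomputable def PlaneCurve.knot (V : PlaneCurve) {a b : E3} (h : LI2 a b) : Knot where
  c u := lin a b (V.v u)
  smooth := (lin a b).contDiff.comp V.smooth
  reg t := by
    have e : deriv (fun t : ℝ => lin a b (V.v (Circle.exp t))) t =
        lin a b (deriv (fun t : ℝ => V.v (Circle.exp t)) t) :=
      ((lin a b).hasFDerivAt.comp_hasDerivAt t (V.hasDeriv t)).deriv
    rw [e]
    exact fun h0 => V.reg t (lin_eq_zero h h0)
  inj u v huv := by
    apply V.inj
    have h1 : lin a b (V.v u - V.v v) = 0 := by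
      rw [map_sub]; exact sub_eq_zero.2 huv
    exact sub_eq_zero.1 (lin_eq_zero h h1)

theorem PlaneCurve.deriv_knot (V : PlaneCurve) {a b : E3} (h : LI2 a b) (t : ℝ) :
    deriv (fun t : ℝ => (V.knot h).c (Circle.exp t)) t =
      lin a b (deriv (fun t : ℝ => V.v (Circle.exp t)) t) :=
  ((lin a b).hasFDerivAt.comp_hasDerivAt t (V.hasDeriv t)).deriv

theorem lin_line (a b a' b' : E3) (s : ℝ) (z : ℂ) : (1 - s) • lin a b z + s • lin a' b' z =
    lin ((1 - s) • a + s • a') ((1 - s) • b + s • b') z := by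
  simp only [lin_apply]
  module

theorem PlaneCurve.iso (V : PlaneCurve) {a b a' b' : E3} (h : LI2 a b) (h' : LI2 a' b')
    (hs : ∀ s ∈ Icc (0 : ℝ) 1, LI2 ((1 - s) • a + s • a') ((1 - s) • b + s • b')) :
    AmbientIsotopic (V.knot h) (V.knot h') := by
  refine iso_line _ _ (fun s hs' u v huv h0 => ?_) (fun s hs' t h0 => ?_)
  · have e : (1 - s) • (lin a b (V.v u) - lin a b (V.v v)) +
        s • (lin a' b' (V.v u) - lin a' b' (V.v v)) = 0 := h0
    rw [← map_sub, ← map_sub, lin_line] at e
    exact huv (V.inj (sub_eq_zero.1 (lin_eq_zero (hs s hs') e)))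
  · rw [V.deriv_knot, V.deriv_knot, lin_line] at h0
    exact V.reg t (lin_eq_zero (hs s hs') h0)

theorem LI2.symm {a b : E3} (h : LI2 a b) : LI2 b a := fun x y hxy => by
  obtain ⟨h1, h2⟩ := h y x (by rw [add_comm]; exact hxy)
  exact ⟨h2, h1⟩

/-- moving the second vector out of the plane -/
theorem li_move {a b n : E3} (h : LI2 a b) (hn : n ∉ Submodule.span ℝ {a, b}) {s : ℝ} :
    LI2 a ((1 - s) • b + s • n) := by
  intro x y hxy
  by_cases hys : y * s = 0
  · rcases mul_eq_zero.1 hys with h0 | h0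
    · rw [h0, zero_smul, add_zero] at hxy
      have := h x 0 (by rw [zero_smul, add_zero]; exact hxy)
      exact ⟨this.1, h0⟩
    · rw [h0] at hxy
      refine h x y ?_
      rw [← hxy]
      module
  · exfalso
    apply hn
    rw [Submodule.mem_span_pair]
    refine ⟨-(y * s)⁻¹ * x, -(y * s)⁻¹ * (y * (1 - s)), ?_⟩
    have h1 : (y * s) • n = -(x • a + (y * (1 - s)) • b) := by
      rw [eq_neg_iff_add_eq_zero, ← hxy]
      module
    have h2 : n = (y * s)⁻¹ • ((y * s) • n) := by rw [smul_smul, inv_mul_cancel₀ hys, one_smul]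
    rw [h2, h1]
    module

theorem li_new {a b n : E3} (h : LI2 a b) (hn : n ∉ Submodule.span ℝ {a, b}) : LI2 a n := by
  have := li_move h hn (s := 1)
  rwa [sub_self, zero_smul, zero_add, one_smul] at this

theorem not_mem_of_li {a n : E3} (ha : n ∉ Submodule.span ℝ {a}) (ha0 : a ≠ 0) : LI2 a n := by
  intro x y hxy
  by_cases hy : y = 0
  · rw [hy, zero_smul, add_zero] at hxy
    exact ⟨(smul_eq_zero.1 hxy).resolve_right ha0, hy⟩
  · exfalso
    apply ha
    rw [Submodule.mem_span_singleton]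
    refine ⟨-y⁻¹ * x, ?_⟩
    have h1 : y • n = -(x • a) := by rw [eq_neg_iff_add_eq_zero, ← hxy]; module
    have h2 : n = y⁻¹ • (y • n) := by rw [smul_smul, inv_mul_cancel₀ hy, one_smul]
    rw [h2, h1]
    module

theorem span_pair_ne_top (a b : E3) : Submodule.span ℝ {a, b} ≠ ⊤ := by
  intro h
  have h1 : Module.finrank ℝ (Submodule.span ℝ ({a, b} : Set E3)) ≤ 2 := by
    classical
    have := finrank_span_finset_le_card (R := ℝ) (M := E3) {a, b}
    refine le_trans (le_of_eq ?_) (this.trans (Finset.card_le_two))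
    unfold Set.finrank
    rw [Finset.coe_pair]
  rw [h, finrank_top, finrank_euclideanSpace_fin] at h1
  omega

theorem exists_generic (a b a' b' a'' b'' : E3) : ∃ n : E3, n ∉ Submodule.span ℝ {a, b} ∧
    n ∉ Submodule.span ℝ {a', b'} ∧ n ∉ Submodule.span ℝ {a'', b''} := by
  classical
  have h := Subspace.biUnion_ne_univ_of_top_notMem (k := ℝ) (E := E3)
    (s := {Submodule.span ℝ {a, b}, Submodule.span ℝ {a', b'}, Submodule.span ℝ {a'', b''}}) (by
      simp only [Finset.mem_insert, Finset.mem_singleton, not_or]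
      exact ⟨(span_pair_ne_top _ _).symm, (span_pair_ne_top _ _).symm, (span_pair_ne_top _ _).symm⟩)
  rw [Ne, Set.eq_univ_iff_forall, not_forall] at h
  obtain ⟨n, hn⟩ := h
  simp only [Finset.mem_insert, Finset.mem_singleton, mem_iUnion, not_exists] at hn
  exact ⟨n, fun h => hn _ (Or.inl rfl) h, fun h => hn _ (Or.inr (Or.inl rfl)) h,
    fun h => hn _ (Or.inr (Or.inr rfl)) h⟩

/-- all the linear images of a plane curve are isotopic -/
theorem PlaneCurve.iso_all (V : PlaneCurve) {a b a' b' : E3} (h : LI2 a b) (h' : LI2 a' b') :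
    AmbientIsotopic (V.knot h) (V.knot h') := by
  have hb' : b' ≠ 0 := fun h0 => by
    have := (h' 0 1 (by rw [h0, smul_zero, zero_smul, add_zero])).2
    exact one_ne_zero this
  obtain ⟨m, hm1, hm2, -⟩ := exists_generic a b b' b' a b
  rw [Set.pair_eq_singleton] at hm2
  obtain ⟨n, hn1, hn2, hn3⟩ := exists_generic a m b' a' m b'
  have k1 : LI2 a m := li_new h hm1
  have k2 : LI2 b' m := not_mem_of_li hm2 hb'
  have k3 : LI2 m n := li_new k1.symm (by rw [Set.pair_comm]; exact hn1)
  have k4 : LI2 b' n := li_new h'.symm hn2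
  -- `m` does not lie in the span of `n` and `b'`
  have hm3 : m ∉ Submodule.span ℝ {n, b'} := by
    intro h0
    rw [Submodule.mem_span_pair] at h0
    obtain ⟨x, y, hxy⟩ := h0
    by_cases hx : x = 0
    · apply hm2
      rw [Submodule.mem_span_singleton]
      exact ⟨y, by rw [← hxy, hx, zero_smul, zero_add]⟩
    · apply hn3
      rw [Submodule.mem_span_pair]
      refine ⟨x⁻¹, -x⁻¹ * y, ?_⟩
      have h2 : n = x⁻¹ • (x • n) := by rw [smul_smul, inv_mul_cancel₀ hx, one_smul]
      have h3 : x • n = m - y • b' := by rw [← hxy]; module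
      rw [h2, h3]
      module
  -- (a, b) → (a, m)
  have s1 : AmbientIsotopic (V.knot h) (V.knot k1) := by
    refine V.iso h k1 fun s hs => ?_
    have e : (1 - s) • a + s • a = a := by module
    rw [e]
    exact li_move h hm1
  -- (a, m) → (n, m)
  have s2 : AmbientIsotopic (V.knot k1) (V.knot k3.symm) := by
    refine V.iso k1 k3.symm fun s hs => ?_
    have e : (1 - s) • m + s • m = m := by module
    rw [e]
    exact (li_move k1.symm (by rw [Set.pair_comm]; exact hn1)).symm
  -- (n, m) → (n, b')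
  have s3 : AmbientIsotopic (V.knot k3.symm) (V.knot k4.symm) := by
    refine V.iso k3.symm k4.symm fun s hs => ?_
    have e : (1 - s) • n + s • n = n := by module
    rw [e]
    have := li_move k4.symm hm3 (s := 1 - s)
    rw [sub_sub_cancel, add_comm] at this
    exact this
  -- (n, b') → (a', b')
  have s4 : AmbientIsotopic (V.knot k4.symm) (V.knot h') := by
    refine V.iso k4.symm h' fun s hs => ?_
    have e : (1 - s) • b' + s • b' = b' := by module
    rw [e]
    have := li_move h'.symm hn2 (s := 1 - s)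
    rw [sub_sub_cancel, add_comm] at this
    exact this.symm
  exact ((s1.trans s2).trans s3).trans s4

end Pool.Agent.Run7.h233.MC
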