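import Pool.Agent.Run7.h233.MC.Disc3

/-!
Small level curves around a nondegenerate maximum are unknotted: abstract form.
-/

set_option autoImplicit false

namespace Pool.Agent.Run7.h233.MC

open scoped ContDiff RealInnerProductSpace Topology
open Set Metric Filter

/-- The knot is isotopic to a knot whose image is the unit circle of the plane `x₂ = 0`. -/
def Unknotted (K : Knot) : Prop :=
  ∃ M : Knot, AmbientIsotopic K M ∧ range M.c = {x : E3 | x 0 ^ 2 + x 1 ^ 2 = 1 ∧ x 2 = 0}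

theorem ray_mono {q : ℂ → ℝ} {δ : ℝ} (hq : ∀ w ∈ ball (0 : ℂ) δ, DifferentiableAt ℝ q w)
    (hq' : ∀ w ∈ ball (0 : ℂ) δ, w ≠ 0 → 0 < fderiv ℝ q w w) {w : ℂ} (hw : w ∈ ball (0 : ℂ) δ)
    (hw0 : w ≠ 0) {l : ℝ} (hl0 : 0 ≤ l) (hl : l < 1) : q (l • w) < q w := by
  have hmem : ∀ t ∈ Icc l 1, t • w ∈ ball (0 : ℂ) δ := fun t ht => by
    rw [mem_ball_zero_iff] at hw ⊢
    rw [norm_smul, Real.norm_eq_abs, abs_of_nonneg (hl0.trans ht.1)]
    nlinarith [norm_nonneg w, ht.2]
  have hd : ∀ t ∈ Icc l 1, HasDerivAt (fun t : ℝ => q (t • w)) (fderiv ℝ q (t • w) w) t := by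
    intro t ht
    have h1 : HasDerivAt (fun t : ℝ => t • w) w t := by
      have := (hasDerivAt_id t).smul_const w
      simpa using this
    exact (hq _ (hmem t ht)).hasFDerivAt.comp_hasDerivAt t h1
  have hmono : StrictMonoOn (fun t : ℝ => q (t • w)) (Icc l 1) := by
    refine strictMonoOn_of_deriv_pos (convex_Icc l 1)
      (fun t ht => (hd t ht).continuousAt.continuousWithinAt) fun t ht => ?_
    have ht' := interior_subset ht
    rw [interior_Icc] at ht
    rw [(hd t ht').deriv]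
    have ht0 : 0 < t := lt_of_le_of_lt hl0 ht.1
    have h1 := hq' _ (hmem t ht') (smul_ne_zero ht0.ne' hw0)
    rw [map_smul, smul_eq_mul] at h1
    exact (mul_pos_iff_of_pos_left ht0).1 h1
  have := hmono (left_mem_Icc.2 hl.le) (right_mem_Icc.2 hl.le) hl
  simpa using this

theorem cap_unknot {N : Knot} {f : ℂ → E3} {q : ℂ → ℝ} {D : ℂ →L[ℝ] E3} {κ δ η : ℝ} (hκ : 0 < κ)
    (hD : ∀ v, κ * ‖v‖ ≤ ‖D v‖) (hf : ∀ w ∈ ball (0 : ℂ) δ, DifferentiableAt ℝ f w)
    (hfD : ∀ w ∈ ball (0 : ℂ) δ, ∀ w' ∈ ball (0 : ℂ) δ,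
      ‖f w - f w' - D (w - w')‖ ≤ κ / 2 * ‖w - w'‖)
    (hq : ∀ w ∈ ball (0 : ℂ) δ, DifferentiableAt ℝ q w)
    (hq' : ∀ w ∈ ball (0 : ℂ) δ, w ≠ 0 → 0 < fderiv ℝ q w w) (hη : q 0 ≠ η) {w : Circle → ℂ}
    (hws : ContDiff ℝ ∞ fun t : ℝ => w (Circle.exp t)) (hwδ : ∀ u, w u ∈ ball (0 : ℂ) δ)
    (hwN : ∀ u, N.c u = f (w u)) (hwq : ∀ u, q (w u) = η)
    (hdir : ∀ v : ℂ, ‖v‖ = 1 → ∃ u, w u = ‖w u‖ • v) : Unknotted N := by
  have hw0 : ∀ u, w u ≠ 0 := fun u h => hη (by rw [← h]; exact hwq u)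
  have hwi : Function.Injective w := fun u v h => N.inj (by rw [hwN, hwN, h])
  have hfd : ∀ x ∈ ball (0 : ℂ) δ, ∀ v, ‖fderiv ℝ f x v - D v‖ ≤ κ / 2 * ‖v‖ := by
    intro x hx v
    have h1 : HasFDerivAt (fun y => f y - D y) (fderiv ℝ f x - D) x :=
      (hf x hx).hasFDerivAt.sub D.hasFDerivAt
    have h2 : LipschitzOnWith (Real.toNNReal (κ / 2)) (fun y => f y - D y) (ball (0 : ℂ) δ) := by
      refine LipschitzOnWith.of_dist_le_mul fun a ha b hb => ?_
      rw [dist_eq_norm, dist_eq_norm, Real.coe_toNNReal _ (by positivity)]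
      have h3 := hfD a ha b hb
      rw [map_sub] at h3
      have e : f a - D a - (f b - D b) = f a - f b - (D a - D b) := by abel
      rw [e]
      exact h3
    have h3 := h1.le_of_lipschitzOn (isOpen_ball.mem_nhds hx) h2
    rw [Real.coe_toNNReal _ (by positivity)] at h3
    have h4 := (fderiv ℝ f x - D).le_of_opNorm_le h3 v
    exact h4
  have hwd : ∀ t : ℝ, HasDerivAt (fun t : ℝ => w (Circle.exp t))
      (deriv (fun t : ℝ => w (Circle.exp t)) t) t := fun t =>
    (hws.differentiable (by simp) t).hasDerivAt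
  have hNd : ∀ t : ℝ, deriv (fun t : ℝ => N.c (Circle.exp t)) t =
      fderiv ℝ f (w (Circle.exp t)) (deriv (fun t : ℝ => w (Circle.exp t)) t) := fun t => by
    have h1 := (hf _ (hwδ (Circle.exp t))).hasFDerivAt.comp_hasDerivAt t (hwd t)
    have h2 : (fun t : ℝ => N.c (Circle.exp t)) = f ∘ fun t : ℝ => w (Circle.exp t) := by
      funext s
      exact hwN _
    rw [h2]
    exact h1.deriv
  have hwr : ∀ t : ℝ, deriv (fun t : ℝ => w (Circle.exp t)) t ≠ 0 := fun t h0 => by
    apply N.reg t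
    rw [hNd t, h0, map_zero]
  -- transversality
  have hpar : ∀ (t c : ℝ), deriv (fun t : ℝ => w (Circle.exp t)) t ≠ c • w (Circle.exp t) := by
    intro t c hc
    have h1 := (hq _ (hwδ (Circle.exp t))).hasFDerivAt.comp_hasDerivAt t (hwd t)
    have h2 : (q ∘ fun t : ℝ => w (Circle.exp t)) = fun _ => η := by
      funext s
      exact hwq _
    rw [h2] at h1
    have h3 := h1.unique (hasDerivAt_const t η)
    rw [hc, map_smul, smul_eq_mul] at h3
    have h4 := hq' _ (hwδ (Circle.exp t)) (hw0 _)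
    rcases mul_eq_zero.1 h3 with h5 | h5
    · apply hwr t
      rw [hc, h5, zero_smul]
    · exact h4.ne' h5
  obtain ⟨n, hn⟩ : ∃ n : ℝ → ℝ, n = fun t => ‖w (Circle.exp t)‖ := ⟨_, rfl⟩
  have hnpos : ∀ t, 0 < n t := fun t => by rw [hn]; exact norm_pos_iff.2 (hw0 _)
  have hns : ContDiff ℝ ∞ n := by
    rw [hn]
    exact hws.norm ℝ fun t => hw0 _
  obtain ⟨v, hv⟩ : ∃ v : Circle → ℂ, v = fun u => (‖w u‖⁻¹ : ℝ) • w u := ⟨_, rfl⟩
  have hvn : ∀ u, ‖v u‖ = 1 := fun u => by
    rw [hv]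
    show ‖(‖w u‖⁻¹ : ℝ) • w u‖ = 1
    rw [norm_smul, norm_inv, norm_norm]
    exact inv_mul_cancel₀ (norm_ne_zero_iff.2 (hw0 u))
  have hwv : ∀ u, w u = ‖w u‖ • v u := fun u => by
    rw [hv]
    show w u = ‖w u‖ • (‖w u‖⁻¹ : ℝ) • w u
    rw [smul_smul, mul_inv_cancel₀ (norm_ne_zero_iff.2 (hw0 u)), one_smul]
  have hvs : ContDiff ℝ ∞ fun t : ℝ => v (Circle.exp t) := by
    rw [hv]
    have h1 : ContDiff ℝ ∞ fun t : ℝ => (n t)⁻¹ := hns.inv fun t => (hnpos t).ne'
    have h2 := h1.smul hws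
    rw [hn] at h2
    exact h2
  have hvd : ∀ t : ℝ, HasDerivAt (fun t : ℝ => v (Circle.exp t))
      (deriv (fun t : ℝ => v (Circle.exp t)) t) t := fun t =>
    (hvs.differentiable (by simp) t).hasDerivAt
  have hwv' : ∀ t : ℝ, deriv (fun t : ℝ => w (Circle.exp t)) t =
      n t • deriv (fun t : ℝ => v (Circle.exp t)) t + deriv n t • v (Circle.exp t) := by
    intro t
    have h1 : HasDerivAt n (deriv n t) t := (hns.differentiable (by simp) t).hasDerivAt
    have h2 := h1.smul (hvd t)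
    have h3 : (fun t : ℝ => w (Circle.exp t)) = n • fun t : ℝ => v (Circle.exp t) := by
      funext s
      rw [hn]
      exact hwv _
    rw [h3]
    exact h2.deriv
  have hvr : ∀ (t c : ℝ), deriv (fun t : ℝ => v (Circle.exp t)) t ≠ c • v (Circle.exp t) := by
    intro t c hc
    apply hpar t (c + deriv n t / n t)
    rw [hwv', hc, hwv (Circle.exp t)]
    have e : ‖w (Circle.exp t)‖ = n t := by rw [hn]
    rw [e, smul_smul, smul_smul, ← add_smul]
    congr 1
    field_simp [(hnpos t).ne']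
  have key : ∀ u u', ‖w u‖ ≤ ‖w u'‖ → v u = v u' → u = u' := by
    intro u u' hle huu
    by_contra hne
    have hpos' : 0 < ‖w u'‖ := norm_pos_iff.2 (hw0 u')
    have h1 : w u = (‖w u‖ / ‖w u'‖) • w u' := by
      calc w u = ‖w u‖ • v u := hwv u
        _ = ‖w u‖ • v u' := by rw [huu]
        _ = (‖w u‖ / ‖w u'‖) • (‖w u'‖ • v u') := by rw [smul_smul, div_mul_cancel₀ _ hpos'.ne']
        _ = (‖w u‖ / ‖w u'‖) • w u' := by rw [← hwv u']
    rcases eq_or_lt_of_le hle with h2 | h2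
    · apply hne
      apply hwi
      rw [h1, h2, div_self hpos'.ne', one_smul]
    · have h3 := ray_mono hq hq' (hwδ u') (hw0 u') (l := ‖w u‖ / ‖w u'‖) (by positivity)
        ((div_lt_one hpos').2 h2)
      rw [← h1, hwq, hwq] at h3
      exact lt_irrefl _ h3
  have hvi : Function.Injective v := by
    intro u u' huu
    rcases le_total ‖w u‖ ‖w u'‖ with h | h
    · exact key u u' h huu
    · exact (key u' u h huu.symm).symm
  -- the plane curves
  let W : PlaneCurve := ⟨w, hws, hwr, hwi⟩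
  let V : PlaneCurve := ⟨v, hvs, fun t h0 => hvr t 0 (by rw [zero_smul]; exact h0), hvi⟩
  have hDl : ∀ z : ℂ, lin (D 1) (D Complex.I) z = D z := by
    intro z
    rw [lin_apply, ← map_smul, ← map_smul, ← map_add]
    congr 1
    apply Complex.ext <;> simp
  have hDi : ∀ z : ℂ, D z = 0 → z = 0 := by
    intro z hz
    have := hD z
    rw [hz, norm_zero] at this
    have h1 : ‖z‖ ≤ 0 := by
      by_contra hc
      push Not at hc
      have : 0 < κ * ‖z‖ := mul_pos hκ hc
      linarith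
    exact norm_le_zero_iff.1 h1
  have hLI : LI2 (D 1) (D Complex.I) := by
    intro x y hxy
    have h1 : D (⟨x, y⟩ : ℂ) = 0 := by
      rw [← hDl, lin_apply]
      exact hxy
    have h2 := hDi _ h1
    exact ⟨congrArg Complex.re h2, congrArg Complex.im h2⟩
  have hI : LI2 (EuclideanSpace.single (0 : Fin 3) (1 : ℝ)) (EuclideanSpace.single (1 : Fin 3) 1) := by
    intro x y hxy
    have h0 := congrArg (fun z : E3 => z 0) hxy
    have h1 := congrArg (fun z : E3 => z 1) hxy
    simp at h0 h1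
    exact ⟨h0, h1⟩
  -- step 1
  have s1 : AmbientIsotopic N (W.knot hLI) := by
    refine iso_line _ _ (fun s hs u u' huu h0 => ?_) (fun s hs t h0 => ?_)
    · have e1 : (W.knot hLI).c u - (W.knot hLI).c u' = D (w u - w u') := by
        show lin (D 1) (D Complex.I) (w u) - lin (D 1) (D Complex.I) (w u') = _
        rw [hDl, hDl, map_sub]
      rw [e1, hwN, hwN] at h0
      have h1 := hfD _ (hwδ u) _ (hwδ u')
      have h2 := hD (w u - w u')
      have h3 : D (w u - w u') = -((1 - s) • (f (w u) - f (w u') - D (w u - w u'))) := by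
        rw [eq_neg_iff_add_eq_zero, ← h0]
        module
      have h4 : ‖D (w u - w u')‖ ≤ κ / 2 * ‖w u - w u'‖ := by
        rw [h3, norm_neg, norm_smul, Real.norm_eq_abs, abs_of_nonneg (by linarith [hs.2])]
        have h5 := norm_nonneg (f (w u) - f (w u') - D (w u - w u'))
        nlinarith [hs.1, hs.2]
      have h5 : 0 < ‖w u - w u'‖ := norm_pos_iff.2 (sub_ne_zero.2 fun h => huu (hwi h))
      nlinarith
    · rw [hNd, W.deriv_knot hLI, hDl] at h0
      obtain ⟨x, hx⟩ : ∃ x, x = deriv (fun t : ℝ => w (Circle.exp t)) t := ⟨_, rfl⟩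
      have h0' : (1 - s) • fderiv ℝ f (w (Circle.exp t)) x + s • D x = 0 := by
        rw [hx]; exact h0
      have h1 := hfd _ (hwδ (Circle.exp t)) x
      have h2 := hD x
      have h3 : D x = -((1 - s) • (fderiv ℝ f (w (Circle.exp t)) x - D x)) := by
        rw [eq_neg_iff_add_eq_zero, ← h0']
        module
      have h4 : ‖D x‖ ≤ κ / 2 * ‖x‖ := by
        rw [h3, norm_neg, norm_smul, Real.norm_eq_abs, abs_of_nonneg (by linarith [hs.2])]
        have h5 := norm_nonneg (fderiv ℝ f (w (Circle.exp t)) x - D x)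
        nlinarith [hs.1, hs.2]
      have h5 : 0 < ‖x‖ := norm_pos_iff.2 (by rw [hx]; exact hwr t)
      nlinarith
  -- step 2
  have s2 : AmbientIsotopic (W.knot hLI) (V.knot hLI) := by
    refine iso_line _ _ (fun s hs u u' huu h0 => ?_) (fun s hs t h0 => ?_)
    · have e1 : (1 - s) • ((W.knot hLI).c u - (W.knot hLI).c u') +
          s • ((V.knot hLI).c u - (V.knot hLI).c u') =
          D ((1 - s) • (w u - w u') + s • (v u - v u')) := by
        show (1 - s) • (lin (D 1) (D Complex.I) (w u) - lin (D 1) (D Complex.I) (w u')) +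
          s • (lin (D 1) (D Complex.I) (v u) - lin (D 1) (D Complex.I) (v u')) = _
        rw [hDl, hDl, hDl, hDl, map_add, map_smul, map_smul, map_sub, map_sub]
      rw [e1] at h0
      have h1 := hDi _ h0
      have h2 : ((1 - s) * ‖w u‖ + s) • v u = ((1 - s) * ‖w u'‖ + s) • v u' := by
        have h3 : (1 - s) • (‖w u‖ • v u - ‖w u'‖ • v u') + s • (v u - v u') = 0 := by
          rw [← hwv u, ← hwv u']; exact h1
        rw [← sub_eq_zero, ← h3]
        module
      have hp : ∀ x, 0 < (1 - s) * ‖w x‖ + s := fun x => by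
        have h4 : 0 < ‖w x‖ := norm_pos_iff.2 (hw0 x)
        rcases eq_or_lt_of_le hs.1 with h5 | h5
        · rw [← h5]; linarith
        · have : 0 ≤ (1 - s) * ‖w x‖ := mul_nonneg (by linarith [hs.2]) h4.le
          linarith
      have h3 : (1 - s) * ‖w u‖ + s = (1 - s) * ‖w u'‖ + s := by
        have := congrArg norm h2
        rw [norm_smul, norm_smul, hvn, hvn, Real.norm_eq_abs, Real.norm_eq_abs,
          abs_of_pos (hp u), abs_of_pos (hp u'), mul_one, mul_one] at this
        exact this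
      rw [h3] at h2
      exact huu (hvi (smul_right_injective _ (hp u').ne' h2))
    · rw [W.deriv_knot hLI, V.deriv_knot hLI, hDl, hDl, ← map_smul, ← map_smul, ← map_add] at h0
      have h1 : (1 - s) • deriv (fun t : ℝ => w (Circle.exp t)) t +
          s • deriv (fun t : ℝ => v (Circle.exp t)) t = 0 := hDi _ h0
      rw [hwv'] at h1
      have hp : 0 < (1 - s) * n t + s := by
        have h4 := hnpos t
        rcases eq_or_lt_of_le hs.1 with h5 | h5
        · rw [← h5]; linarith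
        · have : 0 ≤ (1 - s) * n t := mul_nonneg (by linarith [hs.2]) h4.le
          linarith
      apply hvr t (-((1 - s) * n t + s)⁻¹ * ((1 - s) * deriv n t))
      have h2 : ((1 - s) * n t + s) • deriv (fun t : ℝ => v (Circle.exp t)) t =
          -(((1 - s) * deriv n t) • v (Circle.exp t)) := by
        rw [eq_neg_iff_add_eq_zero, ← h1]
        module
      have h3 : deriv (fun t : ℝ => v (Circle.exp t)) t = ((1 - s) * n t + s)⁻¹ •
          (((1 - s) * n t + s) • deriv (fun t : ℝ => v (Circle.exp t)) t) := by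
        rw [smul_smul, inv_mul_cancel₀ hp.ne', one_smul]
      rw [h3, h2]
      module
  refine ⟨V.knot hI, (s1.trans s2).trans (V.iso_all hLI hI), ?_⟩
  ext x
  constructor
  · rintro ⟨u, rfl⟩
    have e : (V.knot hI).c u = (v u).re • EuclideanSpace.single (0 : Fin 3) (1 : ℝ) +
        (v u).im • EuclideanSpace.single (1 : Fin 3) (1 : ℝ) := rfl
    have h1 := hvn u
    have h2 : (v u).re ^ 2 + (v u).im ^ 2 = 1 := by
      have := Complex.sq_norm (v u)
      rw [h1, Complex.normSq_apply] at this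
      nlinarith
    rw [e]
    refine ⟨?_, ?_⟩
    · simpa using h2
    · simp
  · rintro ⟨hx1, hx2⟩
    have hz : ‖(⟨x 0, x 1⟩ : ℂ)‖ = 1 := by
      have := Complex.sq_norm (⟨x 0, x 1⟩ : ℂ)
      rw [Complex.normSq_apply] at this
      have h0 := norm_nonneg (⟨x 0, x 1⟩ : ℂ)
      have h2 : ‖(⟨x 0, x 1⟩ : ℂ)‖ ^ 2 = 1 := by
        rw [this, ← hx1]
        ring
      nlinarith
    obtain ⟨u, hu⟩ := hdir _ hz
    have hvu : v u = ⟨x 0, x 1⟩ := by
      have h1 : 0 < ‖w u‖ := norm_pos_iff.2 (hw0 u)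
      refine smul_right_injective _ h1.ne' ?_
      show ‖w u‖ • v u = ‖w u‖ • (⟨x 0, x 1⟩ : ℂ)
      rw [← hwv u]
      exact hu
    refine ⟨u, ?_⟩
    have e : (V.knot hI).c u = (v u).re • EuclideanSpace.single (0 : Fin 3) (1 : ℝ) +
        (v u).im • EuclideanSpace.single (1 : Fin 3) (1 : ℝ) := rfl
    rw [e, hvu]
    ext i
    fin_cases i
    · simp
    · simp
    · simp [hx2]

end Pool.Agent.Run7.h233.MC
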