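import Pool.Agent.Run7.h233.MC.Disc2
import Pool.Agent.Run7.h233.MC.Disc4

/-!
A knot which bounds a disc whose height has one critical point is unknotted.
-/

set_option autoImplicit false

namespace Pool.Agent.Run7.h233.MC

open scoped ContDiff RealInnerProductSpace Topology
open Set Metric Filter
open Pool.Agent.Y503.RB Pool.Agent.N503.ML Pool.Agent.N15.RC Pool.Agent.N15.SF

theorem OneMax.uniq {F : Set E4} {H : ℝ} {p₀ : E4} (h : OneMax F H p₀) {x : E4} (hx : x ∈ F)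
    (hx3 : x 3 = p₀ 3) : x = p₀ := by
  by_contra hne
  have hxo : x ∈ oslab H := by
    have := h.mem.2
    exact ⟨by rw [hx3]; exact this.1, by rw [hx3]; exact this.2⟩
  obtain ⟨φ, U, V, z, hE, hV, hxV, hFV, hz, hzx, hnd⟩ := h.reg x ⟨hx, hxo⟩ hne
  apply hnd
  refine IsLocalMax.fderiv_eq_zero ?_
  filter_upwards [hE.isOpen.mem_nhds hz] with w hw
  have h1 : φ w ∈ F := by
    have : φ w ∈ F ∩ V := by rw [hFV]; exact ⟨w, hw, rfl⟩
    exact this.1
  rw [hzx, hx3]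
  exact h.max _ h1

/-- negative definiteness at a nondegenerate maximum -/
theorem sff_neg {F V : Set E4} {φ : ℂ → E4} {U : Set ℂ} (hE : EPatch φ U)
    (hF : F ∩ V = φ '' U) {z : ℂ} (hz : z ∈ U)
    (hM : fderiv ℝ (fun w => φ w 3) z = 0 → ∀ u : ℂ,
      (∀ v : ℂ, fderiv ℝ (fderiv ℝ (fun w => φ w 3)) z u v = 0) → u = 0)
    (hcr : fderiv ℝ (fun w => φ w 3) z = 0) (hmax : ∀ x ∈ F, x 3 ≤ φ z 3) {v : ℂ} (hv : v ≠ 0) :
    sff φ vert v v z < 0 := by
  have hU := hE.isOpen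
  have hs := hE.smooth
  have hsm : ContDiffAt ℝ ∞ φ z := hs.contDiffAt (hU.mem_nhds hz)
  have hcr' : ∀ v : ℂ, ⟪vert, d1 φ v z⟫ = 0 := by
    intro v
    rw [← (hess hsm vert 0).1 v, ← height_eq, hcr]
    rfl
  have hk : kdet φ vert z ≠ 0 := NEAR.kdet_ne' hsm hM hcr'
  have hcr2 : ∀ v : ℂ, ⟪-vert, d1 φ v z⟫ = 0 := fun v => by
    rw [inner_neg_left, hcr' v, neg_zero]
  have hsemi : ∀ w, sff φ vert w w z ≤ 0 := by
    intro w
    by_contra hc
    push Not at hc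
    have hw' : sff φ (-vert) w w z < 0 := by
      unfold sff at hc ⊢
      rw [inner_neg_left]
      linarith
    obtain ⟨ε, e1, e2⟩ := line_two hU hs hz hcr2 hw'
    have hl : Tendsto (fun t : ℝ => z + t • w) (𝓝[>] 0) (𝓝 z) := by
      have h1 : Tendsto (fun t : ℝ => z + t • w) (𝓝 0) (𝓝 (z + (0 : ℝ) • w)) :=
        (by fun_prop : Continuous fun t : ℝ => z + t • w).tendsto 0
      rw [zero_smul, add_zero] at h1
      exact h1.mono_left nhdsWithin_le_nhds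
    have h2 : ∀ᶠ t : ℝ in 𝓝[>] 0, t ≤ ε := nhdsWithin_le_nhds (ge_mem_nhds e1)
    obtain ⟨t, ⟨ht1, ht2⟩, ht3⟩ :=
      (((hl.eventually (hU.mem_nhds hz)).and h2).and self_mem_nhdsWithin).exists
    have ht3' : 0 < t := ht3
    have h3 := e2 t (by rw [abs_of_pos ht3']; exact ht3') (by rw [abs_of_pos ht3']; exact ht2)
    simp only [inner_neg_left, inner_vert] at h3
    have h4 : φ (z + t • w) ∈ F := by
      have : φ (z + t • w) ∈ F ∩ V := by rw [hF]; exact ⟨_, ht1, rfl⟩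
      exact this.1
    have := hmax _ h4
    linarith
  obtain ⟨a, b⟩ := neg_of_semidef hsm hsemi hk
  rw [sff_quad hsm]
  unfold kdet at b
  obtain ⟨e, he⟩ : ∃ e, e = sff φ vert 1 1 z := ⟨_, rfl⟩
  obtain ⟨f, hf⟩ : ∃ f, f = sff φ vert 1 Complex.I z := ⟨_, rfl⟩
  obtain ⟨g, hg⟩ : ∃ g, g = sff φ vert Complex.I Complex.I z := ⟨_, rfl⟩
  rw [← he, ← hf, ← hg] at b ⊢
  rw [← he] at a
  by_cases hi : v.im = 0
  · have hr : v.re ≠ 0 := fun h => hv (Complex.ext h hi)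
    have h1 : 0 < v.re ^ 2 := by positivity
    rw [hi]
    nlinarith
  · have h1 : 0 < v.im ^ 2 := by positivity
    have h2 : e * (v.re ^ 2 * e + 2 * v.re * v.im * f + v.im ^ 2 * g) =
        (e * v.re + f * v.im) ^ 2 + (e * g - f ^ 2) * v.im ^ 2 := by ring
    have h3 : 0 < e * (v.re ^ 2 * e + 2 * v.re * v.im * f + v.im ^ 2 * g) := by
      rw [h2]
      nlinarith [sq_nonneg (e * v.re + f * v.im)]
    by_contra hc
    push Not at hc
    nlinarith

theorem unknot_of_oneMax {K : Knot} {F : Set E4} {H : ℝ} (hC : Cob F H) (hM : MorseF F H)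
    (hK : F ∩ {x | x 3 = 0} = inc '' range K.c) {p₀ : E4} (h1 : OneMax F H p₀) : Unknotted K := by
  obtain ⟨φ, U, V, z, hE, hV, hpV, hFV, hz, hzp, hnd⟩ := hM p₀ h1.mem
  have hmax : ∀ x ∈ F, x 3 ≤ φ z 3 := by rw [hzp]; exact h1.max
  have hsm : ContDiffAt ℝ ∞ φ z := hE.smooth.contDiffAt (hE.isOpen.mem_nhds hz)
  have hUF : ∀ w ∈ U, φ w ∈ F := fun w hw => by
    have : φ w ∈ F ∩ V := by rw [hFV]; exact ⟨w, hw, rfl⟩
    exact this.1
  have hcr : fderiv ℝ (fun w => φ w 3) z = 0 := by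
    refine IsLocalMax.fderiv_eq_zero ?_
    filter_upwards [hE.isOpen.mem_nhds hz] with w hw
    exact hmax _ (hUF w hw)
  have hinjU : InjOn φ U := fun a ha b hb hab => by
    have := hE.emb.injective (a₁ := ⟨a, ha⟩) (a₂ := ⟨b, hb⟩) hab
    exact congrArg Subtype.val this
  obtain ⟨ρ, W, U₁, hW, hzW, hρ, hρU, hU₁, hzU₁, hU₁U, hρφ⟩ := exists_ret hE hz
  -- the map to three-space and the height
  obtain ⟨f, hf⟩ : ∃ f : ℂ → E3, f = fun w => prj (φ (z + w)) := ⟨_, rfl⟩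
  obtain ⟨q, hq⟩ : ∃ q : ℂ → ℝ, q = fun w => p₀ 3 - φ (z + w) 3 := ⟨_, rfl⟩
  obtain ⟨D, hD⟩ : ∃ D : ℂ →L[ℝ] E3, D = prj.comp (fderiv ℝ φ z) := ⟨_, rfl⟩
  have hsh : ContDiff ℝ ∞ fun w : ℂ => z + w := contDiff_const.add contDiff_id
  have hzw : ∀ w : ℂ, z + w ∈ U → ContDiffAt ℝ ∞ (fun w => φ (z + w)) w := fun w hw =>
    (hE.smooth.contDiffAt (hE.isOpen.mem_nhds hw)).comp w hsh.contDiffAt
  have hfs : ∀ w : ℂ, z + w ∈ U → ContDiffAt ℝ ∞ f w := fun w hw => by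
    rw [hf]
    exact prj.contDiff.contDiffAt.comp w (hzw w hw)
  have hqs : ∀ w : ℂ, z + w ∈ U → ContDiffAt ℝ ∞ q w := fun w hw => by
    rw [hq]
    exact contDiffAt_const.sub
      ((EuclideanSpace.proj (3 : Fin 4) : E4 →L[ℝ] ℝ).contDiff.contDiffAt.comp w (hzw w hw))
  have hz0 : z + 0 ∈ U := by rw [add_zero]; exact hz
  -- the derivative of `f`
  have hfD : HasStrictFDerivAt f D 0 := by
    have h2 : HasStrictFDerivAt φ (fderiv ℝ φ z) (z + 0) := by
      rw [add_zero]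
      exact hsm.hasStrictFDerivAt (by simp)
    have h3 : HasStrictFDerivAt (fun w : ℂ => z + w) (ContinuousLinearMap.id ℝ ℂ) 0 := by
      exact (hasStrictFDerivAt_id (0 : ℂ)).const_add z
    have h4 := h2.comp (0 : ℂ) h3
    have h5 := (prj.hasStrictFDerivAt (x := φ (z + 0))).comp (0 : ℂ) h4
    rw [hf, hD]
    exact h5
  have h3D : ∀ v, (fderiv ℝ φ z v) 3 = 0 := fun v => by
    have hd : HasFDerivAt (fun w => φ w 3)
        ((EuclideanSpace.proj (3 : Fin 4) : E4 →L[ℝ] ℝ).comp (fderiv ℝ φ z)) z :=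
      (EuclideanSpace.proj (3 : Fin 4) : E4 →L[ℝ] ℝ).hasFDerivAt.comp z
        (hsm.differentiableAt (by simp)).hasFDerivAt
    have h2 := hd.fderiv
    rw [hcr] at h2
    have h3 := DFunLike.congr_fun h2 v
    exact h3.symm
  have hDi : Function.Injective D := by
    rw [injective_iff_map_eq_zero]
    intro v hv
    have h2 : prj (fderiv ℝ φ z v) = 0 := by rw [hD] at hv; exact hv
    have h3 := inc_prj (fderiv ℝ φ z v)
    rw [h2, h3D v, map_zero, zero_smul, add_zero] at h3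
    exact (injective_iff_map_eq_zero _).1 (hE.imm z hz) v h3.symm
  obtain ⟨κ, hκ, hDκ⟩ : ∃ κ : ℝ, 0 < κ ∧ ∀ v, κ * ‖v‖ ≤ ‖D v‖ := by
    obtain ⟨C, hC0, hC⟩ := D.toLinearMap.exists_antilipschitzWith (LinearMap.ker_eq_bot.2 hDi)
    refine ⟨(C : ℝ)⁻¹, by positivity, fun v => ?_⟩
    have h2 := hC.le_mul_dist v 0
    rw [map_zero, dist_zero_right, dist_zero_right] at h2
    have hC0' : (0 : ℝ) < C := by exact_mod_cast hC0
    rw [inv_mul_le_iff₀ hC0']
    exact h2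
  -- the strict estimate
  have hest : ∀ᶠ p : ℂ × ℂ in 𝓝 (0, 0), ‖f p.1 - f p.2 - D (p.1 - p.2)‖ ≤ κ / 2 * ‖p.1 - p.2‖ :=
    hfD.isLittleO.def (by positivity)
  -- the second derivative of `q`
  have hq0 : q 0 = 0 := by
    rw [hq]
    show p₀ 3 - φ (z + 0) 3 = 0
    rw [add_zero, hzp, sub_self]
  have hqd0 : fderiv ℝ q 0 = 0 := by
    refine IsLocalMin.fderiv_eq_zero ?_
    have h2 : Continuous fun w : ℂ => z + w := by fun_prop
    have h4 : Tendsto (fun w : ℂ => z + w) (𝓝 0) (𝓝 z) := by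
      have := h2.tendsto 0
      simpa using this
    have h3 : ∀ᶠ w in 𝓝 (0 : ℂ), z + w ∈ U := h4.eventually (hE.isOpen.mem_nhds hz)
    filter_upwards [h3] with w hw
    rw [hq0, hq]
    show 0 ≤ p₀ 3 - φ (z + w) 3
    linarith [h1.max _ (hUF _ hw)]
  obtain ⟨Q, hQ⟩ : ∃ Q : ℂ →L[ℝ] ℂ →L[ℝ] ℝ, Q = fderiv ℝ (fderiv ℝ q) 0 := ⟨_, rfl⟩
  have hqdd : HasFDerivAt (fderiv ℝ q) Q 0 := by
    rw [hQ]
    exact (Pool.Agent.Y640.RB.diffFderiv (hqs 0 hz0)).hasFDerivAt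
  have hQv : ∀ v, Q v v = - sff φ vert v v z := by
    intro v
    have h2 : fderiv ℝ q = fun w => - fderiv ℝ (fun w => ⟪vert, φ w⟫ + 0) (z + w) := by
      funext w
      have e : q = fun w => p₀ 3 - (fun y => ⟪vert, φ y⟫ + 0) (z + w) := by
        rw [hq]
        funext w
        show p₀ 3 - φ (z + w) 3 = p₀ 3 - (⟪vert, φ (z + w)⟫ + 0)
        rw [inner_vert, add_zero]
      have e2 := fderiv_comp_add_left (𝕜 := ℝ) (f := fun y => ⟪vert, φ y⟫ + (0 : ℝ)) (x := w) z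
      rw [e, fderiv_const_sub]
      exact congrArg Neg.neg e2
    rw [hQ, h2, fderiv_fun_neg]
    have h3 : fderiv ℝ (fun w => fderiv ℝ (fun w => ⟪vert, φ w⟫ + 0) (z + w)) 0 =
        fderiv ℝ (fderiv ℝ (fun w => ⟪vert, φ w⟫ + 0)) z := by
      have := fderiv_comp_add_left (𝕜 := ℝ) (f := fderiv ℝ (fun w => ⟪vert, φ w⟫ + (0 : ℝ))) (x := 0) z
      rw [add_zero] at this
      exact this
    rw [h3]
    show - (fderiv ℝ (fderiv ℝ (fun w => ⟪vert, φ w⟫ + 0)) z v v) = _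
    rw [(hess hsm vert 0).2 v v]
  have hQpos : ∀ v, v ≠ 0 → 0 < Q v v := fun v hv => by
    rw [hQv]
    have := sff_neg hE hFV hz hnd hcr hmax hv
    linarith
  obtain ⟨l, hl, hlQ⟩ : ∃ l : ℝ, 0 < l ∧ ∀ v, l * ‖v‖ ^ 2 ≤ Q v v := by
    have hc : Continuous fun v => Q v v := by
      have h2 : Continuous fun v => Q v := Q.continuous
      exact h2.clm_apply continuous_id
    obtain ⟨v₀, hv₀, hv₀m⟩ := (isCompact_sphere (0 : ℂ) 1).exists_isMinOn
      ⟨1, by simp⟩ hc.continuousOn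
    have hv₀n : ‖v₀‖ = 1 := by simpa using hv₀
    refine ⟨Q v₀ v₀, hQpos v₀ (by rw [← norm_pos_iff, hv₀n]; exact one_pos), fun v => ?_⟩
    by_cases hv : v = 0
    · rw [hv]; simp
    · have hvn : 0 < ‖v‖ := norm_pos_iff.2 hv
      have h2 : Q v₀ v₀ ≤ Q ((‖v‖⁻¹ : ℝ) • v) ((‖v‖⁻¹ : ℝ) • v) := by
        refine hv₀m ?_
        rw [mem_sphere_zero_iff_norm, norm_smul, norm_inv, norm_norm]
        exact inv_mul_cancel₀ hvn.ne'
      rw [map_smul, map_smul, ContinuousLinearMap.smul_apply, smul_eq_mul, smul_eq_mul] at h2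
      have h3 : ‖v‖ ^ 2 * (‖v‖⁻¹ * (‖v‖⁻¹ * Q v v)) = Q v v := by field_simp
      nlinarith [sq_nonneg ‖v‖, mul_le_mul_of_nonneg_left h2 (sq_nonneg ‖v‖)]
  have hqest : ∀ᶠ w in 𝓝 (0 : ℂ), ‖fderiv ℝ q w - Q w‖ ≤ l / 2 * ‖w‖ := by
    have h2 := hqdd.isLittleO.def (c := l / 2) (by positivity)
    filter_upwards [h2] with w hw
    rw [hqd0, sub_zero, sub_zero] at hw
    exact hw
  -- the radius
  have hU₁n : ∀ᶠ w in 𝓝 (0 : ℂ), z + w ∈ U₁ := by
    have h2 : Continuous fun w : ℂ => z + w := by fun_prop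
    have h4 : Tendsto (fun w : ℂ => z + w) (𝓝 0) (𝓝 z) := by
      have := h2.tendsto 0
      simpa using this
    exact h4.eventually (hU₁.mem_nhds hzU₁)
  obtain ⟨δ, hδ, hδ1⟩ := Metric.eventually_nhds_iff_ball.1 (hU₁n.and hqest)
  obtain ⟨δ', hδ', hδ2⟩ := Metric.eventually_nhds_iff_ball.1 hest
  obtain ⟨r, hr, hrδ, hrδ'⟩ : ∃ r : ℝ, 0 < r ∧ r ≤ δ ∧ r ≤ δ' :=
    ⟨min δ δ', lt_min hδ hδ', min_le_left _ _, min_le_right _ _⟩
  have b1 : ∀ w ∈ ball (0 : ℂ) r, z + w ∈ U₁ := fun w hw => (hδ1 w (ball_subset_ball hrδ hw)).1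
  have b2 : ∀ w ∈ ball (0 : ℂ) r, w ≠ 0 → 0 < fderiv ℝ q w w := by
    intro w hw hw0
    have h2 := (hδ1 w (ball_subset_ball hrδ hw)).2
    have h3 : |(fderiv ℝ q w - Q w) w| ≤ l / 2 * ‖w‖ * ‖w‖ := by
      have h4 := (fderiv ℝ q w - Q w).le_of_opNorm_le h2 w
      rwa [Real.norm_eq_abs] at h4
    have h4 : (fderiv ℝ q w - Q w) w = fderiv ℝ q w w - Q w w := rfl
    have h5 := hlQ w
    have h6 : 0 < ‖w‖ := norm_pos_iff.2 hw0
    have h7 := neg_abs_le ((fderiv ℝ q w - Q w) w)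
    rw [h4] at h3 h7
    have h8 : 0 < l * ‖w‖ ^ 2 := by positivity
    nlinarith
  have b3 : ∀ w ∈ ball (0 : ℂ) r, ∀ w' ∈ ball (0 : ℂ) r,
      ‖f w - f w' - D (w - w')‖ ≤ κ / 2 * ‖w - w'‖ := by
    intro w hw w' hw'
    refine hδ2 (w, w') ?_
    rw [mem_ball, dist_eq_norm] at hw hw' ⊢
    rw [sub_zero] at hw hw'
    show ‖(w, w') - (0, 0)‖ < δ'
    rw [Prod.mk_sub_mk, sub_zero, sub_zero, Prod.norm_def]
    exact max_lt (lt_of_lt_of_le hw hrδ') (lt_of_lt_of_le hw' hrδ')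
  -- the level
  have hnear : ∀ᶠ x in 𝓝[F] p₀, ∃ w ∈ ball z (r / 2) ∩ U, φ w = x := by
    have h2 := NEAR.emb_nhds hV hFV hE.emb hz (ball_mem_nhds z (half_pos hr))
    rw [hzp] at h2
    exact h2
  obtain ⟨O, hO, hOo, hpO⟩ := _root_.mem_nhds_iff.1 (eventually_nhdsWithin_iff.1 hnear)
  have hp₀pos : 0 < p₀ 3 := h1.mem.2.1
  obtain ⟨m, hm0, hm, hmF⟩ : ∃ m : ℝ, 0 ≤ m ∧ m < p₀ 3 ∧ ∀ x ∈ F, m < x 3 → x ∈ O := by
    have hcpt : IsCompact (F \ O) := hC.compact.diff hOo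
    rcases (F \ O).eq_empty_or_nonempty with he | hne
    · refine ⟨0, le_rfl, hp₀pos, fun x hx _ => ?_⟩
      by_contra hxO
      have : x ∈ F \ O := ⟨hx, hxO⟩
      rw [he] at this
      exact this
    · obtain ⟨y, hy, hym⟩ := hcpt.exists_isMaxOn hne c3.continuousOn
      refine ⟨y 3, (hC.sub hy.1).1, lt_of_le_of_ne (h1.max y hy.1) fun he => ?_, fun x hx hxy => ?_⟩
      · have := h1.uniq hy.1 he
        exact hy.2 (by rw [this]; exact hpO)
      · by_contra hxO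
        exact absurd (hym ⟨hx, hxO⟩) (not_le.2 hxy)
  obtain ⟨c, hc1, hc2⟩ := exists_between hm
  have hc0 : 0 < c := hm0.trans_lt hc1
  obtain ⟨N, hN, hNr⟩ := level_iso hC hK h1 hc0 hc2
  -- points of the level
  have hlev : ∀ x ∈ F, x 3 = c → ∃ w ∈ ball (0 : ℂ) (r / 2), φ (z + w) = x := by
    intro x hx hx3
    obtain ⟨w, hw, hwx⟩ := hO (hmF x hx (by rw [hx3]; exact hc1)) hx
    refine ⟨w - z, ?_, ?_⟩
    · have := hw.1
      rw [mem_ball, dist_eq_norm] at this ⊢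
      rwa [sub_zero]
    · rw [add_sub_cancel]; exact hwx
  have hhalf : ball (0 : ℂ) (r / 2) ⊆ ball 0 r := ball_subset_ball (by linarith)
  obtain ⟨y, hy⟩ : ∃ y : Circle → E4, y = fun u => inc (N.c u) + c • vert := ⟨_, rfl⟩
  have hyF : ∀ u, y u ∈ F := fun u => by rw [hy]; exact (hNr _).1 ⟨u, rfl⟩
  have hy3 : ∀ u, y u 3 = c := fun u => by
    rw [hy]
    show (inc (N.c u) + c • vert) 3 = c
    rw [add_v3, inc_three, zero_add]
  obtain ⟨w, hw⟩ : ∃ w : Circle → ℂ, w = fun u => ρ (y u) - z := ⟨_, rfl⟩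
  have hwy : ∀ u, w u ∈ ball (0 : ℂ) (r / 2) ∧ φ (z + w u) = y u := by
    intro u
    obtain ⟨w₀, hw₀, hw₀y⟩ := hlev _ (hyF u) (hy3 u)
    have h2 := (hρφ _ (b1 w₀ (hhalf hw₀))).2
    have h3 : w u = w₀ := by
      rw [hw]
      show ρ (y u) - z = w₀
      rw [← hw₀y, h2, add_sub_cancel_left]
    rw [h3]
    exact ⟨hw₀, hw₀y⟩
  have hyW : ∀ u, y u ∈ W := fun u => by
    rw [← (hwy u).2]
    exact (hρφ _ (b1 _ (hhalf (hwy u).1))).1
  have hprj : ∀ x : E3, prj (inc x + c • vert) = x := fun x => by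
    rw [map_add, prj_inc, map_smul, prj_vert, smul_zero, add_zero]
  obtain ⟨M, hM1, hM2⟩ : Unknotted N := by
    refine cap_unknot (f := f) (q := q) (D := D) (κ := κ) (δ := r) (η := p₀ 3 - c) (w := w)
      hκ hDκ (fun x hx => (hfs x (hU₁U (b1 x hx))).differentiableAt (by simp)) b3
      (fun x hx => (hqs x (hU₁U (b1 x hx))).differentiableAt (by simp)) b2 ?_ ?_
      (fun u => hhalf (hwy u).1) (fun u => ?_) (fun u => ?_) (fun v hv => ?_)
    · rw [hq0]
      intro h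
      linarith
    · rw [hw]
      refine ContDiff.sub ?_ contDiff_const
      rw [contDiff_iff_contDiffAt]
      intro t
      have h2 : ContDiff ℝ ∞ fun t : ℝ => y (Circle.exp t) := by
        rw [hy]
        exact (inc.contDiff.comp N.smooth).add contDiff_const
      exact (hρ.contDiffAt (hW.mem_nhds (hyW _))).comp t h2.contDiffAt
    · rw [hf]
      show N.c u = prj (φ (z + w u))
      rw [(hwy u).2, hy, hprj]
    · rw [hq]
      show p₀ 3 - φ (z + w u) 3 = p₀ 3 - c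
      rw [(hwy u).2, hy3]
    · -- every direction
      have hseg : ∀ t ∈ Icc (0 : ℝ) (r / 2), t • v ∈ ball (0 : ℂ) r := fun t ht => by
        rw [mem_ball_zero_iff, norm_smul, hv, mul_one, Real.norm_eq_abs, abs_of_nonneg ht.1]
        linarith [ht.2]
      have hcont : ContinuousOn (fun t : ℝ => q (t • v)) (Icc 0 (r / 2)) := by
        intro t ht
        have h2 := (hqs _ (hU₁U (b1 _ (hseg t ht)))).continuousAt
        have h3 : ContinuousAt (fun t : ℝ => t • v) t := by fun_prop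
        exact (ContinuousAt.comp (f := fun t : ℝ => t • v) (x := t) h2 h3).continuousWithinAt
      have hend : p₀ 3 - c ≤ q ((r / 2) • v) := by
        have hmem := hseg (r / 2) ⟨by linarith, le_rfl⟩
        have hUm : z + (r / 2) • v ∈ U := hU₁U (b1 _ hmem)
        by_contra hlt
        push Not at hlt
        rw [hq] at hlt
        have hlt' : p₀ 3 - φ (z + (r / 2) • v) 3 < p₀ 3 - c := hlt
        obtain ⟨w', hw', hw'x⟩ := hO (hmF _ (hUF _ hUm) (by linarith)) (hUF _ hUm)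
        have h3 := hinjU hw'.2 hUm hw'x
        have h4 := hw'.1
        rw [h3, mem_ball, dist_eq_norm, add_sub_cancel_left, norm_smul, hv, mul_one,
          Real.norm_eq_abs, abs_of_pos (half_pos hr)] at h4
        exact lt_irrefl _ h4
      have hstart : q ((0 : ℝ) • v) ≤ p₀ 3 - c := by
        rw [zero_smul, hq0]
        linarith
      obtain ⟨t, ht, htq⟩ := intermediate_value_Icc (half_pos hr).le hcont ⟨hstart, hend⟩
      have hmem := hseg t ht
      have hUm : z + t • v ∈ U := hU₁U (b1 _ hmem)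
      have htq' : q (t • v) = p₀ 3 - c := htq
      have h3 : φ (z + t • v) 3 = c := by
        rw [hq] at htq'
        have : p₀ 3 - φ (z + t • v) 3 = p₀ 3 - c := htq'
        linarith
      have h4 : inc (prj (φ (z + t • v))) + c • vert = φ (z + t • v) := by
        have := inc_prj (φ (z + t • v))
        rwa [h3] at this
      have h5 : prj (φ (z + t • v)) ∈ range N.c := (hNr _).2 (by rw [h4]; exact hUF _ hUm)
      obtain ⟨u, hu⟩ := h5
      have h6 : y u = φ (z + t • v) := by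
        rw [hy]
        show inc (N.c u) + c • vert = _
        rw [hu, h4]
      have h7 : w u = t • v := by
        rw [hw]
        show ρ (y u) - z = t • v
        rw [h6, (hρφ _ (b1 _ hmem)).2, add_sub_cancel_left]
      refine ⟨u, ?_⟩
      rw [h7, norm_smul, hv, mul_one, Real.norm_eq_abs, abs_of_nonneg ht.1]
  exact ⟨M, hN.trans hM1, hM2⟩

end Pool.Agent.Run7.h233.MC
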