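import Pool.Agent.Run7.h233.MC.Disc5
import Pool.Agent.N15.SF.Half

/-!
A Fáry–Milnor theorem for slice discs.
-/

set_option autoImplicit false

namespace Pool.Agent.Run7.h233.MC

open scoped ContDiff RealInnerProductSpace Topology ENNReal NNReal
open Set Metric Filter
open Pool.Agent.Y503.RB Pool.Agent.N503.ML Pool.Agent.N15.RC Pool.Agent.N15.SF

/-- `F` is a slice disc of the knot `K`: a compact smooth surface in the half-space `x₃ ≥ 0`,
vertical near its boundary (`HSurf`), homeomorphic to the closed unit disc in such a way that the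
unit circle corresponds to the points of height `0`, which form the curve `K`. -/
structure IsSliceDisc (K : Knot) (F : Set E4) : Prop where
  surf : HSurf F
  disc : ∃ e : Dsc ≃ₜ F, ∀ p, (e p : E4) 3 = 0 ↔ ‖(p : ℂ)‖ = 1
  bdry : F ∩ {x | x 3 = 0} = inc0 '' range K.c

/-- the same in a slab -/
def DiscF (K : Knot) (F : Set E4) (H : ℝ) : Prop :=
  Cob F H ∧ (∀ x ∈ F, x 3 < H) ∧ (∃ e : Dsc ≃ₜ F, ∀ p, (e p : E4) 3 = 0 ↔ ‖(p : ℂ)‖ = 1) ∧
    F ∩ {x | x 3 = 0} = inc0 '' range K.c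

theorem discF_cls (K : Knot) : CCls (DiscF K) := by
  refine ⟨fun F H h => h.1, fun F H F' H' h hc hs => ⟨hc, ?_, ?_, ?_⟩⟩
  · obtain ⟨Φ, D, hD, hFD, hsm, hinj, -, rfl, h0, h1, h2⟩ := hs
    rintro _ ⟨x, hx, rfl⟩
    refine lt_of_le_of_ne (hc.sub ⟨x, hx, rfl⟩).2 fun he => ?_
    exact (h.2.1 x hx).ne (((h2 x hx).2).1 he)
  · obtain ⟨e, he⟩ := h.2.2.1
    obtain ⟨Φ, D, hD, hFD, hsm, hinj, -, rfl, h0, h1, h2⟩ := hs
    have hcts : ContinuousOn Φ F := hsm.continuousOn.mono hFD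
    have hcs : CompactSpace F := isCompact_iff_compactSpace.1 h.1.compact
    let f : F ≃ (Φ '' F) := Equiv.Set.imageOfInjOn Φ F (hinj.mono hFD)
    have hf : Continuous f := by
      refine Continuous.subtype_mk ?_ _
      exact continuousOn_iff_continuous_domRestrict.1 hcts
    let f' : F ≃ₜ (Φ '' F) := hf.homeoOfEquivCompactToT2
    have hf' : ∀ x : F, (f' x : E4) = Φ x := fun x => rfl
    refine ⟨e.trans f', fun p => ?_⟩
    show (f' (e p) : E4) 3 = 0 ↔ _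
    rw [hf', (h2 _ (e p).2).1, he]
  · rw [hs.bot]; exact h.2.2.2

theorem discF_of {K : Knot} {F : Set E4} (h : IsSliceDisc K F) : ∃ H, DiscF K F H := by
  obtain ⟨H, h1, h2⟩ := cob_of h.surf
  exact ⟨H, h1, h2, h.disc, h.bdry⟩

theorem one_le_nmax {K : Knot} {F : Set E4} {H : ℝ} (h : DiscF K F H) : 1 ≤ nmaxF F H := by
  obtain ⟨e, he⟩ := h.2.2.1
  have ho : (0 : ℂ) ∈ closedBall (0 : ℂ) 1 := by simp
  have hpo : 0 < (e ⟨0, ho⟩ : E4) 3 := by
    refine lt_of_le_of_ne (h.1.sub (e ⟨0, ho⟩).2).1 fun h0 => ?_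
    have := (he ⟨0, ho⟩).1 h0.symm
    simp at this
  obtain ⟨p₀, hp₀F, hp₀m⟩ := h.1.compact.exists_isMaxOn ⟨_, (e ⟨0, ho⟩).2⟩ c3.continuousOn
  have hp₀max : ∀ x ∈ F, x 3 ≤ p₀ 3 := fun x hx => hp₀m hx
  unfold nmaxF
  rw [one_le_encard_iff_nonempty]
  refine ⟨p₀, ⟨hp₀F, hpo.trans_le (hp₀max _ (e ⟨0, ho⟩).2), h.2.1 p₀ hp₀F⟩, ?_⟩
  show ∀ᶠ y in 𝓝[F] p₀, y 3 ≤ p₀ 3
  filter_upwards [self_mem_nhdsWithin] with y hy
  exact hp₀max y hy

theorem unknot_of_extr {K : Knot} {F : Set E4} {H : ℝ} (h : DiscF K F H) (hM : MorseF F H)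
    (hmax : nmaxF F H ≤ 1) (hmin : nminF F H = 0) : Unknotted K := by
  obtain ⟨e, he⟩ := h.2.2.1
  obtain ⟨p₀, hp₀⟩ := disc_one h.1.compact h.1.sub h.2.1 hM hmax hmin e he
  exact unknot_of_oneMax h.1 hM h.2.2.2 hp₀

theorem unknot_of_curv {K : Knot} {F : Set E4} (h : IsSliceDisc K F)
    (hc : lowS F + uppS F < ENNReal.ofReal (2 * Real.pi ^ 2)) : Unknotted K := by
  obtain ⟨H, hH⟩ := discF_of h
  rw [← low_eq hH.2.1, ← upp_eq hH.2.1] at hc
  obtain ⟨η, hη, hη2⟩ := exists_eta hc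
  obtain ⟨F', H', a1, a2, a3, a4⟩ := all_A F H hH.1 1 1 η hη
  have hC' : DiscF K F' H' := (discF_cls K).closed _ _ _ _ hH a1 a2
  simp only [ENNReal.coe_one, one_mul] at a4
  have h1 : ENNReal.ofReal (Real.pi ^ 2) * ((nminF F' H' + nmaxF F' H' : ℕ∞) : ℝ≥0∞) <
      ENNReal.ofReal (Real.pi ^ 2 * ((1 : ℕ) + 1)) := by
    push_cast
    refine (a4.trans_lt hη2).trans_le (le_of_eq ?_)
    congr 1
    ring
  have h2 : nminF F' H' + nmaxF F' H' ≤ 1 := by simpa using nat_of_lt h1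
  have h3 := one_le_nmax hC'
  have h4 : nmaxF F' H' ≤ 1 := le_trans le_add_self h2
  have h5 : nminF F' H' = 0 := by
    by_contra hne
    have h6 : 1 ≤ nminF F' H' := ENat.one_le_iff_ne_zero.2 hne
    have h7 : (1 : ℕ∞) + 1 ≤ 1 := (add_le_add h6 h3).trans h2
    exact absurd h7 (by norm_num)
  exact unknot_of_extr hC' a3 h4 h5

end Pool.Agent.Run7.h233.MC
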