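import Pool.Agent.N15.SF.TAN
import Pool.Agent.N15.SF.NEAR

/-!
Local smooth retractions onto parametrised surfaces, and tangent spaces.
-/

set_option autoImplicit false

namespace Pool.Agent.Run7.h233.MC

open scoped ContDiff RealInnerProductSpace Topology
open Set Metric Filter
open Pool.Agent.Y503.RB Pool.Agent.N503.ML Pool.Agent.N15.SF

/-- a smooth local left inverse of a patch -/
theorem exists_ret {φ : ℂ → E4} {U : Set ℂ} (hE : EPatch φ U) {z : ℂ} (hz : z ∈ U) :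
    ∃ (ρ : E4 → ℂ) (W : Set E4) (U' : Set ℂ), IsOpen W ∧ φ z ∈ W ∧ ContDiffOn ℝ ∞ ρ W ∧
      (∀ x ∈ W, ρ x ∈ U) ∧ IsOpen U' ∧ z ∈ U' ∧ U' ⊆ U ∧ (∀ w ∈ U', φ w ∈ W ∧ ρ (φ w) = w) := by
  have hsm : ContDiffAt ℝ ∞ φ z := hE.smooth.contDiffAt (hE.isOpen.mem_nhds hz)
  have hd : HasFDerivAt φ (fderiv ℝ φ z) z := (hsm.differentiableAt (by simp)).hasFDerivAt
  obtain ⟨π₀, hπ₀⟩ := (fderiv ℝ φ z).toLinearMap.exists_leftInverse_of_injective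
    (LinearMap.ker_eq_bot.2 (hE.imm z hz))
  obtain ⟨π, hπ⟩ : ∃ π : E4 →L[ℝ] ℂ, π = LinearMap.toContinuousLinearMap π₀ := ⟨_, rfl⟩
  have hπd : ∀ v, π (fderiv ℝ φ z v) = v := fun v => by
    have := LinearMap.congr_fun hπ₀ v
    rw [hπ]
    exact this
  have hg : ContDiffAt ℝ ∞ (fun w => π (φ w)) z := π.contDiff.contDiffAt.comp z hsm
  have hgd : HasFDerivAt (fun w => π (φ w))
      ((ContinuousLinearEquiv.refl ℝ ℂ : ℂ ≃L[ℝ] ℂ) : ℂ →L[ℝ] ℂ) z := by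
    have h1 := π.hasFDerivAt.comp z hd
    have e : ((ContinuousLinearEquiv.refl ℝ ℂ : ℂ ≃L[ℝ] ℂ) : ℂ →L[ℝ] ℂ) =
        π.comp (fderiv ℝ φ z) := ContinuousLinearMap.ext fun v => (hπd v).symm
    rw [e]
    exact h1
  have hn : (∞ : WithTop ℕ∞) ≠ 0 := by simp
  obtain ⟨e₀, he₀⟩ : ∃ e₀ : OpenPartialHomeomorph ℂ ℂ,
      e₀ = hg.toOpenPartialHomeomorph (fun w => π (φ w)) hgd hn := ⟨_, rfl⟩
  have hcoe : ∀ w, e₀ w = π (φ w) := fun w => by rw [he₀]; rfl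
  have hzs : z ∈ e₀.source := by
    rw [he₀]; exact hg.mem_toOpenPartialHomeomorph_source hgd hn
  -- where the derivative is invertible
  have hgc : ContDiffOn ℝ ∞ (fun w => π (φ w)) U := π.contDiff.comp_contDiffOn hE.smooth
  have hfc : ContinuousAt (fun w => fderiv ℝ (fun w => π (φ w)) w) z :=
    (hgc.continuousOn_fderiv_of_isOpen hE.isOpen (by simp)).continuousAt (hE.isOpen.mem_nhds hz)
  have hinv : ∀ᶠ w in 𝓝 z, fderiv ℝ (fun w => π (φ w)) w ∈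
      range ((↑) : (ℂ ≃L[ℝ] ℂ) → (ℂ →L[ℝ] ℂ)) := by
    refine hfc.eventually ?_
    show range ((↑) : (ℂ ≃L[ℝ] ℂ) → (ℂ →L[ℝ] ℂ)) ∈ 𝓝 (fderiv ℝ (fun w => π (φ w)) z)
    rw [hgd.fderiv]
    exact ContinuousLinearEquiv.nhds _
  obtain ⟨N, hN, hNo, hzN⟩ := _root_.mem_nhds_iff.1 hinv
  obtain ⟨U', hU'⟩ : ∃ U' : Set ℂ, U' = e₀.source ∩ (U ∩ N) := ⟨_, rfl⟩
  have hU'o : IsOpen U' := by rw [hU']; exact e₀.open_source.inter (hE.isOpen.inter hNo)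
  have hWo : IsOpen (e₀.target ∩ e₀.symm ⁻¹' U') := by
    exact e₀.symm.isOpen_inter_preimage hU'o
  refine ⟨fun x => e₀.symm (π x), π ⁻¹' (e₀.target ∩ e₀.symm ⁻¹' U'), U',
    hWo.preimage π.continuous, ?_, ?_, ?_, hU'o, ?_, ?_, ?_⟩
  · show π (φ z) ∈ e₀.target ∩ e₀.symm ⁻¹' U'
    rw [← hcoe]
    refine ⟨e₀.map_source hzs, ?_⟩
    show e₀.symm (e₀ z) ∈ U'
    rw [e₀.left_inv hzs, hU']
    exact ⟨hzs, hz, hzN⟩
  · intro x hx
    obtain ⟨hx1, hx2⟩ := hx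
    have hx2' : e₀.symm (π x) ∈ U' := hx2
    rw [hU'] at hx2'
    obtain ⟨f', hf'⟩ := hN hx2'.2.2
    have hca : ContDiffAt ℝ ∞ (fun w => π (φ w)) (e₀.symm (π x)) :=
      hgc.contDiffAt (hE.isOpen.mem_nhds hx2'.2.1)
    have hfd : HasFDerivAt (fun w => π (φ w)) (f' : ℂ →L[ℝ] ℂ) (e₀.symm (π x)) := by
      rw [hf']
      exact (hca.differentiableAt (by simp)).hasFDerivAt
    have he : (e₀ : ℂ → ℂ) = fun w => π (φ w) := funext hcoe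
    have h1 : ContDiffAt ℝ ∞ e₀.symm (π x) :=
      e₀.contDiffAt_symm hx1 (by rw [he]; exact hfd) (by rw [he]; exact hca)
    exact (h1.comp x π.contDiff.contDiffAt).contDiffWithinAt
  · intro x hx
    have hx2' : e₀.symm (π x) ∈ U' := hx.2
    rw [hU'] at hx2'
    exact hx2'.2.1
  · rw [hU']; exact ⟨hzs, hz, hzN⟩
  · rw [hU']; exact fun w hw => hw.2.1
  · intro w hw
    have hw' : w ∈ e₀.source := by rw [hU'] at hw; exact hw.1
    have h1 : e₀.symm (π (φ w)) = w := by rw [← hcoe, e₀.left_inv hw']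
    refine ⟨⟨?_, ?_⟩, h1⟩
    · rw [← hcoe]; exact e₀.map_source hw'
    · show e₀.symm (π (φ w)) ∈ U'
      rw [h1]; exact hw

/-- the tangent spaces of two patches of the same surface agree -/
theorem range_le {F V V' : Set E4} {φ φ' : ℂ → E4} {U U' : Set ℂ} (hE : EPatch φ U)
    (hE' : EPatch φ' U') (hV : IsOpen V) (hV' : IsOpen V') (hF : F ∩ V = φ '' U)
    (hF' : F ∩ V' = φ' '' U') {z z' : ℂ} (hz : z ∈ U) (hz' : z' ∈ U') (h : φ z = φ' z') (v : ℂ) :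
    ∃ v', fderiv ℝ φ' z' v' = fderiv ℝ φ z v := by
  obtain ⟨ρ, W, U₁, hW, hzW, hρ, -, hU₁, hzU₁, hU₁U, hρφ⟩ := exists_ret hE' hz'
  have hsm : ContDiffAt ℝ ∞ φ z := hE.smooth.contDiffAt (hE.isOpen.mem_nhds hz)
  have hsm' : ContDiffAt ℝ ∞ φ' z' := hE'.smooth.contDiffAt (hE'.isOpen.mem_nhds hz')
  have hρz : ρ (φ z) = z' := by rw [h]; exact (hρφ z' hzU₁).2
  have hρs : ContDiffAt ℝ ∞ ρ (φ z) := by
    rw [h]
    exact hρ.contDiffAt (hW.mem_nhds hzW)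
  -- near `z`, `φ w = φ' (ρ (φ w))`
  have hev : ∀ᶠ w in 𝓝 z, φ w = φ' (ρ (φ w)) := by
    have h1 : ∀ᶠ x in 𝓝[F] (φ' z'), ∃ w ∈ U₁ ∩ U', φ' w = x :=
      NEAR.emb_nhds hV' hF' hE'.emb hz' (hU₁.mem_nhds hzU₁)
    have h2 : Tendsto φ (𝓝 z) (𝓝[F] (φ' z')) := by
      rw [← h]
      refine tendsto_nhdsWithin_iff.2 ⟨hsm.continuousAt, ?_⟩
      filter_upwards [hE.isOpen.mem_nhds hz] with w hw
      have : φ w ∈ F ∩ V := by rw [hF]; exact ⟨w, hw, rfl⟩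
      exact this.1
    filter_upwards [h2.eventually h1] with w hw
    obtain ⟨w', hw', hw2⟩ := hw
    rw [← hw2, (hρφ w' hw'.1).2]
  have hd : HasFDerivAt φ (fderiv ℝ φ z) z := (hsm.differentiableAt (by simp)).hasFDerivAt
  have hdρ : HasFDerivAt ρ (fderiv ℝ ρ (φ z)) (φ z) := (hρs.differentiableAt (by simp)).hasFDerivAt
  have hd' : HasFDerivAt φ' (fderiv ℝ φ' z') (ρ (φ z)) := by
    rw [hρz]; exact (hsm'.differentiableAt (by simp)).hasFDerivAt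
  have h3 : HasFDerivAt (fun w => φ' (ρ (φ w)))
      ((fderiv ℝ φ' z').comp ((fderiv ℝ ρ (φ z)).comp (fderiv ℝ φ z))) z :=
    hd'.comp z (hdρ.comp z hd)
  have h4 := (h3.congr_of_eventuallyEq hev).unique hd
  exact ⟨fderiv ℝ ρ (φ z) (fderiv ℝ φ z v), DFunLike.congr_fun h4 v⟩

end Pool.Agent.Run7.h233.MC
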