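import Pool.Agent.Run7.h233.MC.Ann2
import Pool.Agent.Run7.h233.MC.Ret
import Pool.Agent.N15.SF.LP

/-!
The vertical extension of a surface in a slab to all heights.
-/

set_option autoImplicit false

namespace Pool.Agent.Run7.h233.MC

open scoped ContDiff RealInnerProductSpace Topology
open Set Metric Filter
open Pool.Agent.Y503.RB Pool.Agent.N503.ML Pool.Agent.N15.SF

/-- the vertical extension of `F` to all heights -/
def Fx (F : Set E4) (H : ℝ) : Set E4 := {x | x + (max 0 (min (x 3) H) - x 3) • vert ∈ F}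

theorem add_v3 (x : E4) (t : ℝ) : (x + t • vert) 3 = x 3 + t := NEAR.add_vert_three x t

theorem sub_v3 (x : E4) (t : ℝ) : (x - t • vert) 3 = x 3 - t := by
  rw [sub_eq_add_neg, ← neg_smul, add_v3]; ring

theorem c3 : Continuous fun x : E4 => x 3 :=
  (EuclideanSpace.proj (3 : Fin 4) : E4 →L[ℝ] ℝ).continuous

section

variable {F : Set E4} {H : ℝ}

theorem fx_slab {x : E4} (h0 : 0 ≤ x 3) (h1 : x 3 ≤ H) : x ∈ Fx F H ↔ x ∈ F := by
  unfold Fx
  simp only [mem_ofPred_eq]
  rw [min_eq_left h1, max_eq_right h0, sub_self, zero_smul, add_zero]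

theorem fx_low {ε : ℝ} (hεH : ε < H) (h0H : 0 < H)
    (hcol : ∀ x : E4, 0 ≤ x 3 → x 3 ≤ ε → (x ∈ F ↔ x - (x 3) • vert ∈ F)) {x : E4} (hx : x 3 ≤ ε) :
    x ∈ Fx F H ↔ x - (x 3) • vert ∈ F := by
  rcases le_total 0 (x 3) with h | h
  · rw [fx_slab h (hx.trans hεH.le)]
    exact hcol x h hx
  · unfold Fx
    simp only [mem_ofPred_eq]
    rw [min_eq_left (h.trans h0H.le), max_eq_left h, zero_sub, neg_smul, ← sub_eq_add_neg]

theorem fx_high {ε : ℝ} (hεH : ε < H) (h0H : 0 < H)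
    (hcol : ∀ x : E4, H - ε ≤ x 3 → x 3 ≤ H → (x ∈ F ↔ x + (H - x 3) • vert ∈ F)) {x : E4}
    (hx : H - ε ≤ x 3) : x ∈ Fx F H ↔ x + (H - x 3) • vert ∈ F := by
  rcases le_total (x 3) H with h | h
  · rw [fx_slab (by linarith) h]
    exact hcol x hx h
  · unfold Fx
    simp only [mem_ofPred_eq]
    rw [min_eq_right h, max_eq_right (by linarith)]

theorem fx_closed (hF : IsClosed F) : IsClosed (Fx F H) := by
  have h : Continuous fun x : E4 => x + (max 0 (min (x 3) H) - x 3) • vert := by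
    have := c3
    fun_prop
  exact hF.preimage h

theorem epatch_sub {φ : ℂ → E4} {U : Set ℂ} (hE : EPatch φ U) (c : E4) :
    EPatch (fun w => φ w - c) U := by
  refine ⟨hE.isOpen, hE.smooth.sub contDiffOn_const, fun z hz => ?_, ?_⟩
  · have : fderiv ℝ (fun w => φ w - c) z = fderiv ℝ φ z := fderiv_sub_const c
    rw [this]
    exact hE.imm z hz
  · exact (Homeomorph.subRight c).isEmbedding.comp hE.emb

/-- moving a patch vertically -/
theorem fx_move (hN : NoCrit F H) {p : E4} {a : ℝ} {O : Set E4} (hO : IsOpen O)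
    (hOs : O ⊆ oslab H) (hpO : p + a • vert ∈ O) (hpF : p + a • vert ∈ F)
    (hiff : ∀ x : E4, x + a • vert ∈ O → (x ∈ Fx F H ↔ x + a • vert ∈ F)) :
    ∃ (φ : ℂ → E4) (U : Set ℂ) (V : Set E4) (z : ℂ), EPatch φ U ∧ IsOpen V ∧
    p ∈ V ∧ Fx F H ∩ V = φ '' U ∧ z ∈ U ∧ φ z = p ∧ ∃ v, (fderiv ℝ φ z v) 3 ≠ 0 := by
  obtain ⟨φ, U, V, z, hE, hV, hpV, hFV, hz, hzp, hnd⟩ := hN _ ⟨hpF, hOs hpO⟩
  have hcont : Continuous fun x : E4 => x + a • vert := by fun_prop
  have hU1 : IsOpen (U ∩ φ ⁻¹' O) := hE.smooth.continuousOn.isOpen_inter_preimage hE.isOpen hO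
  have hE1 : EPatch φ (U ∩ φ ⁻¹' O) := hE.restrict hU1 inter_subset_left
  refine ⟨fun w => φ w - a • vert, U ∩ φ ⁻¹' O, (fun x : E4 => x + a • vert) ⁻¹' (V ∩ O), z,
    epatch_sub hE1 _, (hV.inter hO).preimage hcont, ⟨hpV, hpO⟩, ?_, ⟨hz, ?_⟩, ?_, ?_⟩
  · ext x
    constructor
    · rintro ⟨hx1, hx2, hx3⟩
      have h1 : x + a • vert ∈ F ∩ V := ⟨(hiff x hx3).1 hx1, hx2⟩
      rw [hFV] at h1
      obtain ⟨w, hw, hwx⟩ := h1
      refine ⟨w, ⟨hw, ?_⟩, ?_⟩
      · show φ w ∈ O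
        rw [hwx]; exact hx3
      · show φ w - a • vert = x
        rw [hwx, add_sub_cancel_right]
    · rintro ⟨w, ⟨hw, hwO⟩, rfl⟩
      have h1 : φ w ∈ F ∩ V := by rw [hFV]; exact ⟨w, hw, rfl⟩
      have e1 : φ w - a • vert + a • vert = φ w := sub_add_cancel _ _
      refine ⟨?_, ?_⟩
      · show φ w - a • vert ∈ Fx F H
        rw [hiff _ (by rw [e1]; exact hwO), e1]
        exact h1.1
      · show φ w - a • vert + a • vert ∈ V ∩ O
        rw [e1]
        exact ⟨h1.2, hwO⟩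
  · show φ z ∈ O
    rw [hzp]; exact hpO
  · show φ z - a • vert = p
    rw [hzp, add_sub_cancel_right]
  · have hd : fderiv ℝ (fun w => φ w - a • vert) z = fderiv ℝ φ z := fderiv_sub_const _
    rw [hd]
    by_contra hc
    push Not at hc
    apply hnd
    have hsm : DifferentiableAt ℝ φ z :=
      (hE.smooth.contDiffAt (hE.isOpen.mem_nhds hz)).differentiableAt (by simp)
    have h1 : HasFDerivAt (fun w => φ w 3)
        ((EuclideanSpace.proj (3 : Fin 4) : E4 →L[ℝ] ℝ).comp (fderiv ℝ φ z)) z :=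
      (EuclideanSpace.proj (3 : Fin 4) : E4 →L[ℝ] ℝ).hasFDerivAt.comp z hsm.hasFDerivAt
    rw [h1.fderiv]
    exact ContinuousLinearMap.ext fun v => hc v

/-- the extension is a smooth surface without critical points of the height -/
theorem fx_patch (hC : Cob F H) (hN : NoCrit F H) {p : E4} (hp : p ∈ Fx F H) :
    ∃ (φ : ℂ → E4) (U : Set ℂ) (V : Set E4) (z : ℂ), EPatch φ U ∧ IsOpen V ∧
    p ∈ V ∧ Fx F H ∩ V = φ '' U ∧ z ∈ U ∧ φ z = p ∧ ∃ v, (fderiv ℝ φ z v) 3 ≠ 0 := by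
  obtain ⟨ε, hε, hεH, hlow, hhigh⟩ := hC.collar
  have hH : 0 < H := hε.trans hεH
  rcases le_or_gt (p 3) 0 with h0 | h0
  · have hp1 := (fx_low hεH hH hlow (h0.trans hε.le)).1 hp
    refine fx_move hN (a := ε / 2 - p 3) (O := {x | 0 < x 3 ∧ x 3 < ε}) ?_ ?_ ?_ ?_ ?_
    · exact (isOpen_lt continuous_const c3).inter (isOpen_lt c3 continuous_const)
    · rintro x ⟨h1, h2⟩
      exact ⟨h1, h2.trans hεH⟩
    · show 0 < (p + (ε / 2 - p 3) • vert) 3 ∧ (p + (ε / 2 - p 3) • vert) 3 < ε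
      rw [add_v3]
      constructor <;> linarith
    · rw [hlow (p + (ε / 2 - p 3) • vert) (by rw [add_v3]; linarith) (by rw [add_v3]; linarith),
        add_v3]
      have e : p + (ε / 2 - p 3) • vert - (p 3 + (ε / 2 - p 3)) • vert = p - (p 3) • vert := by
        module
      rw [e]; exact hp1
    · rintro x ⟨h1, h2⟩
      rw [add_v3] at h1 h2
      rw [fx_low hεH hH hlow (by linarith), hlow (x + (ε / 2 - p 3) • vert)
        (by rw [add_v3]; linarith) (by rw [add_v3]; linarith), add_v3]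
      have e : x + (ε / 2 - p 3) • vert - (x 3 + (ε / 2 - p 3)) • vert = x - (x 3) • vert := by
        module
      rw [e]
  · rcases lt_or_ge (p 3) H with h1 | h1
    · refine fx_move hN (a := 0) (O := oslab H) ?_ Subset.rfl ?_ ?_ ?_
      · exact (isOpen_lt continuous_const c3).inter (isOpen_lt c3 continuous_const)
      · rw [zero_smul, add_zero]; exact ⟨h0, h1⟩
      · rw [zero_smul, add_zero]; exact (fx_slab h0.le h1.le).1 hp
      · intro x hx
        rw [zero_smul, add_zero] at hx ⊢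
        exact fx_slab hx.1.le hx.2.le
    · have hp1 := (fx_high hεH hH hhigh (by linarith : H - ε ≤ p 3)).1 hp
      refine fx_move hN (a := H - ε / 2 - p 3) (O := {x | H - ε < x 3 ∧ x 3 < H}) ?_ ?_ ?_ ?_ ?_
      · exact (isOpen_lt continuous_const c3).inter (isOpen_lt c3 continuous_const)
      · rintro x ⟨h2, h3⟩
        exact ⟨by linarith, h3⟩
      · show H - ε < (p + (H - ε / 2 - p 3) • vert) 3 ∧ (p + (H - ε / 2 - p 3) • vert) 3 < H
        rw [add_v3]
        constructor <;> linarith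
      · rw [hhigh (p + (H - ε / 2 - p 3) • vert) (by rw [add_v3]; linarith)
          (by rw [add_v3]; linarith), add_v3]
        have e : p + (H - ε / 2 - p 3) • vert + (H - (p 3 + (H - ε / 2 - p 3))) • vert =
            p + (H - p 3) • vert := by module
        rw [e]; exact hp1
      · rintro x ⟨h2, h3⟩
        rw [add_v3] at h2 h3
        rw [fx_high hεH hH hhigh (by linarith), hhigh (x + (H - ε / 2 - p 3) • vert)
          (by rw [add_v3]; linarith) (by rw [add_v3]; linarith), add_v3]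
        have e : x + (H - ε / 2 - p 3) • vert + (H - (x 3 + (H - ε / 2 - p 3))) • vert =
            x + (H - x 3) • vert := by module
        rw [e]

end

end Pool.Agent.Run7.h233.MC
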