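import Pool.Agent.Run7.h233.MC.Ext
import Pool.Agent.GR.Flow

/-!
A vector field of height speed one, tangent to a surface without critical points of the height, and
its flow.
-/

set_option autoImplicit false

namespace Pool.Agent.Run7.h233.MC

open scoped ContDiff RealInnerProductSpace Topology Manifold
open Set Metric Filter
open Pool.Agent.Y503.RB Pool.Agent.N503.ML Pool.Agent.N15.SF

/-- `v` is tangent to the surface `G` at `x` -/
def TanAt (G : Set E4) (x v : E4) : Prop :=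
  ∀ (φ : ℂ → E4) (U : Set ℂ) (V : Set E4) (z : ℂ), EPatch φ U → IsOpen V → G ∩ V = φ '' U →
    z ∈ U → φ z = x → ∃ u, fderiv ℝ φ z u = v

theorem vert3 : vert 3 = 1 := vert_three

/-- a smooth field tangent to the surface with height component one -/
theorem exists_field {G : Set E4} (hG : IsClosed G) (hP : ∀ p ∈ G, ∃ (φ : ℂ → E4) (U : Set ℂ)
    (V : Set E4) (z : ℂ), EPatch φ U ∧ IsOpen V ∧
    p ∈ V ∧ G ∩ V = φ '' U ∧ z ∈ U ∧ φ z = p ∧ ∃ v, (fderiv ℝ φ z v) 3 ≠ 0) :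
    ∃ X : E4 → E4, ContDiff ℝ ∞ X ∧ ∀ x, X x 3 = 1 ∧ (x ∈ G → TanAt G x (X x)) := by
  have ht : ∀ x : E4, Convex ℝ {v : E4 | v 3 = 1 ∧ (x ∈ G → TanAt G x v)} := by
    intro x v hv w hw a b ha hb hab
    refine ⟨?_, fun hx φ U V z h1 h2 h3 h4 h5 => ?_⟩
    · show a * v 3 + b * w 3 = 1
      rw [hv.1, hw.1, mul_one, mul_one, hab]
    · obtain ⟨u, hu⟩ := hv.2 hx φ U V z h1 h2 h3 h4 h5
      obtain ⟨u', hu'⟩ := hw.2 hx φ U V z h1 h2 h3 h4 h5
      exact ⟨a • u + b • u', by rw [map_add, map_smul, map_smul, hu, hu']⟩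
  obtain ⟨g, hg⟩ := exists_contMDiffMap_forall_mem_convex_of_local (n := ⊤) 𝓘(ℝ, E4) ht (by
    intro x
    by_cases hx : x ∈ G
    · obtain ⟨φ, U, V, z, hE, hV, hpV, hFV, hz, hzp, v₀, hv₀⟩ := hP x hx
      obtain ⟨ρ, W, U₁, hW, hzW, hρ, hρU, hU₁, hzU₁, hU₁U, hρφ⟩ := exists_ret hE hz
      have hdc : ContDiffOn ℝ ∞ (fun w => fderiv ℝ φ w v₀) U := by
        have h1 : ContDiffOn ℝ ∞ (fderiv ℝ φ) U := hE.smooth.fderiv_of_isOpen hE.isOpen (by simp)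
        exact h1.clm_apply contDiffOn_const
      have hc1 : ContDiffOn ℝ ∞ (fun y => fderiv ℝ φ (ρ y) v₀) W := hdc.comp hρ hρU
      have hc2 : ContDiffOn ℝ ∞ (fun y => (fderiv ℝ φ (ρ y) v₀) 3) W :=
        (EuclideanSpace.proj (3 : Fin 4) : E4 →L[ℝ] ℝ).contDiff.comp_contDiffOn hc1
      have hO : IsOpen (W ∩ (fun y => (fderiv ℝ φ (ρ y) v₀) 3) ⁻¹' {0}ᶜ) :=
        hc2.continuousOn.isOpen_inter_preimage hW isOpen_compl_singleton
      have hρx : ρ x = z := by rw [← hzp]; exact (hρφ z hzU₁).2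
      have hxO : x ∈ W ∩ (fun y => (fderiv ℝ φ (ρ y) v₀) 3) ⁻¹' {0}ᶜ := by
        refine ⟨by rw [← hzp]; exact hzW, ?_⟩
        show (fderiv ℝ φ (ρ x) v₀) 3 ≠ 0
        rw [hρx]; exact hv₀
      have hnear : ∀ᶠ y in 𝓝 x, y ∈ G → ∃ w ∈ U₁ ∩ U, φ w = y := by
        have h1 := NEAR.emb_nhds hV hFV hE.emb hz (hU₁.mem_nhds hzU₁)
        rw [hzp] at h1
        exact eventually_nhdsWithin_iff.1 h1
      obtain ⟨N, hN, hNo, hxN⟩ := _root_.mem_nhds_iff.1 hnear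
      refine ⟨(W ∩ (fun y => (fderiv ℝ φ (ρ y) v₀) 3) ⁻¹' {0}ᶜ) ∩ N,
        (hO.inter hNo).mem_nhds ⟨hxO, hxN⟩,
        fun y => ((fderiv ℝ φ (ρ y) v₀) 3)⁻¹ • fderiv ℝ φ (ρ y) v₀, ?_, ?_⟩
      · rw [contMDiffOn_iff_contDiffOn]
        refine ContDiffOn.smul (ContDiffOn.inv (hc2.mono ?_) ?_) (hc1.mono ?_)
        · exact fun y hy => hy.1.1
        · exact fun y hy => hy.1.2
        · exact fun y hy => hy.1.1
      · intro y hy
        have hne : (fderiv ℝ φ (ρ y) v₀) 3 ≠ 0 := hy.1.2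
        refine ⟨?_, fun hyG φ₂ U₂ V₂ z₂ e1 e2 e3 e4 e5 => ?_⟩
        · show ((fderiv ℝ φ (ρ y) v₀) 3)⁻¹ * (fderiv ℝ φ (ρ y) v₀) 3 = 1
          exact inv_mul_cancel₀ hne
        · obtain ⟨w, hw, hwy⟩ := hN hy.2 hyG
          have hρy : ρ y = w := by rw [← hwy]; exact (hρφ w hw.1).2
          obtain ⟨v', hv'⟩ := range_le hE e1 hV e2 hFV e3 hw.2 e4 (hwy.trans e5.symm)
            (((fderiv ℝ φ (ρ y) v₀) 3)⁻¹ • v₀)
          refine ⟨v', ?_⟩
          show fderiv ℝ φ₂ z₂ v' = ((fderiv ℝ φ (ρ y) v₀) 3)⁻¹ • fderiv ℝ φ (ρ y) v₀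
          rw [hv', map_smul, hρy]
    · refine ⟨Gᶜ, hG.isOpen_compl.mem_nhds hx, fun _ => vert, contMDiffOn_const, ?_⟩
      intro y hy
      exact ⟨vert3, fun h => absurd h hy⟩)
  exact ⟨g, g.contMDiff.contDiff, hg⟩

/-- the flow of a field of height speed one which is tangent to `G` near a compact set `F` -/
theorem exists_flow {G F : Set E4} (hG : IsClosed G) (hF : IsCompact F)
    (hP : ∀ p ∈ G, ∃ (φ : ℂ → E4) (U : Set ℂ)
    (V : Set E4) (z : ℂ), EPatch φ U ∧ IsOpen V ∧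
    p ∈ V ∧ G ∩ V = φ '' U ∧ z ∈ U ∧ φ z = p ∧ ∃ v, (fderiv ℝ φ z v) 3 ≠ 0) :
    ∃ (X : E4 → E4) (K : NNReal) (g : ℝ → E4 → E4) (O : Set E4), ContDiff ℝ ∞ X ∧
      LipschitzWith K X ∧ (∀ x, X x 3 = 1) ∧ IsOpen O ∧ F ⊆ O ∧
      (∀ x ∈ O, x ∈ G → TanAt G x (X x)) ∧ ContDiff ℝ ∞ (fun q : ℝ × E4 => g q.1 q.2) ∧
      (∀ x, g 0 x = x) ∧ (∀ s t x, g (s + t) x = g s (g t x)) ∧
      (∀ x t, HasDerivAt (fun t => g t x) (X (g t x)) t) := by
  obtain ⟨X, hX, hX2⟩ := exists_field hG hP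
  obtain ⟨R, hR0, hR⟩ : ∃ R : ℝ, 0 < R ∧ F ⊆ ball 0 R := by
    obtain ⟨R, hR⟩ := hF.isBounded.subset_ball (0 : E4)
    exact ⟨max R 1, lt_max_of_lt_right one_pos, hR.trans (ball_subset_ball (le_max_left _ _))⟩
  let χ : ContDiffBump (0 : E4) := ⟨R, R + 1, hR0, by linarith⟩
  have hχs : ContDiff ℝ ∞ (χ : E4 → ℝ) := χ.contDiff
  have hχc : HasCompactSupport (χ : E4 → ℝ) := χ.hasCompactSupport
  have hχ1 : ∀ x ∈ ball (0 : E4) R, χ x = 1 := fun x hx =>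
    χ.one_of_mem_closedBall (ball_subset_closedBall hx)
  obtain ⟨Y, hY⟩ : ∃ Y : E4 → E4, Y = fun x => χ x • (X x - vert) := ⟨_, rfl⟩
  have hYs : ContDiff ℝ ∞ Y := by rw [hY]; exact hχs.smul (hX.sub contDiff_const)
  have hYc : HasCompactSupport Y := by rw [hY]; exact hχc.smul_right
  obtain ⟨K, hK⟩ := hYs.lipschitzWith_of_hasCompactSupport hYc (by simp)
  obtain ⟨M, hM⟩ := hYc.exists_bound_of_continuous hYs.continuous
  obtain ⟨Z, hZ⟩ : ∃ Z : E4 → E4, Z = fun x => vert + Y x := ⟨_, rfl⟩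
  have hZs : ContDiff ℝ ∞ Z := by rw [hZ]; exact contDiff_const.add hYs
  have hZK : LipschitzWith K Z := by
    rw [hZ]
    refine LipschitzWith.of_dist_le_mul fun x y => ?_
    rw [dist_add_left]
    exact hK.dist_le_mul x y
  have hZM : ∀ x, ‖Z x‖ ≤ (Real.toNNReal (‖vert‖ + M) : NNReal) := fun x => by
    rw [hZ]
    refine (norm_add_le _ _).trans ?_
    refine le_trans ?_ (Real.le_coe_toNNReal _)
    linarith [hM x]
  choose γ h0 h1 using fun p => Pool.Agent.GR.Flow.exists_solution hZK hZM p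
  have hfl : Pool.Agent.GR.Flow.IsFlowOf Z (fun t p => γ p t) := ⟨h0, h1⟩
  refine ⟨Z, K, fun t p => γ p t, ball 0 R, hZs, hZK, ?_, isOpen_ball, hR, ?_, ?_, h0,
    fun s t p => hfl.add hZK s t p, h1⟩
  · intro x
    rw [hZ, hY]
    show vert 3 + χ x * (X x 3 - vert 3) = 1
    rw [(hX2 x).1, vert3]
    ring
  · intro x hx hxG
    have e : Z x = X x := by
      rw [hZ, hY]
      simp only
      rw [hχ1 x hx, one_smul, add_sub_cancel]
    rw [e]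
    exact (hX2 x).2 hxG
  · rw [contDiff_infty]
    intro m
    have key : ∀ m : ℕ, m ≠ 0 → ContDiff ℝ m (fun q : ℝ × E4 => γ q.2 q.1) := by
      intro m hm
      exact Pool.Agent.GR.Flow.contDiff_flow (X := ⟨Z, hZs.continuous⟩) hm
        (hZs.of_le (by exact_mod_cast le_top)) hZK hfl
    exact (key (m + 1) (by omega)).of_le (by exact_mod_cast Nat.le_succ m)

end Pool.Agent.Run7.h233.MC
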