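import Pool.Agent.Run7.h233.MC.Field

/-!
A surface is invariant under the flow of a field tangent to it.
-/

set_option autoImplicit false

namespace Pool.Agent.Run7.h233.MC

open scoped ContDiff RealInnerProductSpace Topology Manifold
open Set Metric Filter
open Pool.Agent.Y503.RB Pool.Agent.N503.ML Pool.Agent.N15.SF

theorem inv_near {G : Set E4} {X : E4 → E4} {K : NNReal} (hX : ContDiff ℝ ∞ X)
    (hK : LipschitzWith K X) {O : Set E4} (hO : IsOpen O) (hT : ∀ x ∈ O, x ∈ G → TanAt G x (X x))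
    {φ : ℂ → E4} {U : Set ℂ} {V : Set E4} (hE : EPatch φ U) (hV : IsOpen V) (hFV : G ∩ V = φ '' U)
    {z : ℂ} (hz : z ∈ U) (hzO : φ z ∈ O) {γ : ℝ → E4} (h0 : γ 0 = φ z)
    (hγ : ∀ t, HasDerivAt γ (X (γ t)) t) : ∀ᶠ t in 𝓝 (0 : ℝ), γ t ∈ G := by
  obtain ⟨ρ, W, U₁, hW, hzW, hρ, hρU, hU₁, hzU₁, hU₁U, hρφ⟩ := exists_ret hE hz
  have hsm : ContDiffAt ℝ ∞ φ z := hE.smooth.contDiffAt (hE.isOpen.mem_nhds hz)
  obtain ⟨Y, hY⟩ : ∃ Y : ℂ → ℂ, Y = fun w => fderiv ℝ ρ (φ w) (X (φ w)) := ⟨_, rfl⟩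
  have hYs : ContDiffAt ℝ 1 Y z := by
    rw [hY]
    have h1 : ContDiffAt ℝ ∞ (fderiv ℝ ρ) (φ z) :=
      (hρ.fderiv_of_isOpen hW (by simp)).contDiffAt (hW.mem_nhds hzW)
    have h2 : ContDiffAt ℝ ∞ (fun w => fderiv ℝ ρ (φ w)) z := h1.comp z hsm
    have h3 : ContDiffAt ℝ ∞ (fun w => X (φ w)) z := hX.contDiffAt.comp z hsm
    exact (h2.clm_apply h3).of_le (by exact_mod_cast le_top)
  obtain ⟨α, hα0, ε, hε, hα⟩ :=
    hYs.exists_forall_mem_closedBall_exists_eq_forall_mem_Ioo_hasDerivAt₀ 0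
  have hNo : IsOpen (U₁ ∩ φ ⁻¹' O) :=
    (hE.smooth.continuousOn.mono hU₁U).isOpen_inter_preimage hU₁ hO
  have hαc : ContinuousAt α 0 := (hα 0 ⟨by linarith, by linarith⟩).continuousAt
  have hαN : ∀ᶠ t in 𝓝 (0 : ℝ), α t ∈ U₁ ∩ φ ⁻¹' O := by
    refine hαc.eventually ?_
    rw [hα0]
    exact hNo.mem_nhds ⟨hzU₁, hzO⟩
  -- the field in the chart
  have hpush : ∀ w ∈ U₁ ∩ φ ⁻¹' O, fderiv ℝ φ w (Y w) = X (φ w) := by
    intro w hw
    have hwU : w ∈ U := hU₁U hw.1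
    have hG : φ w ∈ G := by
      have : φ w ∈ G ∩ V := by rw [hFV]; exact ⟨w, hwU, rfl⟩
      exact this.1
    obtain ⟨u, hu⟩ := hT _ hw.2 hG φ U V w hE hV hFV hwU rfl
    have hsw : DifferentiableAt ℝ φ w :=
      (hE.smooth.contDiffAt (hE.isOpen.mem_nhds hwU)).differentiableAt (by simp)
    have hρw : DifferentiableAt ℝ ρ (φ w) :=
      (hρ.contDiffAt (hW.mem_nhds (hρφ w hw.1).1)).differentiableAt (by simp)
    have h1 : HasFDerivAt (fun x => ρ (φ x)) ((fderiv ℝ ρ (φ w)).comp (fderiv ℝ φ w)) w :=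
      hρw.hasFDerivAt.comp w hsw.hasFDerivAt
    have h2 : HasFDerivAt (fun x : ℂ => x) ((fderiv ℝ ρ (φ w)).comp (fderiv ℝ φ w)) w := by
      refine h1.congr_of_eventuallyEq ?_
      filter_upwards [hU₁.mem_nhds hw.1] with x hx
      exact ((hρφ x hx).2).symm
    have h3 := h2.unique (hasFDerivAt_id w)
    have h4 : fderiv ℝ ρ (φ w) (fderiv ℝ φ w u) = u := DFunLike.congr_fun h3 u
    rw [hY]
    show fderiv ℝ φ w (fderiv ℝ ρ (φ w) (X (φ w))) = X (φ w)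
    rw [← hu, h4]
  have hβ : ∀ᶠ t in 𝓝 (0 : ℝ), HasDerivAt (fun t => φ (α t)) (X (φ (α t))) t ∧
      φ (α t) ∈ (univ : Set E4) := by
    filter_upwards [hαN, Ioo_mem_nhds (by linarith : 0 - ε < (0 : ℝ)) (by linarith : (0 : ℝ) < 0 + ε)]
      with t ht htε
    refine ⟨?_, trivial⟩
    have hsw : DifferentiableAt ℝ φ (α t) :=
      (hE.smooth.contDiffAt (hE.isOpen.mem_nhds (hU₁U ht.1))).differentiableAt (by simp)
    have h1 := hsw.hasFDerivAt.comp_hasDerivAt t (hα t htε)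
    rw [hpush _ ht] at h1
    exact h1
  have heq := ODE_solution_unique_of_eventually (v := fun _ => X) (s := fun _ => univ) (K := K)
    (t₀ := (0 : ℝ)) (f := γ) (g := fun t => φ (α t))
    (Eventually.of_forall fun t => hK.lipschitzOnWith)
    (Eventually.of_forall fun t => ⟨hγ t, trivial⟩) hβ (by rw [h0, hα0])
  filter_upwards [heq, hαN] with t ht ht2
  rw [ht]
  have : φ (α t) ∈ G ∩ V := by rw [hFV]; exact ⟨α t, hU₁U ht2.1, rfl⟩
  exact this.1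

theorem inv_flow {G F : Set E4} (hG : IsClosed G)
    (hP : ∀ p ∈ G, ∃ (φ : ℂ → E4) (U : Set ℂ)
    (V : Set E4) (z : ℂ), EPatch φ U ∧ IsOpen V ∧
    p ∈ V ∧ G ∩ V = φ '' U ∧ z ∈ U ∧ φ z = p ∧ ∃ v, (fderiv ℝ φ z v) 3 ≠ 0)
    {X : E4 → E4} {K : NNReal} (hX : ContDiff ℝ ∞ X)
    (hK : LipschitzWith K X) {O : Set E4} (hO : IsOpen O) (hFO : F ⊆ O)
    (hT : ∀ x ∈ O, x ∈ G → TanAt G x (X x)) {g : ℝ → E4 → E4}
    (hadd : ∀ s t x, g (s + t) x = g s (g t x))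
    (h0 : ∀ x, g 0 x = x) (hd : ∀ x t, HasDerivAt (fun t => g t x) (X (g t x)) t) {x : E4}
    (hx : x ∈ G) {T : ℝ} (hGF : ∀ t ∈ Icc 0 T, g t x ∈ G → g t x ∈ F) :
    ∀ t ∈ Icc 0 T, g t x ∈ G := by
  have hc : Continuous fun t => g t x :=
    continuous_iff_continuousAt.2 fun t => (hd x t).continuousAt
  have key : Icc 0 T ⊆ {t | g t x ∈ G} := by
    refine IsClosed.Icc_subset_of_forall_exists_gt ?_ ?_ ?_
    · exact (hG.preimage hc).inter isClosed_Icc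
    · show g 0 x ∈ G
      rw [h0]; exact hx
    · rintro t ⟨ht, ht2⟩ y hy
      have ht' : g t x ∈ G := ht
      have hy' : t < y := hy
      have hF : g t x ∈ F := hGF t ⟨ht2.1, ht2.2.le⟩ ht'
      obtain ⟨φ, U, V, z, hE, hV, hpV, hFV, hz, hzp, -⟩ := hP _ ht'
      have h1 := inv_near hX hK hO hT hE hV hFV hz (by rw [hzp]; exact hFO hF)
        (γ := fun s => g s (g t x)) (by rw [h0, hzp]) (fun s => hd (g t x) s)
      have h2 : ∀ᶠ s in 𝓝[>] (0 : ℝ), g s (g t x) ∈ G ∧ s < y - t :=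
        nhdsWithin_le_nhds (h1.and (gt_mem_nhds (by linarith)))
      obtain ⟨s, ⟨hs1, hs2⟩, hs3⟩ := (h2.and self_mem_nhdsWithin).exists
      have hs3' : 0 < s := hs3
      refine ⟨s + t, ?_, by linarith, by linarith⟩
      show g (s + t) x ∈ G
      rw [hadd]; exact hs1
  exact key

end Pool.Agent.Run7.h233.MC
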