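import Pool.Agent.Helper253.Sad.Wind

/-!
Proper functions on the plane with one local minimum and without local maxima have no (topological)
saddles. The planarity is used through continuous logarithms.
-/

set_option autoImplicit false

namespace Pool.Agent.Run7.h233.MC

open Set Topology Metric Filter Complex
open Pool.Agent.Helper253.Sad

/-- no continuous logarithm around an interior point of the image of a disc -/
theorem not_log_zero {F : ℂ → ℂ} {r : ℝ} (hr : 0 < r) (hc : ContinuousOn F (closedBall 0 r))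
    (hi : InjOn F (closedBall 0 r)) :
    ¬ HasLog (fun z : sphere (0 : ℂ) r => F z - F 0) := by
  have hrank : 1 < Module.rank ℝ ℂ := by rw [Complex.rank_real_complex]; norm_num
  have hsub : sphere (0 : ℂ) r ⊆ closedBall 0 r := sphere_subset_closedBall
  have hconn : PreconnectedSpace (sphere (0 : ℂ) r) :=
    isPreconnected_iff_preconnectedSpace.1 (isPreconnected_sphere hrank 0 r)
  have hcomp : CompactSpace (sphere (0 : ℂ) r) := isCompact_iff_compactSpace.1 (isCompact_sphere 0 r)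
  have h0mem : (0 : ℂ) ∈ closedBall (0 : ℂ) r := by simp [hr.le]
  have hnorm : ∀ z : sphere (0 : ℂ) r, ‖z.1‖ = r := fun z => by simp
  have hscal : ∀ (z : sphere (0 : ℂ) r) (a : ℝ), |a| ≤ 1 → (a : ℂ) * z.1 ∈ closedBall (0 : ℂ) r := by
    intro z a ha
    rw [mem_closedBall_zero_iff, norm_mul, hnorm, Complex.norm_real, Real.norm_eq_abs]
    nlinarith
  intro hl
  let a : unitInterval → ℝ := fun t => 1 / (1 + (t : ℝ))
  let b : unitInterval → ℝ := fun t => -(t : ℝ) / (1 + (t : ℝ))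
  have ht0 : ∀ t : unitInterval, (0 : ℝ) ≤ t := fun t => t.2.1
  have ht1 : ∀ t : unitInterval, (t : ℝ) ≤ 1 := fun t => t.2.2
  have hpos : ∀ t : unitInterval, (0 : ℝ) < 1 + (t : ℝ) := fun t => by linarith [ht0 t]
  have ha : ∀ t, |a t| ≤ 1 := fun t => by
    rw [abs_le]; simp only [a]
    constructor
    · rw [le_div_iff₀ (hpos t)]; linarith [ht0 t]
    · rw [div_le_iff₀ (hpos t)]; linarith [ht0 t]
  have hb : ∀ t, |b t| ≤ 1 := fun t => by
    rw [abs_le]; simp only [b]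
    constructor
    · rw [le_div_iff₀ (hpos t)]; linarith [ht0 t]
    · rw [div_le_iff₀ (hpos t)]; linarith [ht0 t]
  have hac : Continuous a := by
    refine Continuous.div continuous_const (by fun_prop) (fun t => (hpos t).ne')
  have hbc : Continuous b := by
    refine Continuous.div (by fun_prop) (by fun_prop) (fun t => (hpos t).ne')
  let H : unitInterval × sphere (0 : ℂ) r → ℂ :=
    fun p => F ((a p.1 : ℂ) * p.2.1) - F ((b p.1 : ℂ) * p.2.1)
  have hHc : Continuous H := by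
    refine Continuous.sub ?_ ?_
    · refine hc.comp_continuous (by fun_prop) (fun p => hscal _ _ (ha _))
    · refine hc.comp_continuous (by fun_prop) (fun p => hscal _ _ (hb _))
  have hH0 : ∀ p, H p ≠ 0 := by
    rintro ⟨t, z⟩ h
    have h1 : (a t : ℂ) * z.1 = (b t : ℂ) * z.1 :=
      hi (hscal _ _ (ha _)) (hscal _ _ (hb _)) (sub_eq_zero.1 h)
    have hz : z.1 ≠ 0 := by
      rw [← norm_pos_iff, hnorm]; exact hr
    have h2 : (a t : ℂ) = b t := mul_right_cancel₀ hz h1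
    have h3 : a t = b t := by exact_mod_cast h2
    simp only [a, b] at h3
    rw [div_left_inj' (hpos t).ne'] at h3
    linarith [ht0 t]
  have hl0 : HasLog (fun z : sphere (0 : ℂ) r => H (0, z)) := by
    have : (fun z : sphere (0 : ℂ) r => H (0, z)) = fun z : sphere (0 : ℂ) r => F z - F 0 := by
      funext z; simp [H, a, b]
    rw [this]; exact hl
  obtain ⟨g, hg, hHg⟩ := hasLog_homotopy hHc hH0 hl0
  have ha1 : a 1 = 1 / 2 := by simp [a]; norm_num
  have hb1 : b 1 = -(1 / 2) := by simp [b]; norm_num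
  have hodd : ∀ z : sphere (0 : ℂ) r, H (1, -z) = - H (1, z) := by
    intro z
    show F ((a 1 : ℂ) * (-z : sphere (0 : ℂ) r).1) - F ((b 1 : ℂ) * (-z : sphere (0 : ℂ) r).1) =
      -(F ((a 1 : ℂ) * z.1) - F ((b 1 : ℂ) * z.1))
    have e0 : (-z : sphere (0 : ℂ) r).1 = - z.1 := rfl
    rw [ha1, hb1, e0]
    have e1 : ((1 / 2 : ℝ) : ℂ) * (-z.1) = ((-(1 / 2) : ℝ) : ℂ) * z.1 := by push_cast; ring
    have e2 : ((-(1 / 2) : ℝ) : ℂ) * (-z.1) = ((1 / 2 : ℝ) : ℂ) * z.1 := by push_cast; ring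
    rw [e1, e2]; ring
  have hneg : Continuous (fun z : sphere (0 : ℂ) r => -z) := by
    refine Continuous.subtype_mk (by fun_prop) _
  have hk : ∀ z : sphere (0 : ℂ) r, Complex.exp (g (-z) - g z) = -1 := by
    intro z
    rw [Complex.exp_sub, ← hHg, ← hHg]
    show H (1, -z) / H (1, z) = -1
    rw [hodd, neg_div, div_self (hH0 _)]
  have hgc : Continuous (fun z : sphere (0 : ℂ) r => g (-z) - g z) := (hg.comp hneg).sub hg
  have hconst := const_of_exp_const hgc hk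
  have hne : (sphere (0 : ℂ) r).Nonempty := NormedSpace.sphere_nonempty.2 hr.le
  obtain ⟨z, hz⟩ := hne
  have h1 : g (-⟨z, hz⟩) - g ⟨z, hz⟩ = g (- -⟨z, hz⟩) - g (-⟨z, hz⟩) := hconst ⟨z, hz⟩ (-⟨z, hz⟩)
  rw [neg_neg] at h1
  have h2 := hk ⟨z, hz⟩
  have h3 : g (-⟨z, hz⟩) - g ⟨z, hz⟩ = 0 := by
    have : 2 * (g (-⟨z, hz⟩) - g ⟨z, hz⟩) = 0 := by linear_combination h1
    exact (mul_eq_zero.1 this).resolve_left two_ne_zero
  rw [h3, Complex.exp_zero] at h2
  norm_num at h2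

theorem not_log {F : ℂ → ℂ} {r : ℝ} (hr : 0 < r) (hc : ContinuousOn F (closedBall 0 r))
    (hi : InjOn F (closedBall 0 r)) {w : ℂ} (hw : ‖w‖ < r) :
    ¬ HasLog (fun z : sphere (0 : ℂ) r => F z - F w) := by
  intro hl
  have hcomp : CompactSpace (sphere (0 : ℂ) r) := isCompact_iff_compactSpace.1 (isCompact_sphere 0 r)
  refine not_log_zero hr hc hi ?_
  have hsub : sphere (0 : ℂ) r ⊆ closedBall 0 r := sphere_subset_closedBall
  have hmem : ∀ t : unitInterval, ‖((1 - (t : ℝ) : ℝ) : ℂ) * w‖ < r := by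
    intro t
    rw [norm_mul, Complex.norm_real, Real.norm_eq_abs, abs_of_nonneg (by linarith [t.2.2])]
    have h1 := t.2.1
    have h2 := norm_nonneg w
    nlinarith
  have h := hasLog_homotopy (X := sphere (0 : ℂ) r)
    (H := fun p => F p.2.1 - F (((1 - (p.1 : ℝ) : ℝ) : ℂ) * w)) ?_ ?_ ?_
  · simpa using h
  · refine Continuous.sub ?_ ?_
    · exact hc.comp_continuous (by fun_prop) (fun p => hsub p.2.2)
    · refine hc.comp_continuous (by fun_prop) (fun p => ?_)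
      rw [mem_closedBall_zero_iff]
      exact (hmem p.1).le
  · rintro ⟨t, z⟩ h
    have h1 := hi (hsub z.2) (by rw [mem_closedBall_zero_iff]; exact (hmem t).le)
      (sub_eq_zero.1 h)
    have h2 := hmem t
    rw [← h1] at h2
    have h3 := z.2
    rw [mem_sphere_zero_iff_norm] at h3
    rw [h3] at h2
    exact lt_irrefl _ h2
  · simpa using hl

/-- logarithm of `(x - y₁) / (x - y₀)` on a compact set which avoids a path from `y₀` to `y₁` -/
theorem log_ratio {K B : Set ℂ} (hK : IsCompact K) (hKB : Disjoint K B) {y₀ y₁ : ℂ}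
    (hB : JoinedIn B y₀ y₁) : ∃ g : ℂ → ℂ, ContinuousOn g K ∧
      ∀ x ∈ K, (x - y₁) / (x - y₀) = exp (g x) := by
  classical
  have hcomp : CompactSpace K := isCompact_iff_compactSpace.1 hK
  have hne : ∀ (t : unitInterval) (x : K), x.1 - hB.somePath t ≠ 0 := by
    intro t x h
    have h1 := hB.somePath_mem t
    rw [← sub_eq_zero.1 h] at h1
    exact disjoint_left.1 hKB x.2 h1
  have h := hasLog_homotopy (X := K)
    (H := fun p => (p.2.1 - hB.somePath p.1) / (p.2.1 - y₀)) ?_ ?_ ?_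
  · obtain ⟨g, hg, hg2⟩ := h
    refine ⟨fun x => if h : x ∈ K then g ⟨x, h⟩ else 0, ?_, ?_⟩
    · rw [continuousOn_iff_continuous_domRestrict]
      convert hg using 1
      funext x
      simp
    · intro x hx
      have := hg2 ⟨x, hx⟩
      simp only [hx, dite_true]
      rw [← this]
      simp
  · refine Continuous.div ?_ ?_ ?_
    · exact (by fun_prop : Continuous fun p : unitInterval × K => p.2.1).sub
        (hB.somePath.continuous.comp continuous_fst)
    · fun_prop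
    · rintro ⟨t, x⟩
      have := hne 0 x
      simpa using this
  · rintro ⟨t, x⟩
    have := hne 0 x
    refine div_ne_zero (hne t x) ?_
    simpa using this
  · refine ⟨fun _ => 0, continuous_const, fun x => ?_⟩
    have := hne 0 x
    simp only [Path.source] at this ⊢
    rw [div_self this, exp_zero]

/-- logarithm on a star-shaped set -/
theorem log_star {D : Set ℂ} (hD : IsCompact D) (hs : StarConvex ℝ 0 D) {F : ℂ → ℂ}
    (hF : ContinuousOn F D) (h0 : ∀ z ∈ D, F z ≠ 0) (h00 : (0 : ℂ) ∈ D) :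
    ∃ g : ℂ → ℂ, ContinuousOn g D ∧ ∀ z ∈ D, F z = exp (g z) := by
  classical
  have hcomp : CompactSpace D := isCompact_iff_compactSpace.1 hD
  have hmem : ∀ (t : unitInterval) (z : D), (t : ℝ) • z.1 ∈ D := fun t z =>
    hs.smul_mem z.2 t.2.1 t.2.2
  have h := hasLog_homotopy (X := D) (H := fun p => F ((p.1 : ℝ) • p.2.1)) ?_ ?_ ?_
  · obtain ⟨g, hg, hg2⟩ := h
    refine ⟨fun x => if h : x ∈ D then g ⟨x, h⟩ else 0, ?_, ?_⟩
    · rw [continuousOn_iff_continuous_domRestrict]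
      convert hg using 1
      funext x
      simp
    · intro x hx
      have := hg2 ⟨x, hx⟩
      simp only [hx, dite_true]
      rw [← this]
      simp
  · exact hF.comp_continuous (by fun_prop) (fun p => hmem p.1 p.2)
  · rintro ⟨t, z⟩
    exact h0 _ (hmem t z)
  · simpa using hasLog_const (h0 0 h00)

/-- two functions with the same exponential differ by a constant on preconnected sets -/
theorem const_on {X : Type*} [TopologicalSpace X] {S : Set X} (hS : IsPreconnected S) {f g : X → ℂ}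
    (hf : ContinuousOn f S) (hg : ContinuousOn g S) (h : ∀ x ∈ S, exp (f x) = exp (g x)) {x y : X}
    (hx : x ∈ S) (hy : y ∈ S) : f x - g x = f y - g y := by
  have : PreconnectedSpace S := isPreconnected_iff_preconnectedSpace.1 hS
  have hc : Continuous fun z : S => f z - g z :=
    (continuousOn_iff_continuous_domRestrict.1 hf).sub (continuousOn_iff_continuous_domRestrict.1 hg)
  exact const_of_exp_const hc (c := 1) (fun z => by
    rw [exp_sub, h _ z.2, div_self (exp_ne_zero _)]) ⟨x, hx⟩ ⟨y, hy⟩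

/-- Two disjoint paths whose ends are joined crosswise inside a disc do not exist in the plane. -/
theorem no_cross {ψ : ℂ → ℂ} (hψ : ContinuousOn ψ (closedBall 0 1)) (hinj : InjOn ψ (closedBall 0 1))
    {A B : Set ℂ} (hAB : Disjoint A B) (hA0 : ψ 0 ∉ A) (hB0 : ψ 0 ∉ B)
    (hA : ∀ t : ℝ, 0 < |t| → |t| ≤ 1 → ψ t ∈ A) (hB : ∀ t : ℝ, 0 < |t| → |t| ≤ 1 → ψ (t * I) ∈ B)
    (pA : JoinedIn A (ψ 1) (ψ (-1))) (pB : JoinedIn B (ψ I) (ψ (-I))) : False := by
  -- the path in `A`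
  obtain ⟨Ka, hKa⟩ : ∃ Ka : Set ℂ, Ka = range pA.somePath := ⟨_, rfl⟩
  have hKc : IsCompact Ka := by rw [hKa]; exact isCompact_range pA.somePath.continuous
  have hKA : Ka ⊆ A := by
    rw [hKa]; rintro x ⟨t, rfl⟩; exact pA.somePath_mem t
  have hKconn : IsPreconnected Ka := by
    rw [hKa]; exact isPreconnected_range pA.somePath.continuous
  have hKp : ψ 1 ∈ Ka := by rw [hKa]; exact ⟨0, pA.somePath.source⟩
  have hKm : ψ (-1) ∈ Ka := by rw [hKa]; exact ⟨1, pA.somePath.target⟩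
  have h0ball : (0 : ℂ) ∈ closedBall (0 : ℂ) 1 := by simp
  -- a small disc avoiding this path
  obtain ⟨δ, hδ0, hδ1, hδ⟩ : ∃ δ : ℝ, 0 < δ ∧ δ < 1 ∧ ∀ z : ℂ, ‖z‖ ≤ δ → ψ z ∉ Ka := by
    have hop : IsOpen Kaᶜ := hKc.isClosed.isOpen_compl
    have h1 : ψ 0 ∈ Kaᶜ := fun h => hA0 (hKA h)
    have h2 := hψ 0 h0ball
    have h3 : ∀ᶠ z in 𝓝[closedBall 0 1] (0 : ℂ), ψ z ∈ Kaᶜ := h2 (hop.mem_nhds h1)
    obtain ⟨ε, hε, hε2⟩ := Metric.mem_nhdsWithin_iff.1 h3
    refine ⟨min ε 1 / 2, by positivity, ?_, fun z hz => ?_⟩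
    · have := min_le_right ε 1; linarith
    · have h4 : ‖z‖ < ε := by
        have := min_le_left ε 1
        have h5 : 0 < min ε 1 := lt_min hε one_pos
        linarith
      have h5 : ‖z‖ ≤ 1 := by
        have := min_le_right ε 1
        linarith
      exact hε2 ⟨by simpa using h4, by simpa using h5⟩
  have hin : ∀ z : ℂ, ‖z‖ ≤ δ → z ∈ closedBall (0 : ℂ) 1 := fun z hz => by
    rw [mem_closedBall_zero_iff]; linarith
  have nI : ∀ t : ℝ, ‖(t : ℂ) * I‖ = |t| := fun t => by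
    rw [norm_mul, norm_I, mul_one, norm_real, Real.norm_eq_abs]
  have nR : ∀ t : ℝ, ‖(t : ℂ)‖ = |t| := fun t => by
    rw [norm_real, Real.norm_eq_abs]
  -- real and imaginary segments do not meet
  obtain ⟨yp, hyp⟩ : ∃ yp : ℂ, yp = ((δ / 2 : ℝ) : ℂ) * I := ⟨_, rfl⟩
  obtain ⟨ym, hym⟩ : ∃ ym : ℂ, ym = ((-(δ / 2) : ℝ) : ℂ) * I := ⟨_, rfl⟩
  have nyp : ‖yp‖ = δ / 2 := by rw [hyp, nI, abs_of_pos (by positivity)]
  have nym : ‖ym‖ = δ / 2 := by rw [hym, nI, abs_neg, abs_of_pos (by positivity)]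
  have iyp : yp.im = δ / 2 := by rw [hyp]; simp
  have iym : ym.im = -(δ / 2) := by rw [hym]; simp
  -- the compact set `K`
  obtain ⟨K, hK⟩ : ∃ K : Set ℂ, K = ψ '' ((fun t : ℝ => (t : ℂ)) '' Icc (-1) 1) ∪ Ka := ⟨_, rfl⟩
  have hIb : (fun t : ℝ => (t : ℂ)) '' Icc (-1) 1 ⊆ closedBall (0 : ℂ) 1 := by
    rintro _ ⟨t, ht, rfl⟩
    rw [mem_closedBall_zero_iff, nR, abs_le]
    exact ht
  have hKcp : IsCompact K := by
    rw [hK]
    refine IsCompact.union ?_ hKc
    exact ((isCompact_Icc.image continuous_ofReal).image_of_continuousOn (hψ.mono hIb))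
  have hKB : Disjoint K B := by
    rw [hK, disjoint_left]
    rintro x (⟨_, ⟨t, ht, rfl⟩, rfl⟩ | hx) hxB
    · rcases eq_or_ne t 0 with h | h
      · rw [h] at hxB
        exact hB0 (by simpa using hxB)
      · exact disjoint_left.1 hAB (hA t (abs_pos.2 h) (abs_le.2 ht)) hxB
    · exact disjoint_left.1 hAB (hKA hx) hxB
  -- join `ψ yp` and `ψ ym` in `B`
  have hseg : ∀ s : ℝ, (s = 1 ∨ s = -1) → JoinedIn B (ψ (((s * (δ / 2) : ℝ) : ℂ) * I))
      (ψ ((s : ℂ) * I)) := by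
    intro s hs
    have habs : ∀ t : unitInterval, |s * (δ / 2 + (1 - δ / 2) * t)| = δ / 2 + (1 - δ / 2) * t := by
      intro t
      have h1 : |s| = 1 := by rcases hs with h | h <;> rw [h] <;> simp
      rw [abs_mul, h1, one_mul, abs_of_pos]
      have := t.2.1
      nlinarith [t.2.1]
    have hle : ∀ t : unitInterval, δ / 2 + (1 - δ / 2) * (t : ℝ) ≤ 1 := fun t => by
      nlinarith [t.2.2, t.2.1]
    have hpos : ∀ t : unitInterval, 0 < δ / 2 + (1 - δ / 2) * (t : ℝ) := fun t => by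
      nlinarith [t.2.2, t.2.1]
    refine ⟨{ toFun := fun t => ψ (((s * (δ / 2 + (1 - δ / 2) * t) : ℝ) : ℂ) * I),
              continuous_toFun := ?_, source' := ?_, target' := ?_ }, fun t => ?_⟩
    · refine hψ.comp_continuous (by fun_prop) (fun t => ?_)
      rw [mem_closedBall_zero_iff, nI, habs]
      exact hle t
    · simp
    · simp
    · show ψ _ ∈ B
      refine hB _ ?_ ?_
      · rw [habs]; exact hpos t
      · rw [habs]; exact hle t
  have hBj : JoinedIn B (ψ ym) (ψ yp) := by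
    have h1 := hseg 1 (Or.inl rfl)
    have h2 := hseg (-1) (Or.inr rfl)
    have e1 : (((1 * (δ / 2) : ℝ) : ℂ)) * I = yp := by rw [hyp]; push_cast; ring
    have e2 : ((((-1) * (δ / 2) : ℝ) : ℂ)) * I = ym := by rw [hym]; push_cast; ring
    rw [e1] at h1
    rw [e2] at h2
    have e3 : ((1 : ℝ) : ℂ) * I = I := by push_cast; ring
    have e4 : ((-1 : ℝ) : ℂ) * I = -I := by push_cast; ring
    rw [e3] at h1
    rw [e4] at h2
    exact h2.trans (pB.symm.trans h1.symm)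
  obtain ⟨l, hl, hl2⟩ := log_ratio hKcp hKB hBj
  -- the rest `R` of `K` together with the circle
  obtain ⟨R, hR⟩ : ∃ R : Set ℂ, R = (ψ '' ((fun t : ℝ => (t : ℂ)) '' Icc (-1) (-δ)) ∪ Ka) ∪
    ψ '' ((fun t : ℝ => (t : ℂ)) '' Icc δ 1) := ⟨_, rfl⟩
  have hI1 : (fun t : ℝ => (t : ℂ)) '' Icc (-1) (-δ) ⊆ (fun t : ℝ => (t : ℂ)) '' Icc (-1) 1 :=
    image_mono (Icc_subset_Icc le_rfl (by linarith))
  have hI2 : (fun t : ℝ => (t : ℂ)) '' Icc δ 1 ⊆ (fun t : ℝ => (t : ℂ)) '' Icc (-1) 1 :=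
    image_mono (Icc_subset_Icc (by linarith) le_rfl)
  have hRK : R ⊆ K := by
    rw [hR, hK]
    rintro x ((hx | hx) | hx)
    · exact Or.inl (image_mono hI1 hx)
    · exact Or.inr hx
    · exact Or.inl (image_mono hI2 hx)
  have hRc : IsCompact R := by
    rw [hR]
    refine (IsCompact.union ?_ hKc).union ?_
    · exact (isCompact_Icc.image continuous_ofReal).image_of_continuousOn
        (hψ.mono (hI1.trans hIb))
    · exact (isCompact_Icc.image continuous_ofReal).image_of_continuousOn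
        (hψ.mono (hI2.trans hIb))
  have hRconn : IsPreconnected R := by
    rw [hR]
    have c1 : IsPreconnected (ψ '' ((fun t : ℝ => (t : ℂ)) '' Icc (-1) (-δ))) :=
      (isPreconnected_Icc.image _ continuous_ofReal.continuousOn).image _ (hψ.mono (hI1.trans hIb))
    have c2 : IsPreconnected (ψ '' ((fun t : ℝ => (t : ℂ)) '' Icc δ 1)) :=
      (isPreconnected_Icc.image _ continuous_ofReal.continuousOn).image _ (hψ.mono (hI2.trans hIb))
    have m1 : ψ (-1) ∈ ψ '' ((fun t : ℝ => (t : ℂ)) '' Icc (-1) (-δ)) :=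
      ⟨-1, ⟨-1, ⟨le_rfl, by linarith⟩, by push_cast; rfl⟩, rfl⟩
    have m2 : ψ 1 ∈ ψ '' ((fun t : ℝ => (t : ℂ)) '' Icc δ 1) :=
      ⟨1, ⟨1, ⟨by linarith, le_rfl⟩, by push_cast; rfl⟩, rfl⟩
    exact (c1.union _ m1 hKm hKconn).union _ (Or.inr hKp) m2 c2
  have hsd : sphere (0 : ℂ) δ ⊆ closedBall 0 1 := fun z hz =>
    hin z (by rw [mem_sphere_zero_iff_norm] at hz; exact hz.le)
  obtain ⟨K2, hK2⟩ : ∃ K2 : Set ℂ, K2 = R ∪ ψ '' sphere 0 δ := ⟨_, rfl⟩
  have hK2c : IsCompact K2 := by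
    rw [hK2]
    exact hRc.union ((isCompact_sphere 0 δ).image_of_continuousOn (hψ.mono hsd))
  -- the short segment from `ym` to `yp`
  obtain ⟨S, hS⟩ : ∃ S : Set ℂ, S = ψ '' ((fun t : ℝ => (t : ℂ) * I) '' Icc (-(δ / 2)) (δ / 2)) :=
    ⟨_, rfl⟩
  have hK2S : Disjoint K2 S := by
    rw [disjoint_left]
    rintro x hx hxS
    rw [hS] at hxS
    obtain ⟨_, ⟨s, hs, rfl⟩, rfl⟩ := hxS
    have hns : ‖(s : ℂ) * I‖ ≤ δ / 2 := by rw [nI]; exact abs_le.2 hs
    have hsb : (s : ℂ) * I ∈ closedBall (0 : ℂ) 1 := hin _ (by linarith)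
    have key : ∀ z : ℂ, z ∈ closedBall (0 : ℂ) 1 → δ ≤ ‖z‖ → ψ z ≠ ψ ((s : ℂ) * I) := by
      intro z hz hδz h
      have := hinj hz hsb h
      rw [this] at hδz
      linarith
    rw [hK2, hR] at hx
    rcases hx with ((⟨_, ⟨t, ht, rfl⟩, h⟩ | hx) | ⟨_, ⟨t, ht, rfl⟩, h⟩) | ⟨z, hz, h⟩
    · refine key _ (hIb (hI1 ⟨t, ht, rfl⟩)) ?_ h
      show δ ≤ ‖(t : ℂ)‖
      rw [nR, abs_of_nonpos (by linarith [ht.2])]
      linarith [ht.2]
    · exact hδ _ (by linarith) hx
    · refine key _ (hIb (hI2 ⟨t, ht, rfl⟩)) ?_ h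
      show δ ≤ ‖(t : ℂ)‖
      rw [nR, abs_of_nonneg (by linarith [ht.1])]
      exact ht.1
    · refine key _ (hsd hz) ?_ h
      rw [mem_sphere_zero_iff_norm] at hz
      exact hz.ge
  have hSj : JoinedIn S (ψ ym) (ψ yp) := by
    have habs : ∀ t : unitInterval, |-(δ / 2) + δ * (t : ℝ)| ≤ δ / 2 := by
      intro t
      rw [abs_le]
      constructor <;> nlinarith [t.2.1, t.2.2]
    refine ⟨{ toFun := fun t => ψ (((-(δ / 2) + δ * t : ℝ) : ℂ) * I),
              continuous_toFun := ?_, source' := ?_, target' := ?_ }, fun t => ?_⟩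
    · refine hψ.comp_continuous (by fun_prop) (fun t => ?_)
      refine hin _ ?_
      rw [nI]
      linarith [habs t]
    · simp [hym]
    · rw [hyp]
      congr 2
      push_cast
      ring
    · rw [hS]
      exact ⟨_, ⟨_, abs_le.1 (habs t), rfl⟩, rfl⟩
  obtain ⟨m, hm, hm2⟩ := log_ratio hK2c hK2S hSj
  -- `l` and `m` differ by a constant on `R`
  have hRK2 : R ⊆ K2 := by rw [hK2]; exact subset_union_left
  have haR : ψ ((-δ : ℝ) : ℂ) ∈ R := by
    rw [hR]
    exact Or.inl (Or.inl ⟨_, ⟨-δ, ⟨by linarith, le_rfl⟩, rfl⟩, rfl⟩)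
  have hbR : ψ ((δ : ℝ) : ℂ) ∈ R := by
    rw [hR]
    exact Or.inr ⟨_, ⟨δ, ⟨le_rfl, hδ1.le⟩, rfl⟩, rfl⟩
  have E1 : l (ψ ((-δ : ℝ) : ℂ)) - m (ψ ((-δ : ℝ) : ℂ)) = l (ψ ((δ : ℝ) : ℂ)) - m (ψ ((δ : ℝ) : ℂ)) :=
    const_on hRconn (hl.mono hRK) (hm.mono hRK2)
      (fun x hx => by rw [← hl2 x (hRK hx), ← hm2 x (hRK2 hx)]) haR hbR
  -- the half discs
  have hstar : ∀ s : ℝ, StarConvex ℝ (0 : ℂ) (closedBall 0 δ ∩ {z : ℂ | 0 ≤ s * z.im}) := by
    intro s
    refine (Convex.starConvex ?_ ⟨by simp [hδ0.le], by simp⟩)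
    refine (convex_closedBall _ _).inter ?_
    intro x hx y hy a b ha hb hab
    simp only [mem_setOf_eq] at hx hy ⊢
    simp only [add_im, real_smul, re_ofReal_mul, im_ofReal_mul]
    nlinarith [mul_nonneg ha hx, mul_nonneg hb hy]
  have hcompact : ∀ s : ℝ, IsCompact (closedBall (0 : ℂ) δ ∩ {z : ℂ | 0 ≤ s * z.im}) := by
    intro s
    refine (isCompact_closedBall _ _).inter_right ?_
    exact isClosed_le continuous_const (by fun_prop)
  have hcb : closedBall (0 : ℂ) δ ⊆ closedBall 0 1 := closedBall_subset_closedBall hδ1.le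
  have hypb : yp ∈ closedBall (0 : ℂ) 1 := hin _ (by rw [nyp]; linarith)
  have hymb : ym ∈ closedBall (0 : ℂ) 1 := hin _ (by rw [nym]; linarith)
  obtain ⟨lp, hlp, hlp2⟩ := log_star (hcompact (-1)) (hstar (-1)) (F := fun z => ψ z - ψ yp)
    ((hψ.mono (inter_subset_left.trans hcb)).sub continuousOn_const) (by
      rintro z ⟨hz1, hz2⟩ h
      have := hinj (hcb hz1) hypb (sub_eq_zero.1 h)
      simp only [mem_setOf_eq] at hz2
      rw [this, iyp] at hz2
      linarith) ⟨by simp [hδ0.le], by simp⟩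
  obtain ⟨lm, hlm, hlm2⟩ := log_star (hcompact 1) (hstar 1) (F := fun z => ψ z - ψ ym)
    ((hψ.mono (inter_subset_left.trans hcb)).sub continuousOn_const) (by
      rintro z ⟨hz1, hz2⟩ h
      have := hinj (hcb hz1) hymb (sub_eq_zero.1 h)
      simp only [mem_setOf_eq] at hz2
      rw [this, iym] at hz2
      linarith) ⟨by simp [hδ0.le], by simp⟩
  -- on the real segment
  have hreal : ∀ (s t : ℝ), t ∈ Icc (-δ) δ → (t : ℂ) ∈ closedBall (0 : ℂ) δ ∩ {z : ℂ | 0 ≤ s * z.im} := by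
    intro s t ht
    refine ⟨?_, by simp⟩
    rw [mem_closedBall_zero_iff, nR]
    exact abs_le.2 ht
  have hsegK : ∀ t : ℝ, t ∈ Icc (-δ) δ → ψ (t : ℂ) ∈ K := by
    intro t ht
    rw [hK]
    exact Or.inl ⟨_, ⟨t, ⟨by linarith [ht.1], by linarith [ht.2]⟩, rfl⟩, rfl⟩
  have hcI : ContinuousOn (fun t : ℝ => (t : ℂ)) (Icc (-δ) δ) := continuous_ofReal.continuousOn
  have E2 : l (ψ ((-δ : ℝ) : ℂ)) - (lp ((-δ : ℝ) : ℂ) - lm ((-δ : ℝ) : ℂ)) =
      l (ψ ((δ : ℝ) : ℂ)) - (lp ((δ : ℝ) : ℂ) - lm ((δ : ℝ) : ℂ)) := by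
    refine const_on (X := ℝ) (S := Icc (-δ) δ) isPreconnected_Icc (f := fun t : ℝ => l (ψ (t : ℂ)))
      (g := fun t : ℝ => lp (t : ℂ) - lm (t : ℂ)) ?_ ?_ ?_ ⟨le_rfl, by linarith⟩
      ⟨by linarith, le_rfl⟩
    · refine hl.comp ((hψ.mono hcb).comp hcI (fun t ht => (hreal 1 t ht).1)) hsegK
    · exact (hlp.comp hcI (fun t ht => hreal (-1) t ht)).sub
        (hlm.comp hcI (fun t ht => hreal 1 t ht))
    · intro t ht
      rw [exp_sub, ← hlp2 _ (hreal (-1) t ht), ← hlm2 _ (hreal 1 t ht), ← hl2 _ (hsegK t ht)]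
  -- a logarithm of `ψ z - ψ ym` on the circle
  refine not_log hδ0 (hψ.mono hcb) (hinj.mono hcb) (w := ym) (by rw [nym]; linarith) ?_
  have hsm : ∀ z ∈ sphere (0 : ℂ) δ, ψ z ∈ K2 := fun z hz => by
    rw [hK2]; exact Or.inr ⟨z, hz, rfl⟩
  have hcs : ContinuousOn ψ (sphere (0 : ℂ) δ) := hψ.mono hsd
  have hU : ContinuousOn (fun z => lp z - m (ψ z)) (sphere (0 : ℂ) δ ∩ {z : ℂ | z.im ≤ 0}) := by
    refine ContinuousOn.sub (hlp.mono ?_) (hm.comp (hcs.mono inter_subset_left)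
      (fun z hz => hsm z hz.1))
    rintro z ⟨hz1, hz2⟩
    refine ⟨sphere_subset_closedBall hz1, ?_⟩
    simp only [mem_setOf_eq] at hz2 ⊢
    linarith
  obtain ⟨k, hk⟩ : ∃ k : ℂ, k = lp ((δ : ℝ) : ℂ) - m (ψ ((δ : ℝ) : ℂ)) - lm ((δ : ℝ) : ℂ) := ⟨_, rfl⟩
  have hV : ContinuousOn (fun z => lm z + k) (sphere (0 : ℂ) δ ∩ {z : ℂ | 0 ≤ z.im}) := by
    refine ContinuousOn.add (hlm.mono ?_) continuousOn_const
    rintro z ⟨hz1, hz2⟩
    refine ⟨sphere_subset_closedBall hz1, ?_⟩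
    simp only [mem_setOf_eq] at hz2 ⊢
    linarith
  have hcorner : ∀ z ∈ sphere (0 : ℂ) δ, z.im = 0 → lp z - m (ψ z) = lm z + k := by
    intro z hz him
    have hzr : z = ((z.re : ℝ) : ℂ) := by
      apply Complex.ext <;> simp [him]
    have hre : |z.re| = δ := by
      rw [mem_sphere_zero_iff_norm, hzr, nR] at hz
      exact hz
    rcases (abs_eq hδ0.le).1 hre with h | h
    · rw [hzr, h, hk]; ring
    · rw [hzr, h, hk]
      linear_combination E1 - E2
  have hexpk : exp k = 1 := by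
    have hδR : ((δ : ℝ) : ℂ) ∈ sphere (0 : ℂ) δ := by
      rw [mem_sphere_zero_iff_norm, nR, abs_of_pos hδ0]
    have hm3 := hm2 _ (hsm _ hδR)
    have h1 := hlp2 _ (hreal (-1) δ ⟨by linarith, le_rfl⟩)
    have h2 := hlm2 _ (hreal 1 δ ⟨by linarith, le_rfl⟩)
    rw [hk, exp_sub, exp_sub, ← h1, ← h2, ← hm3]
    have n1 : ψ ((δ : ℝ) : ℂ) - ψ yp ≠ 0 := by rw [h1]; exact exp_ne_zero _
    have n2 : ψ ((δ : ℝ) : ℂ) - ψ ym ≠ 0 := by rw [h2]; exact exp_ne_zero _
    field_simp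
  classical
  refine ⟨fun z => if z.1.im ≤ 0 then lp z - m (ψ z) else lm z + k, ?_, ?_⟩
  · have hG : ContinuousOn (fun z : ℂ => if z.im ≤ 0 then lp z - m (ψ z) else lm z + k)
        ((sphere (0 : ℂ) δ ∩ {z : ℂ | z.im ≤ 0}) ∪ (sphere (0 : ℂ) δ ∩ {z : ℂ | 0 ≤ z.im})) := by
      refine ContinuousOn.union_of_isClosed ?_ ?_ ?_ ?_
      · refine hU.congr fun z hz => ?_
        have : z.im ≤ 0 := hz.2
        simp [this]
      · refine hV.congr fun z hz => ?_
        have h0 : 0 ≤ z.im := hz.2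
        by_cases h : z.im ≤ 0
        · simp only [h, if_true]
          exact hcorner z hz.1 (le_antisymm h h0)
        · simp [h]
      · exact isClosed_sphere.inter (isClosed_le continuous_im continuous_const)
      · exact isClosed_sphere.inter (isClosed_le continuous_const continuous_im)
    have hcov : sphere (0 : ℂ) δ ⊆ (sphere (0 : ℂ) δ ∩ {z : ℂ | z.im ≤ 0}) ∪
        (sphere (0 : ℂ) δ ∩ {z : ℂ | 0 ≤ z.im}) := by
      intro z hz
      rcases le_total z.im 0 with h | h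
      · exact Or.inl ⟨hz, h⟩
      · exact Or.inr ⟨hz, h⟩
    exact continuousOn_iff_continuous_domRestrict.1 (hG.mono hcov)
  · rintro ⟨z, hz⟩
    show ψ z - ψ ym = exp (if z.im ≤ 0 then lp z - m (ψ z) else lm z + k)
    have hlmz : 0 ≤ z.im → ψ z - ψ ym = exp (lm z) := fun h0 =>
      hlm2 z ⟨sphere_subset_closedBall hz, by simpa using h0⟩
    by_cases h : z.im ≤ 0
    · rw [if_pos h, exp_sub, ← hm2 _ (hsm z hz),
        ← hlp2 z ⟨sphere_subset_closedBall hz, by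
          simp only [mem_setOf_eq]; linarith⟩]
      have n1 : ψ z - ψ yp ≠ 0 := by
        intro h1
        have h2 := hinj (hsd hz) hypb (sub_eq_zero.1 h1)
        rw [mem_sphere_zero_iff_norm, h2, nyp] at hz
        linarith
      have n2 : ψ z - ψ ym ≠ 0 := by
        intro h1
        have h2 := hinj (hsd hz) hymb (sub_eq_zero.1 h1)
        rw [mem_sphere_zero_iff_norm, h2, nym] at hz
        linarith
      field_simp
    · rw [if_neg h, exp_add, hexpk, mul_one]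
      exact hlmz (not_le.1 h).le

end Pool.Agent.Run7.h233.MC
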