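import Pool.Agent.Run7.h233.MC.Plane

/-!
Proper functions on the plane with one local minimum and without local maxima have no (topological)
saddles.
-/

set_option autoImplicit false

namespace Pool.Agent.Run7.h233.MC

open Set Topology Metric Filter Complex

theorem exterior_conn (R : ℝ) (hR : 0 ≤ R) : IsPreconnected {x : ℂ | R < ‖x‖} := by
  have hrank : 1 < Module.rank ℝ ℂ := by rw [Complex.rank_real_complex]; norm_num
  have h := ((isPreconnected_Ioi (a := R)).prod (isPreconnected_sphere hrank (0 : ℂ) 1)).image
    (fun p : ℝ × ℂ => (p.1 : ℂ) * p.2) (by fun_prop)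
  convert h using 1
  ext x
  constructor
  · intro hx
    have hx' : R < ‖x‖ := hx
    have hpos : 0 < ‖x‖ := hR.trans_lt hx'
    refine ⟨(‖x‖, x / ‖x‖), ⟨hx', ?_⟩, ?_⟩
    · rw [mem_sphere_zero_iff_norm, norm_div, norm_real, norm_norm, div_self hpos.ne']
    · show ((‖x‖ : ℝ) : ℂ) * (x / ‖x‖) = x
      have : ((‖x‖ : ℝ) : ℂ) ≠ 0 := by exact_mod_cast hpos.ne'
      field_simp
  · rintro ⟨⟨r, u⟩, ⟨hr, hu⟩, rfl⟩
    have hr' : R < r := hr
    have hu' : ‖u‖ = 1 := by simpa using hu
    show R < ‖(r : ℂ) * u‖
    rw [norm_mul, hu', mul_one, norm_real, Real.norm_eq_abs]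
    exact hr'.trans_le (le_abs_self r)

/-- sublevel sets are connected -/
theorem low_conn {f : ℂ → ℝ} (hf : Continuous f) (hinf : Tendsto f (cocompact ℂ) atTop) {x₀ : ℂ}
    (hmin : ∀ x, IsLocalMin f x → x = x₀) (c : ℝ) : IsPreconnected {x | f x < c} := by
  obtain ⟨A, hA⟩ : ∃ A : Set ℂ, A = {x | f x < c} := ⟨_, rfl⟩
  rw [← hA]
  have hop : IsOpen A := by rw [hA]; exact isOpen_lt hf continuous_const
  have key : ∀ a ∈ A, x₀ ∈ connectedComponentIn A a := by
    intro a ha
    have hCa : a ∈ connectedComponentIn A a := mem_connectedComponentIn ha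
    have hCo : IsOpen (connectedComponentIn A a) := hop.connectedComponentIn
    have hCA : connectedComponentIn A a ⊆ A := connectedComponentIn_subset A a
    have hle : ∀ x ∈ closure (connectedComponentIn A a), f x ≤ c := by
      intro x hx
      have h1 : IsClosed {x : ℂ | f x ≤ c} := isClosed_le hf continuous_const
      refine h1.closure_subset_iff.2 (fun y hy => ?_) hx
      have h2 := hCA hy
      rw [hA] at h2
      have h3 : f y < c := h2
      exact h3.le
    have hcpt : IsCompact (closure (connectedComponentIn A a)) := by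
      have h1 : ∀ᶠ x in cocompact ℂ, c < f x := hinf.eventually_gt_atTop c
      obtain ⟨K, hK, hK2⟩ := mem_cocompact.1 h1
      refine hK.of_isClosed_subset isClosed_closure fun x hx => ?_
      by_contra hxK
      have := hK2 hxK
      exact absurd (hle x hx) (not_le.2 this)
    obtain ⟨q, hq, hqmin⟩ := hcpt.exists_isMinOn ⟨a, subset_closure hCa⟩ hf.continuousOn
    have hqa : f q ≤ f a := hqmin (subset_closure hCa)
    have hqA : q ∈ A := by
      rw [hA] at ha ⊢
      exact hqa.trans_lt ha
    have hqC : q ∈ connectedComponentIn A a := by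
      have h1 : IsPreconnected (insert q (connectedComponentIn A a)) :=
        isPreconnected_connectedComponentIn.subset_closure (subset_insert _ _)
          (insert_subset hq subset_closure)
      exact h1.subset_connectedComponentIn (mem_insert_of_mem _ hCa)
        (insert_subset hqA hCA) (mem_insert _ _)
    have hloc : IsLocalMin f q := by
      filter_upwards [hCo.mem_nhds hqC] with y hy
      exact hqmin (subset_closure hy)
    rw [← hmin q hloc]
    exact hqC
  rcases A.eq_empty_or_nonempty with h | ⟨a, ha⟩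
  · rw [h]; exact isPreconnected_empty
  · have h1 : A = connectedComponentIn A x₀ := by
      refine Subset.antisymm (fun b hb => ?_) (connectedComponentIn_subset _ _)
      have h2 := key b hb
      rw [← connectedComponentIn_eq h2]
      exact mem_connectedComponentIn hb
    rw [h1]
    exact isPreconnected_connectedComponentIn

/-- superlevel sets are connected -/
theorem upp_conn {f : ℂ → ℝ} (hf : Continuous f) (hinf : Tendsto f (cocompact ℂ) atTop)
    (hmax : ∀ x, ¬ IsLocalMax f x) (c : ℝ) : IsPreconnected {x | c < f x} := by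
  obtain ⟨B, hB⟩ : ∃ B : Set ℂ, B = {x | c < f x} := ⟨_, rfl⟩
  rw [← hB]
  have hop : IsOpen B := by rw [hB]; exact isOpen_lt continuous_const hf
  obtain ⟨R, hR0, hR⟩ : ∃ R : ℝ, 0 ≤ R ∧ {x : ℂ | R < ‖x‖} ⊆ B := by
    have h1 : ∀ᶠ x in cocompact ℂ, c < f x := hinf.eventually_gt_atTop c
    obtain ⟨K, hK, hK2⟩ := mem_cocompact.1 h1
    obtain ⟨R, hR⟩ := hK.isBounded.subset_closedBall (0 : ℂ)
    refine ⟨max R 0, le_max_right _ _, fun x hx => ?_⟩
    rw [hB]
    refine hK2 fun hxK => ?_
    have h2 := hR hxK
    rw [mem_closedBall_zero_iff] at h2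
    have h3 : max R 0 < ‖x‖ := hx
    have := le_max_left R 0
    linarith
  have hE := exterior_conn R hR0
  have key : ∀ b ∈ B, {x : ℂ | R < ‖x‖} ⊆ connectedComponentIn B b := by
    intro b hb
    have hCb : b ∈ connectedComponentIn B b := mem_connectedComponentIn hb
    have hCo : IsOpen (connectedComponentIn B b) := hop.connectedComponentIn
    have hCB : connectedComponentIn B b ⊆ B := connectedComponentIn_subset B b
    by_cases hmeet : ({x : ℂ | R < ‖x‖} ∩ connectedComponentIn B b).Nonempty
    · obtain ⟨y, hy1, hy2⟩ := hmeet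
      rw [connectedComponentIn_eq hy2]
      exact hE.subset_connectedComponentIn hy1 hR
    · exfalso
      have hbd : connectedComponentIn B b ⊆ closedBall (0 : ℂ) R := by
        intro x hx
        by_contra hx2
        rw [mem_closedBall_zero_iff, not_le] at hx2
        exact hmeet ⟨x, hx2, hx⟩
      have hcpt : IsCompact (closure (connectedComponentIn B b)) :=
        (isCompact_closedBall (0 : ℂ) R).of_isClosed_subset isClosed_closure
          (closure_minimal hbd isClosed_closedBall)
      obtain ⟨q, hq, hqmax⟩ := hcpt.exists_isMaxOn ⟨b, subset_closure hCb⟩ hf.continuousOn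
      have hqb : f b ≤ f q := hqmax (subset_closure hCb)
      have hqB : q ∈ B := by
        rw [hB] at hb ⊢
        exact lt_of_lt_of_le hb hqb
      have hqC : q ∈ connectedComponentIn B b := by
        have h1 : IsPreconnected (insert q (connectedComponentIn B b)) :=
          isPreconnected_connectedComponentIn.subset_closure (subset_insert _ _)
            (insert_subset hq subset_closure)
        exact h1.subset_connectedComponentIn (mem_insert_of_mem _ hCb)
          (insert_subset hqB hCB) (mem_insert _ _)
      refine hmax q ?_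
      filter_upwards [hCo.mem_nhds hqC] with y hy
      exact hqmax (subset_closure hy)
  rcases B.eq_empty_or_nonempty with h | ⟨b, hb⟩
  · rw [h]; exact isPreconnected_empty
  · have h1 : B = connectedComponentIn B b := by
      refine Subset.antisymm (fun b' hb' => ?_) (connectedComponentIn_subset _ _)
      obtain ⟨y, hy⟩ : {x : ℂ | R < ‖x‖}.Nonempty := by
        refine ⟨((R + 1 : ℝ) : ℂ), ?_⟩
        show R < ‖((R + 1 : ℝ) : ℂ)‖
        rw [norm_real, Real.norm_eq_abs, abs_of_nonneg (by linarith)]
        linarith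
      rw [connectedComponentIn_eq (key b hb hy), ← connectedComponentIn_eq (key b' hb' hy)]
      exact mem_connectedComponentIn hb'
    rw [h1]
    exact isPreconnected_connectedComponentIn

/-- no topological saddles -/
theorem no_saddle {f : ℂ → ℝ} (hf : Continuous f) (hinf : Tendsto f (cocompact ℂ) atTop) {x₀ : ℂ}
    (hmin : ∀ x, IsLocalMin f x → x = x₀) (hmax : ∀ x, ¬ IsLocalMax f x) {ψ : ℂ → ℂ}
    (hψ : ContinuousOn ψ (closedBall 0 1)) (hinj : InjOn ψ (closedBall 0 1))
    (hlow : ∀ t : ℝ, 0 < |t| → |t| ≤ 1 → f (ψ t) < f (ψ 0))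
    (hupp : ∀ t : ℝ, 0 < |t| → |t| ≤ 1 → f (ψ 0) < f (ψ (t * I))) : False := by
  obtain ⟨c, hc⟩ : ∃ c, c = f (ψ 0) := ⟨_, rfl⟩
  rw [← hc] at hlow hupp
  have hA : IsOpen {x | f x < c} := isOpen_lt hf continuous_const
  have hB : IsOpen {x | c < f x} := isOpen_lt continuous_const hf
  have a1 : ψ 1 ∈ {x | f x < c} := by
    have := hlow 1 (by simp) (by simp)
    simpa using this
  have a2 : ψ (-1) ∈ {x | f x < c} := by
    have := hlow (-1) (by simp) (by simp)
    simpa using this
  have b1 : ψ I ∈ {x | c < f x} := by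
    have := hupp 1 (by simp) (by simp)
    simpa using this
  have b2 : ψ (-I) ∈ {x | c < f x} := by
    have := hupp (-1) (by simp) (by simp)
    simpa using this
  have pA : IsPathConnected {x | f x < c} :=
    hA.isConnected_iff_isPathConnected.1 ⟨⟨_, a1⟩, low_conn hf hinf hmin c⟩
  have pB : IsPathConnected {x | c < f x} :=
    hB.isConnected_iff_isPathConnected.1 ⟨⟨_, b1⟩, upp_conn hf hinf hmax c⟩
  refine no_cross hψ hinj (A := {x | f x < c}) (B := {x | c < f x}) ?_ ?_ ?_ hlow hupp
    (pA.joinedIn _ a1 _ a2) (pB.joinedIn _ b1 _ b2)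
  · rw [disjoint_left]
    intro x hx hx2
    have h1 : f x < c := hx
    have h2 : c < f x := hx2
    exact lt_asymm h1 h2
  · intro h
    have : f (ψ 0) < c := h
    rw [← hc] at this
    exact lt_irrefl _ this
  · intro h
    have : c < f (ψ 0) := h
    rw [← hc] at this
    exact lt_irrefl _ this

end Pool.Agent.Run7.h233.MC
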