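import Pool.Agent.Run7.h233.MC.Knot
import Pool.Agent.N15.SF.LP

/-!
The trace of an isotopy is a concordance without critical points of the height.
-/

set_option autoImplicit false

namespace Pool.Agent.Run7.h233.MC

open scoped ContDiff RealInnerProductSpace Topology
open Set Metric Filter
open Pool.Agent.Y503.RB Pool.Agent.N503.ML Pool.Agent.N15.SF

/-- a concordance without critical points is Morse and has no extrema -/
theorem extr_of_noCrit {F : Set E4} {H : ℝ} (h : NoCrit F H) :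
    MorseF F H ∧ nmaxF F H = 0 ∧ nminF F H = 0 := by
  have key : ∀ p ∈ F ∩ oslab H, ¬ IsLocalMaxOn (fun x : E4 => x 3) F p ∧
      ¬ IsLocalMinOn (fun x : E4 => x 3) F p := by
    intro p hp
    obtain ⟨φ, U, V, z, hE, hV, hpV, hFV, hz, hzp, hnd⟩ := h p hp
    have hsm : ContDiffAt ℝ ∞ φ z := hE.smooth.contDiffAt (hE.isOpen.mem_nhds hz)
    have hz0 : (∀ v : ℂ, ⟪vert, d1 φ v z⟫ = 0) → False := fun hc => by
      apply hnd
      ext v
      rw [height_eq, (hess hsm vert 0).1]
      exact hc v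
    refine ⟨fun hm => ?_, fun hm => ?_⟩
    · refine hz0 (NEAR.cond_of_max hE.isOpen hE.smooth hFV hz ?_).1
      rw [hzp]
      simpa only [inner_vert] using hm
    · refine hz0 fun v => ?_
      have h1 := (NEAR.cond_of_max (y := -vert) hE.isOpen hE.smooth hFV hz (by
        rw [hzp]
        have h2 := hm.neg
        simpa only [inner_neg_left, inner_vert] using h2)).1 v
      rw [inner_neg_left, neg_eq_zero] at h1
      exact h1
  refine ⟨fun p hp => ?_, ?_, ?_⟩
  · obtain ⟨φ, U, V, z, hE, hV, hpV, hFV, hz, hzp, hnd⟩ := h p hp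
    exact ⟨φ, U, V, z, hE, hV, hpV, hFV, hz, hzp, fun hc => absurd hc hnd⟩
  · unfold nmaxF
    rw [encard_eq_zero, eq_empty_iff_forall_notMem]
    exact fun p hp => (key p hp.1).1 hp.2
  · unfold nminF
    rw [encard_eq_zero, eq_empty_iff_forall_notMem]
    exact fun p hp => (key p hp.1).2 hp.2

/-- the map from the plane to the cylinder -/
noncomputable def qq (w : ℂ) : ℝ × Circle := (w.im, Circle.exp w.re)

theorem qq_open : IsOpenMap qq := by
  have h1 : IsOpenMap (Prod.map id Circle.exp : ℝ × ℝ → ℝ × Circle) :=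
    IsOpenMap.id.prodMap circle_open
  have h2 : IsOpenMap (fun w : ℂ => ((w.im, w.re) : ℝ × ℝ)) := by
    have h3 : IsOpenMap (Prod.swap : ℝ × ℝ → ℝ × ℝ) := (Homeomorph.prodComm ℝ ℝ).isOpenMap
    exact h3.comp Complex.equivRealProdCLM.toHomeomorph.isOpenMap
  exact h1.comp h2

theorem qq_cont : Continuous qq := by
  unfold qq
  exact Complex.continuous_im.prodMk (Circle.exp.continuous.comp Complex.continuous_re)

theorem qq_inj {s₀ : ℝ} : InjOn qq {w : ℂ | |w.re - s₀| < 1} := by
  intro w hw w' hw' h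
  have h1 : w.im = w'.im := congrArg Prod.fst h
  have h2 : Circle.exp w.re = Circle.exp w'.re := congrArg Prod.snd h
  obtain ⟨m, hm⟩ := Circle.exp_eq_exp.1 h2
  have hw1 : |w.re - s₀| < 1 := hw
  have hw1' : |w'.re - s₀| < 1 := hw'
  have hm0 : m = 0 := by
    by_contra hne
    have h3 : (1 : ℝ) ≤ |(m : ℝ)| := by
      have : (1 : ℤ) ≤ |m| := Int.one_le_abs hne
      exact_mod_cast this
    have h4 : |w.re - w'.re| = |(m : ℝ)| * (2 * Real.pi) := by
      rw [hm, add_sub_cancel_left, abs_mul, abs_of_pos Real.two_pi_pos]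
    have h5 : |w.re - w'.re| < 2 := by
      have e : w.re - w'.re = (w.re - s₀) - (w'.re - s₀) := by ring
      rw [e]
      exact (abs_sub _ _).trans_lt (by linarith)
    have := Real.pi_gt_three
    nlinarith
  rw [hm0] at hm
  apply Complex.ext
  · simpa using hm
  · exact h1

theorem qq_emb (s₀ : ℝ) : Topology.IsOpenEmbedding (fun w : {w : ℂ | |w.re - s₀| < 1} => qq w) := by
  have hU : IsOpen {w : ℂ | |w.re - s₀| < 1} :=
    isOpen_lt ((Complex.continuous_re.sub continuous_const).abs) continuous_const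
  refine Topology.IsOpenEmbedding.of_continuous_injective_isOpenMap
    (qq_cont.comp continuous_subtype_val) ?_ ?_
  · rintro ⟨a, ha⟩ ⟨b, hb⟩ h
    exact Subtype.ext (qq_inj ha hb h)
  · exact qq_open.comp hU.isOpenMap_subtype_val

section

variable {k : ℝ → Circle → E3}

/-- the smooth step -/
noncomputable def stp (h : ℝ) : ℝ := Real.smoothTransition (h - 1)

theorem stp_mem (h : ℝ) : stp h ∈ Icc (0 : ℝ) 1 :=
  ⟨Real.smoothTransition.nonneg _, Real.smoothTransition.le_one _⟩

theorem stp_zero {h : ℝ} (hh : h ≤ 1) : stp h = 0 :=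
  Real.smoothTransition.zero_of_nonpos (by linarith)

theorem stp_one {h : ℝ} (hh : 2 ≤ h) : stp h = 1 :=
  Real.smoothTransition.one_of_one_le (by linarith)

theorem stp_smooth : ContDiff ℝ ∞ stp :=
  (Real.smoothTransition.contDiff (n := ⊤)).comp (contDiff_id.sub contDiff_const)

/-- the trace of the isotopy -/
noncomputable def trE (k : ℝ → Circle → E3) (p : ℝ × Circle) : E4 :=
  inc (k (stp p.1) p.2) + p.1 • vert

theorem trE_three (p : ℝ × Circle) : (trE k p) 3 = p.1 := by
  unfold trE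
  rw [NEAR.add_vert_three, inc_three, zero_add]

theorem trE_cont (hk : ContDiff ℝ ∞ (fun q : ℝ × ℝ => k q.1 (Circle.exp q.2))) :
    Continuous (trE k) := by
  apply cont_of_exp
  have h1 : Continuous fun q : ℝ × ℝ => k (stp q.1) (Circle.exp q.2) :=
    hk.continuous.comp ((stp_smooth.continuous.comp continuous_fst).prodMk continuous_snd)
  exact (inc.continuous.comp h1).add (continuous_fst.smul continuous_const)

theorem trE_inj (hi : ∀ t ∈ Icc (0 : ℝ) 1, Function.Injective (k t)) :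
    Function.Injective (trE k) := by
  intro p p' h
  have h1 : p.1 = p'.1 := by rw [← trE_three (k := k) p, h, trE_three]
  unfold trE at h
  rw [← h1] at h
  have h2 := add_right_cancel h
  exact Prod.ext h1 (hi _ (stp_mem _) (inc_inj h2))

theorem trE_closed (hk : ContDiff ℝ ∞ (fun q : ℝ × ℝ => k q.1 (Circle.exp q.2)))
    (hi : ∀ t ∈ Icc (0 : ℝ) 1, Function.Injective (k t)) :
    Topology.IsClosedEmbedding (trE k) := by
  refine Topology.IsClosedEmbedding.of_continuous_injective_isClosedMap (trE_cont hk) (trE_inj hi) ?_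
  apply IsProperMap.isClosedMap
  rw [isProperMap_iff_isCompact_preimage]
  refine ⟨trE_cont hk, fun C hC => ?_⟩
  have hc3 : Continuous fun x : E4 => x 3 :=
    (EuclideanSpace.proj (3 : Fin 4) : E4 →L[ℝ] ℝ).continuous
  have h1 : IsCompact (((fun x : E4 => x 3) '' C) ×ˢ (univ : Set Circle)) :=
    (hC.image hc3).prod isCompact_univ
  refine h1.of_isClosed_subset (hC.isClosed.preimage (trE_cont hk)) ?_
  intro p hp
  exact ⟨⟨trE k p, hp, trE_three p⟩, mem_univ _⟩

/-- the patches -/
theorem patch_smooth (hk : ContDiff ℝ ∞ (fun q : ℝ × ℝ => k q.1 (Circle.exp q.2))) :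
    ContDiff ℝ ∞ (fun w : ℂ => trE k (qq w)) := by
  have h1 : ContDiff ℝ ∞ fun w : ℂ => ((stp w.im, w.re) : ℝ × ℝ) :=
    (stp_smooth.comp Complex.imCLM.contDiff).prodMk Complex.reCLM.contDiff
  have h2 : ContDiff ℝ ∞ fun w : ℂ => k (stp w.im) (Circle.exp w.re) := hk.comp h1
  exact (inc.contDiff.comp h2).add (Complex.imCLM.contDiff.smul contDiff_const)

theorem patch_imm (hk : ContDiff ℝ ∞ (fun q : ℝ × ℝ => k q.1 (Circle.exp q.2)))
    (hr : ∀ t ∈ Icc (0 : ℝ) 1, ∀ s : ℝ, deriv (fun s : ℝ => k t (Circle.exp s)) s ≠ 0) (z : ℂ) :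
    Function.Injective (fderiv ℝ (fun w : ℂ => trE k (qq w)) z) := by
  obtain ⟨f, hf⟩ : ∃ f : ℝ × ℝ → E3, f = fun q => k q.1 (Circle.exp q.2) := ⟨_, rfl⟩
  have hfs : ContDiff ℝ ∞ f := by rw [hf]; exact hk
  have hst : HasDerivAt stp (deriv stp z.im) z.im :=
    (stp_smooth.differentiable (by simp) _).hasDerivAt
  have h1 : HasFDerivAt (fun w : ℂ => stp w.im) ((deriv stp z.im) • Complex.imCLM) z :=
    hst.comp_hasFDerivAt z Complex.imCLM.hasFDerivAt
  have h2 : HasFDerivAt (fun w : ℂ => ((stp w.im, w.re) : ℝ × ℝ))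
      (((deriv stp z.im) • Complex.imCLM).prod Complex.reCLM) z :=
    h1.prodMk Complex.reCLM.hasFDerivAt
  have h3 : HasFDerivAt f (fderiv ℝ f (stp z.im, z.re)) (stp z.im, z.re) :=
    (hfs.differentiable (by simp) _).hasFDerivAt
  have h4 : HasFDerivAt (fun w : ℂ => f (stp w.im, w.re)) _ z := h3.comp z h2
  have h5 : HasFDerivAt (fun w : ℂ => inc (f (stp w.im, w.re))) _ z :=
    inc.hasFDerivAt.comp z h4
  obtain ⟨im', h6, him'⟩ : ∃ im' : ℂ →L[ℝ] E4, HasFDerivAt (fun w : ℂ => w.im • vert) im' z ∧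
      ∀ v, im' v = v.im • vert :=
    ⟨_, (Complex.imCLM.hasFDerivAt (x := z)).smul_const vert, fun v => rfl⟩
  have h7 := h5.add h6
  have h8 : (fun w : ℂ => trE k (qq w)) = fun w : ℂ => inc (f (stp w.im, w.re)) + w.im • vert := by
    funext w
    rw [hf]
    rfl
  have h9 := h7.fderiv
  rw [h8]
  change fderiv ℝ (fun w : ℂ => inc (f (stp w.im, w.re)) + w.im • vert) z = _ at h9
  rw [h9]
  refine (injective_iff_map_eq_zero _).2 fun v hv => ?_
  have hv1 : inc (fderiv ℝ f (stp z.im, z.re) (deriv stp z.im * v.im, v.re)) + v.im • vert = 0 := by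
    rw [← him']
    exact hv
  have him : v.im = 0 := by
    have := congrArg (fun x : E4 => x 3) hv1
    simp only at this
    rw [NEAR.add_vert_three, inc_three, zero_add] at this
    exact this
  rw [him, zero_smul, add_zero, mul_zero] at hv1
  have h10 : fderiv ℝ f (stp z.im, z.re) ((0 : ℝ), v.re) = 0 := by
    apply inc_inj
    rw [hv1, map_zero]
  have h11 : ((0 : ℝ), v.re) = v.re • ((0 : ℝ), (1 : ℝ)) := by simp
  rw [h11, map_smul] at h10
  have h12 : fderiv ℝ f (stp z.im, z.re) ((0 : ℝ), (1 : ℝ)) ≠ 0 := by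
    have h13 : HasDerivAt (fun s : ℝ => ((stp z.im, s) : ℝ × ℝ)) ((0 : ℝ), (1 : ℝ)) z.re :=
      (hasDerivAt_const _ _).prodMk (hasDerivAt_id _)
    have h14 : HasDerivAt (fun s : ℝ => f (stp z.im, s))
        (fderiv ℝ f (stp z.im, z.re) ((0 : ℝ), (1 : ℝ))) z.re := h3.comp_hasDerivAt z.re h13
    rw [← h14.deriv, hf]
    exact hr _ (stp_mem _) z.re
  have hre : v.re = 0 := (smul_eq_zero.1 h10).resolve_right h12
  exact Complex.ext hre him

end

end Pool.Agent.Run7.h233.MC
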